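import Mathlib

/-!
# Rado's theorem for wooded hypergraphs (Lovász 1970)
-/

set_option autoImplicit false
set_option linter.unusedSectionVars false

namespace Pool.Agent.Lib.Parity

open Finset

/-- pairs: the strict Hall condition makes a graph a forest -/
theorem rado_two {K : Type*} [Field K] {I V : Type*} [Fintype I] [DecidableEq I] [Fintype V]
    [DecidableEq V] (E : I → Finset V)
    (h : ∀ X : Finset I, X.Nonempty → X.card + 1 ≤ (X.biUnion E).card)
    (h2 : ∀ i, (E i).card ≤ 2) :
    ∃ s t : I → V, (∀ i, s i ∈ E i ∧ t i ∈ E i ∧ s i ≠ t i) ∧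
      LinearIndependent K (fun i => (Pi.single (s i) 1 - Pi.single (t i) 1 : V → K)) := by
  classical
  have h3 : ∀ i, (E i).card = 2 := by
    intro i
    have := h {i} (singleton_nonempty i)
    rw [card_singleton, singleton_biUnion] at this
    exact le_antisymm (h2 i) this
  have h4 : ∀ i, ∃ x y, x ≠ y ∧ E i = {x, y} := fun i => card_eq_two.mp (h3 i)
  choose s t hst hE using h4
  refine ⟨s, t, fun i => ⟨by rw [hE]; simp, by rw [hE]; simp, hst i⟩, ?_⟩
  rw [Fintype.linearIndependent_iff]
  intro g hg
  by_contra hne
  push Not at hne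
  obtain ⟨i0, hi0⟩ := hne
  let X : Finset I := univ.filter fun i => g i ≠ 0
  have hX : X.Nonempty := ⟨i0, by simp [X, hi0]⟩
  have hcard := h X hX
  -- every vertex of the union lies in at least two edges of `X`
  have hdeg : ∀ v ∈ X.biUnion E, 2 ≤ (X.filter fun i => v ∈ E i).card := by
    intro v hv
    rw [mem_biUnion] at hv
    obtain ⟨i, hi, hvi⟩ := hv
    by_contra hlt
    push Not at hlt
    have hone : ∀ j ∈ X, v ∈ E j → j = i := by
      intro j hj hvj
      have hc : (X.filter fun i => v ∈ E i).card ≤ 1 := by omega
      rw [card_le_one] at hc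
      exact hc j (mem_filter.mpr ⟨hj, hvj⟩) i (mem_filter.mpr ⟨hi, hvi⟩)
    have hv0 := congrFun hg v
    rw [Finset.sum_apply, Finset.sum_eq_single i] at hv0
    · rw [Pi.smul_apply, Pi.sub_apply, Pi.zero_apply, smul_eq_mul] at hv0
      have hgi : g i ≠ 0 := (mem_filter.mp hi).2
      rcases mul_eq_zero.mp hv0 with h0 | h0
      · exact hgi h0
      · rw [hE, mem_insert, mem_singleton] at hvi
        rcases hvi with rfl | rfl
        · rw [Pi.single_eq_same, Pi.single_eq_of_ne (hst i)] at h0
          simp at h0
        · rw [Pi.single_eq_same, Pi.single_eq_of_ne (hst i).symm] at h0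
          simp at h0
    · intro j _ hji
      by_cases hj : j ∈ X
      · have hvj : v ∉ E j := fun hv' => hji (hone j hj hv')
        rw [hE, mem_insert, mem_singleton, not_or] at hvj
        rw [Pi.smul_apply, Pi.sub_apply, Pi.single_eq_of_ne hvj.1, Pi.single_eq_of_ne hvj.2]
        simp
      · have : g j = 0 := by
          by_contra hgj
          exact hj (by simp [X, hgj])
        rw [this, zero_smul, Pi.zero_apply]
    · intro hi'
      exact absurd (mem_univ i) hi'
  have hsum : ∑ v ∈ X.biUnion E, (X.filter fun i => v ∈ E i).card = ∑ i ∈ X, (E i).card := by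
    simp_rw [card_eq_sum_ones, sum_filter]
    rw [sum_comm]
    apply sum_congr rfl
    intro i hi
    rw [← sum_filter]
    congr 1
    ext v
    simp only [mem_filter, mem_biUnion]
    constructor
    · rintro ⟨-, hv⟩
      exact hv
    · intro hv
      exact ⟨⟨i, hi, hv⟩, hv⟩
  have h5 : 2 * (X.biUnion E).card ≤ 2 * X.card := by
    calc 2 * (X.biUnion E).card = ∑ v ∈ X.biUnion E, 2 := by rw [sum_const, smul_eq_mul, mul_comm]
      _ ≤ ∑ v ∈ X.biUnion E, (X.filter fun i => v ∈ E i).card := sum_le_sum hdeg
      _ = ∑ i ∈ X, (E i).card := hsum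
      _ = ∑ i ∈ X, 2 := sum_congr rfl fun i _ => h3 i
      _ = 2 * X.card := by rw [sum_const, smul_eq_mul, mul_comm]
  omega

/-- one vertex of a hyperedge with at least three vertices can be removed -/
theorem rado_step {I V : Type*} [DecidableEq I] [DecidableEq V] (E : I → Finset V)
    (h : ∀ X : Finset I, X.Nonempty → X.card + 1 ≤ (X.biUnion E).card) (i : I)
    (h3 : 3 ≤ (E i).card) :
    ∃ v ∈ E i, ∀ X : Finset I, X.Nonempty →
      X.card + 1 ≤ (X.biUnion (Function.update E i ((E i).erase v))).card := by
  classical
  obtain ⟨v, w, hv, hw, hvw⟩ := one_lt_card_iff.mp (show 1 < (E i).card by omega)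
  by_contra hcon
  push Not at hcon
  -- the sets violating the condition contain `i`
  have key : ∀ v ∈ E i, ∃ X0 : Finset I, i ∉ X0 ∧
      (X0.biUnion E ∪ (E i).erase v).card ≤ X0.card + 1 := by
    intro v hv
    obtain ⟨X, hX, hlt⟩ := hcon v hv
    have hiX : i ∈ X := by
      by_contra hi
      have : X.biUnion (Function.update E i ((E i).erase v)) = X.biUnion E := by
        apply biUnion_congr rfl
        intro j hj
        rw [Function.update_of_ne]
        rintro rfl
        exact hi hj
      rw [this] at hlt
      exact absurd (h X hX) (by omega)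
    refine ⟨X.erase i, notMem_erase i X, ?_⟩
    have h1 : X.biUnion (Function.update E i ((E i).erase v)) =
        (X.erase i).biUnion E ∪ (E i).erase v := by
      conv_lhs => rw [← insert_erase hiX]
      rw [biUnion_insert, Function.update_self, union_comm]
      congr 1
      apply biUnion_congr rfl
      intro j hj
      rw [Function.update_of_ne (ne_of_mem_erase hj)]
    rw [h1] at hlt
    rw [card_erase_of_mem hiX]
    omega
  obtain ⟨X, hiX, hX⟩ := key v hv
  obtain ⟨Y, hiY, hY⟩ := key w hw
  have hsub := card_union_add_card_inter (X.biUnion E ∪ (E i).erase v) (Y.biUnion E ∪ (E i).erase w)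
  have hU : (insert i (X ∪ Y)).biUnion E ⊆
      (X.biUnion E ∪ (E i).erase v) ∪ (Y.biUnion E ∪ (E i).erase w) := by
    intro a ha
    rw [mem_biUnion] at ha
    obtain ⟨j, hj, haj⟩ := ha
    simp only [mem_union, mem_biUnion, mem_erase]
    rw [mem_insert, mem_union] at hj
    rcases hj with rfl | hj | hj
    · by_cases hav : a = v
      · right; right
        exact ⟨by rw [hav]; exact hvw, haj⟩
      · left; right
        exact ⟨hav, haj⟩
    · left; left
      exact ⟨j, hj, haj⟩
    · right; left
      exact ⟨j, hj, haj⟩
  have h1 := card_le_card hU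
  have h2 := h (insert i (X ∪ Y)) (insert_nonempty _ _)
  rw [card_insert_of_notMem (by rw [mem_union]; tauto)] at h2
  have h4 : (X ∩ Y).card + 1 ≤
      ((X.biUnion E ∪ (E i).erase v) ∩ (Y.biUnion E ∪ (E i).erase w)).card := by
    rcases (X ∩ Y).eq_empty_or_nonempty with he | hne
    · rw [he, card_empty]
      have hcard : 1 ≤ (((E i).erase v).erase w).card := by
        rw [card_erase_of_mem (mem_erase.mpr ⟨hvw.symm, hw⟩), card_erase_of_mem hv]
        omega
      refine hcard.trans (card_le_card ?_)
      intro a ha
      rw [mem_erase, mem_erase] at ha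
      simp only [mem_inter, mem_union, mem_erase]
      exact ⟨Or.inr ⟨ha.2.1, ha.2.2⟩, Or.inr ⟨ha.1, ha.2.2⟩⟩
    · refine (h _ hne).trans (card_le_card ?_)
      intro a ha
      rw [mem_biUnion] at ha
      obtain ⟨j, hj, haj⟩ := ha
      rw [mem_inter] at hj
      simp only [mem_inter, mem_union, mem_biUnion]
      exact ⟨Or.inl ⟨j, hj.1, haj⟩, Or.inl ⟨j, hj.2, haj⟩⟩
  have h5 := card_union_add_card_inter X Y
  omega

theorem rado {K : Type*} [Field K] {I V : Type*} [Fintype I] [DecidableEq I] [Fintype V]
    [DecidableEq V] (E : I → Finset V)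
    (h : ∀ X : Finset I, X.Nonempty → X.card + 1 ≤ (X.biUnion E).card) :
    ∃ s t : I → V, (∀ i, s i ∈ E i ∧ t i ∈ E i ∧ s i ≠ t i) ∧
      LinearIndependent K (fun i => (Pi.single (s i) 1 - Pi.single (t i) 1 : V → K)) := by
  classical
  induction hn : ∑ i, (E i).card using Nat.strong_induction_on generalizing E with
  | _ n ih =>
    by_cases h2 : ∀ i, (E i).card ≤ 2
    · exact rado_two E h h2
    · push Not at h2
      obtain ⟨i, hi⟩ := h2
      obtain ⟨v, hv, hstep⟩ := rado_step E h i hi
      have hlt : ∑ j, (Function.update E i ((E i).erase v) j).card < n := by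
        rw [← hn]
        apply sum_lt_sum
        · intro j _
          by_cases hj : j = i
          · subst hj
            rw [Function.update_self]
            exact card_le_card (erase_subset _ _)
          · rw [Function.update_of_ne hj]
        · refine ⟨i, mem_univ i, ?_⟩
          rw [Function.update_self]
          exact card_erase_lt_of_mem hv
      obtain ⟨s, t, hst, hli⟩ := ih _ hlt _ hstep rfl
      refine ⟨s, t, fun j => ?_, hli⟩
      have hsub : Function.update E i ((E i).erase v) j ⊆ E j := by
        by_cases hj : j = i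
        · subst hj
          rw [Function.update_self]
          exact erase_subset _ _
        · rw [Function.update_of_ne hj]
      exact ⟨hsub (hst j).1, hsub (hst j).2.1, (hst j).2.2⟩

theorem rado_conv {K : Type*} [Field K] {I V : Type*} [Fintype I] [DecidableEq I] [Fintype V]
    [DecidableEq V] (E : I → Finset V) (s t : I → V) (h1 : ∀ i, s i ∈ E i ∧ t i ∈ E i)
    (h2 : LinearIndependent K (fun i => (Pi.single (s i) 1 - Pi.single (t i) 1 : V → K)))
    (X : Finset I) (hX : X.Nonempty) : X.card + 1 ≤ (X.biUnion E).card := by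
  classical
  set U : Finset V := X.biUnion E with hU
  obtain ⟨i0, hi0⟩ := hX
  -- the vectors together with one unit vector
  have hli : LinearIndependent K (fun i : X => (Pi.single (s i) 1 - Pi.single (t i) 1 : V → K)) :=
    h2.comp (fun i : X => (i : I)) Subtype.val_injective
  let σ : (V → K) →ₗ[K] K := ∑ v, LinearMap.proj v
  have hσ1 : ∀ v : V, σ (Pi.single v 1) = 1 := by
    intro v
    simp [σ]
  have hnot : (Pi.single (s i0) 1 : V → K) ∉ Submodule.span K
      (Set.range (fun i : X => (Pi.single (s i) 1 - Pi.single (t i) 1 : V → K))) := by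
    intro hmem
    have hle : Submodule.span K
        (Set.range (fun i : X => (Pi.single (s i) 1 - Pi.single (t i) 1 : V → K))) ≤
        LinearMap.ker σ := by
      rw [Submodule.span_le]
      rintro _ ⟨i, rfl⟩
      rw [SetLike.mem_coe, LinearMap.mem_ker, map_sub, hσ1, hσ1, sub_self]
    have := hle hmem
    rw [LinearMap.mem_ker, hσ1] at this
    exact one_ne_zero this
  have hopt := linearIndependent_option'.mpr ⟨hli, hnot⟩
  -- everything is supported on `U`
  let ext : (U → K) →ₗ[K] (V → K) :=
    { toFun := fun f v => if h : v ∈ U then f ⟨v, h⟩ else 0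
      map_add' := by
        intro f g
        funext v
        by_cases h : v ∈ U
        · simp [h]
        · simp [h]
      map_smul' := by
        intro a f
        funext v
        by_cases h : v ∈ U
        · simp [h]
        · simp [h] }
  have hext : ∀ f : V → K, (∀ v, v ∉ U → f v = 0) → ext (fun u : U => f u) = f := by
    intro f hf
    funext v
    change (if h : v ∈ U then f v else 0) = f v
    by_cases h : v ∈ U
    · rw [dif_pos h]
    · rw [dif_neg h, hf v h]
  have hs : ∀ i ∈ X, ∀ v, v ∉ U → v ≠ s i ∧ v ≠ t i := by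
    intro i hi v hv
    constructor
    · rintro rfl
      exact hv (mem_biUnion.mpr ⟨i, hi, (h1 i).1⟩)
    · rintro rfl
      exact hv (mem_biUnion.mpr ⟨i, hi, (h1 i).2⟩)
  let x : Option X → (V → K) := fun o => Option.casesOn' o (Pi.single (s i0) 1)
    (fun i : X => (Pi.single (s i) 1 - Pi.single (t i) 1 : V → K))
  have hx : ∀ o : Option X, ext (fun u : U => x o u) = x o := by
    intro o
    apply hext
    intro v hv
    cases o with
    | none =>
      change (Pi.single (s i0) 1 : V → K) v = 0
      rw [Pi.single_eq_of_ne (hs i0 hi0 v hv).1]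
    | some i =>
      change (Pi.single (s i) 1 - Pi.single (t i) 1 : V → K) v = 0
      rw [Pi.sub_apply, Pi.single_eq_of_ne (hs i i.2 v hv).1,
        Pi.single_eq_of_ne (hs i i.2 v hv).2, sub_zero]
  have hli2 : LinearIndependent K (ext ∘ fun (o : Option X) (u : U) => x o u) := by
    have : (ext ∘ fun (o : Option X) (u : U) => x o u) = x := funext hx
    rw [this]
    exact hopt
  have hli3 := LinearIndependent.of_comp ext hli2
  have := hli3.fintype_card_le_finrank
  rw [Fintype.card_option, Module.finrank_fintype_fun_eq_card, Fintype.card_coe,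
    Fintype.card_coe] at this
  exact this

end Pool.Agent.Lib.Parity
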