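import Pool.Agent.Lib.Parity.AlgDefs
import Pool.Agent.Lib.Parity.RADO

/-!
# From a hypergraph matching to a matching of lines
-/

set_option autoImplicit false
set_option linter.unusedSectionVars false

namespace Pool.Agent.Lib.Parity

open Finset

namespace Gada

theorem cell_map (N i : ℕ) (hi : i < N) (f : ℕ → ℕ) : cell ((List.range N).map f) i = f i := by
  unfold cell
  rw [List.getD_eq_getElem?_getD, List.getElem?_map, List.getElem?_range hi]
  rfl

theorem cell_uvec (N k i : ℕ) (hi : i < N) : cell (uvec N k) i = if i = k then 1 else 0 :=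
  cell_map N i hi _

theorem cell_evec (e N a b i : ℕ) (hi : i < N) :
    cell (evec e N a b) i = if i = a then 1 else if i = b then e else 0 :=
  cell_map N i hi _

theorem cast_e (e : ℕ) : ((e : ℕ) : ZMod (e + 1)) = -1 := by
  have h : ((e + 1 : ℕ) : ZMod (e + 1)) = 0 := ZMod.natCast_self _
  push_cast at h
  exact eq_neg_of_add_eq_zero_left h

theorem f1_lt {H : List (List ℕ × List ℕ)} {i a : ℕ} (ha : a ∈ f1 H i ∨ a ∈ f2 H i) :
    a < nv H := by
  have hi : i < H.length := by
    by_contra hi
    unfold f1 f2 at ha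
    rw [List.getD_eq_default _ _ (by omega)] at ha
    simp at ha
  have hm : H.getD i ([], []) ∈ H := by
    rw [List.getD_eq_getElem _ _ hi]
    exact List.getElem_mem hi
  have hmem : a ∈ H.flatMap fun q => q.1 ++ q.2 := by
    rw [List.mem_flatMap]
    refine ⟨_, hm, ?_⟩
    rw [List.mem_append]
    exact ha
  unfold nv
  exact Nat.lt_succ_of_le (List.le_sum_of_mem hmem)

theorem mem_hyp_lt {H : List (List ℕ × List ℕ)} {q : ℕ × Bool} {a : ℕ} (ha : a ∈ hyp H q) :
    a < nv H := by
  unfold hyp at ha
  split_ifs at ha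
  · exact f1_lt (Or.inr (List.mem_toFinset.mp ha))
  · exact f1_lt (Or.inl (List.mem_toFinset.mp ha))

theorem mem_gad (e : ℕ) (H : List (List ℕ × List ℕ)) (u : ℕ) (hu : u < H.length)
    (x : List ℕ × List ℕ) (hx : x ∈ gadU e (nv H) (dimH H) u (f1 H u, f2 H u)) : x ∈ gad e H := by
  unfold gad
  rw [List.mem_flatMap]
  refine ⟨(H[u], u), ?_, ?_⟩
  · rw [List.mk_mem_zipIdx_iff_getElem?]
    exact List.getElem?_eq_getElem hu
  · have : (f1 H u, f2 H u) = H[u] := by
      unfold f1 f2
      rw [List.getD_eq_getElem _ _ hu]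
    rw [← this]
    exact hx

/-- the private coordinate -/
def kap (n u : ℕ) (b : Bool) : ℕ := n + 2 * u + (if b = true then 1 else 0)

theorem kap_inj {n u v : ℕ} {b c : Bool} (h : kap n u b = kap n v c) : u = v ∧ b = c := by
  unfold kap at h
  cases b <;> cases c <;> simp at h ⊢ <;> omega

theorem line_unit (e : ℕ) (H : List (List ℕ × List ℕ)) (u : ℕ) (hu : u < H.length) :
    (uvec (dimH H) (kap (nv H) u false), uvec (dimH H) (kap (nv H) u true)) ∈ gad e H := by
  apply mem_gad e H u hu
  unfold gadU
  rw [List.mem_cons]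
  left
  rfl

theorem line_edge (e : ℕ) (H : List (List ℕ × List ℕ)) (u : ℕ) (hu : u < H.length) (b : Bool)
    (s t : ℕ) (hs : s ∈ hyp H (u, b)) (ht : t ∈ hyp H (u, b)) (hst : s ≠ t) :
    (evec e (dimH H) s t, uvec (dimH H) (kap (nv H) u b)) ∈ gad e H := by
  apply mem_gad e H u hu
  unfold gadU
  rw [List.mem_cons, List.mem_append, List.mem_map, List.mem_map]
  right
  have hp : ∀ l : List ℕ, s ∈ l → t ∈ l → (s, t) ∈ prs l := by
    intro l h1 h2
    unfold prs
    rw [List.mem_flatMap]
    refine ⟨s, h1, ?_⟩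
    rw [List.mem_map]
    exact ⟨t, List.mem_filter.mpr ⟨h2, by simpa using hst⟩, rfl⟩
  cases b with
  | false =>
    left
    unfold hyp at hs ht
    simp only [Bool.false_eq_true, if_false, List.mem_toFinset] at hs ht
    exact ⟨(s, t), hp _ hs ht, rfl⟩
  | true =>
    right
    unfold hyp at hs ht
    simp only [if_true, List.mem_toFinset] at hs ht
    exact ⟨(s, t), hp _ hs ht, rfl⟩

theorem exists_pos {Ls : List (List ℕ × List ℕ)} {x : List ℕ × List ℕ} (hx : x ∈ Ls) :
    ∃ l : Fin Ls.length, f1 Ls l = x.1 ∧ f2 Ls l = x.2 := by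
  obtain ⟨i, hi, rfl⟩ := List.mem_iff_getElem.mp hx
  refine ⟨⟨i, hi⟩, ?_, ?_⟩
  · unfold f1
    rw [List.getD_eq_getElem _ _ hi]
  · unfold f2
    rw [List.getD_eq_getElem _ _ hi]

end Gada

open Gada

theorem gad_ge {e : ℕ} [Fact (e + 1).Prime] (H : List (List ℕ × List ℕ)) (U : Finset ℕ)
    (hU : U ⊆ Finset.range H.length) (h : HInd H U) :
    ∃ M : Finset (Fin (gad e H).length), Matching (ZMod (e + 1))
      (vb (e + 1) (dimH H) (gad e H)) (vc (e + 1) (dimH H) (gad e H)) M ∧
      M.card = H.length + U.card := by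
  classical
  set N := dimH H with hN
  set n := nv H with hn
  set K := ZMod (e + 1) with hK
  have hNn : N = n + 2 * H.length := rfl
  -- the hyperedges of `U`
  let I := {u : Fin H.length // (u : ℕ) ∈ U} × Bool
  let E : I → Finset (Fin N) := fun q => univ.filter fun v : Fin N => (v : ℕ) ∈ hyp H (q.1.1, q.2)
  have hE : ∀ X : Finset I, X.Nonempty → X.card + 1 ≤ (X.biUnion E).card := by
    intro X hX
    let φ : I → ℕ × Bool := fun q => (q.1.1, q.2)
    have hφ : Function.Injective φ := by
      rintro ⟨⟨u, hu⟩, b⟩ ⟨⟨v, hv⟩, c⟩ huv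
      simp only [φ, Prod.mk.injEq] at huv
      obtain ⟨h1, h2⟩ := huv
      have h3 : u = v := Fin.ext h1
      subst h3
      rw [h2]
    have h1 := h (X.image φ) (hX.image φ) (by
      intro q hq
      rw [mem_image] at hq
      obtain ⟨q', -, rfl⟩ := hq
      exact q'.1.2)
    rw [card_image_of_injective _ hφ] at h1
    refine h1.trans ?_
    rw [← card_map (Fin.valEmbedding)]
    apply card_le_card
    intro a ha
    rw [mem_biUnion] at ha
    obtain ⟨q, hq, haq⟩ := ha
    rw [mem_image] at hq
    obtain ⟨q', hq', rfl⟩ := hq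
    rw [mem_map]
    have han : a < N := by
      have := mem_hyp_lt haq
      omega
    refine ⟨⟨a, han⟩, ?_, rfl⟩
    rw [mem_biUnion]
    exact ⟨q', hq', mem_filter.mpr ⟨mem_univ _, haq⟩⟩
  obtain ⟨s, t, hst, hli⟩ := rado (K := K) E hE
  have hs : ∀ q : I, ((s q : Fin N) : ℕ) ∈ hyp H (q.1.1, q.2) := fun q => (mem_filter.mp (hst q).1).2
  have ht : ∀ q : I, ((t q : Fin N) : ℕ) ∈ hyp H (q.1.1, q.2) :=
    fun q => (mem_filter.mp (hst q).2.1).2
  have hsn : ∀ q : I, ((s q : Fin N) : ℕ) < n := fun q => mem_hyp_lt (hs q)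
  have htn : ∀ q : I, ((t q : Fin N) : ℕ) < n := fun q => mem_hyp_lt (ht q)
  -- the chosen lines
  let C := {u : Fin H.length // (u : ℕ) ∉ U} ⊕ I
  have hpos : ∀ c : C, ∃ l : Fin (gad e H).length,
      (∀ u, c = Sum.inl u → f1 (gad e H) l = uvec N (kap n u.1 false) ∧
        f2 (gad e H) l = uvec N (kap n u.1 true)) ∧
      (∀ q : I, c = Sum.inr q → f1 (gad e H) l = evec e N (s q) (t q) ∧
        f2 (gad e H) l = uvec N (kap n q.1.1 q.2)) := by
    rintro (u | q)
    · obtain ⟨l, h1, h2⟩ := exists_pos (line_unit e H u.1 u.1.2)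
      refine ⟨l, ?_, ?_⟩
      · intro u' hu'
        rw [Sum.inl.injEq] at hu'
        subst hu'
        exact ⟨h1, h2⟩
      · intro q hq
        exact absurd hq (by simp)
    · obtain ⟨l, h1, h2⟩ := exists_pos (line_edge e H q.1.1 q.1.1.2 q.2 (s q) (t q) (hs q) (ht q)
        (fun hh => (hst q).2.2 (Fin.ext hh)))
      refine ⟨l, ?_, ?_⟩
      · intro u hu
        exact absurd hu (by simp)
      · intro q' hq'
        rw [Sum.inr.injEq] at hq'
        subst hq'
        exact ⟨h1, h2⟩
  choose pos hpos1 hpos2 using hpos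
  -- the vectors
  let w : C × Bool → (Fin N → K) := fun q => if q.2 = true then vb (e + 1) N (gad e H) (pos q.1)
    else vc (e + 1) N (gad e H) (pos q.1)
  have hunit : ∀ (k : ℕ) (i : Fin N), ((cell (uvec N k) i : ℕ) : K) =
      if (i : ℕ) = k then 1 else 0 := by
    intro k i
    rw [cell_uvec N k i i.2]
    split_ifs <;> simp
  have hwl1 : ∀ (u : {u : Fin H.length // (u : ℕ) ∉ U}) (i : Fin N),
      w (Sum.inl u, true) i = if (i : ℕ) = kap n u.1 false then 1 else 0 := by
    intro u i
    change ((cell (f1 (gad e H) (pos (Sum.inl u))) i : ℕ) : K) = _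
    rw [(hpos1 (Sum.inl u) u rfl).1, hunit]
  have hwl2 : ∀ (u : {u : Fin H.length // (u : ℕ) ∉ U}) (i : Fin N),
      w (Sum.inl u, false) i = if (i : ℕ) = kap n u.1 true then 1 else 0 := by
    intro u i
    change ((cell (f2 (gad e H) (pos (Sum.inl u))) i : ℕ) : K) = _
    rw [(hpos1 (Sum.inl u) u rfl).2, hunit]
  have hwr2 : ∀ (q : I) (i : Fin N),
      w (Sum.inr q, false) i = if (i : ℕ) = kap n q.1.1 q.2 then 1 else 0 := by
    intro q i
    change ((cell (f2 (gad e H) (pos (Sum.inr q))) i : ℕ) : K) = _
    rw [(hpos2 (Sum.inr q) q rfl).2, hunit]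
  have hwr1 : ∀ (q : I), w (Sum.inr q, true) = Pi.single (s q) 1 - Pi.single (t q) 1 := by
    intro q
    funext i
    change ((cell (f1 (gad e H) (pos (Sum.inr q))) i : ℕ) : K) = _
    rw [(hpos2 (Sum.inr q) q rfl).1, cell_evec e N _ _ i i.2, Pi.sub_apply]
    by_cases h1 : i = s q
    · have h2 : i ≠ t q := fun h2 => (hst q).2.2 (h1.symm.trans h2)
      rw [if_pos (by rw [h1]), Pi.single_eq_of_ne h2, h1, Pi.single_eq_same]
      simp
    · rw [if_neg (fun hh => h1 (Fin.ext hh)), Pi.single_eq_of_ne h1]
      by_cases h2 : i = t q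
      · rw [if_pos (by rw [h2]), h2, Pi.single_eq_same, cast_e]
        simp
      · rw [if_neg (fun hh => h2 (Fin.ext hh)), Pi.single_eq_of_ne h2]
        simp
  have hLI : LinearIndependent K w := by
    rw [Fintype.linearIndependent_iff]
    intro g hg
    have hsum : ∀ i : Fin N,
        (∑ u, (g (Sum.inl u, true) * w (Sum.inl u, true) i +
          g (Sum.inl u, false) * w (Sum.inl u, false) i)) +
        ∑ q, (g (Sum.inr q, true) * w (Sum.inr q, true) i +
          g (Sum.inr q, false) * w (Sum.inr q, false) i) = 0 := by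
      intro i
      have h1 := congrFun hg i
      rw [Finset.sum_apply, Fintype.sum_prod_type] at h1
      simp only [Fintype.sum_bool, Pi.smul_apply, smul_eq_mul, Pi.zero_apply] at h1
      exact (Fintype.sum_sum_type _).symm.trans h1
    -- the private coordinates
    have hpriv : ∀ (u : Fin H.length) (b : Bool), ∃ i : Fin N, (i : ℕ) = kap n u b := by
      intro u b
      have hu := u.2
      refine ⟨⟨kap n u b, ?_⟩, rfl⟩
      unfold kap
      split_ifs <;> omega
    have hedge0 : ∀ (q : I) (i : Fin N), n ≤ (i : ℕ) → w (Sum.inr q, true) i = 0 := by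
      intro q i hi
      rw [hwr1, Pi.sub_apply, Pi.single_eq_of_ne, Pi.single_eq_of_ne, sub_zero]
      · rintro rfl
        exact absurd (htn q) (by omega)
      · rintro rfl
        exact absurd (hsn q) (by omega)
    have hkn : ∀ (u : ℕ) (b : Bool), n ≤ kap n u b := by
      intro u b
      unfold kap
      omega
    have g1 : ∀ u : {u : Fin H.length // (u : ℕ) ∉ U}, g (Sum.inl u, true) = 0 := by
      intro u
      obtain ⟨i, hi⟩ := hpriv u.1 false
      have h1 := hsum i
      rw [Finset.sum_eq_single u, Finset.sum_eq_zero] at h1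
      · rw [hwl1, hwl2, if_pos hi, if_neg (by
          rw [hi]; intro hh; exact absurd (kap_inj hh).2 (by simp))] at h1
        simpa using h1
      · intro q _
        rw [hedge0 q i (by rw [hi]; exact hkn _ _), hwr2, if_neg]
        · simp
        · rw [hi]
          intro hh
          exact u.2 (by rw [(kap_inj hh).1]; exact q.1.2)
      · intro v _ hvu
        rw [hwl1, hwl2, if_neg, if_neg]
        · simp
        · rw [hi]
          intro hh
          exact absurd (kap_inj hh).2 (by simp)
        · rw [hi]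
          intro hh
          exact hvu (Subtype.ext (Fin.ext (kap_inj hh).1.symm))
      · intro hu
        exact absurd (mem_univ u) hu
    have g2 : ∀ u : {u : Fin H.length // (u : ℕ) ∉ U}, g (Sum.inl u, false) = 0 := by
      intro u
      obtain ⟨i, hi⟩ := hpriv u.1 true
      have h1 := hsum i
      rw [Finset.sum_eq_single u, Finset.sum_eq_zero] at h1
      · rw [hwl1, hwl2, if_pos hi, if_neg (by
          rw [hi]; intro hh; exact absurd (kap_inj hh).2 (by simp))] at h1
        simpa using h1
      · intro q _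
        rw [hedge0 q i (by rw [hi]; exact hkn _ _), hwr2, if_neg]
        · simp
        · rw [hi]
          intro hh
          exact u.2 (by rw [(kap_inj hh).1]; exact q.1.2)
      · intro v _ hvu
        rw [hwl1, hwl2, if_neg, if_neg]
        · simp
        · rw [hi]
          intro hh
          exact hvu (Subtype.ext (Fin.ext (kap_inj hh).1.symm))
        · rw [hi]
          intro hh
          exact absurd (kap_inj hh).2 (by simp)
      · intro hu
        exact absurd (mem_univ u) hu
    have g3 : ∀ q : I, g (Sum.inr q, false) = 0 := by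
      intro q
      obtain ⟨i, hi⟩ := hpriv q.1.1 q.2
      have h1 := hsum i
      rw [Finset.sum_eq_zero, Finset.sum_eq_single q, zero_add] at h1
      · rw [hedge0 q i (by rw [hi]; exact hkn _ _), hwr2, if_pos hi] at h1
        simpa using h1
      · intro q' _ hq'
        rw [hedge0 q' i (by rw [hi]; exact hkn _ _), hwr2, if_neg]
        · simp
        · rw [hi]
          intro hh
          apply hq'
          obtain ⟨h3, h4⟩ := kap_inj hh
          exact Prod.ext (Subtype.ext (Fin.ext h3.symm)) h4.symm
      · intro hu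
        exact absurd (mem_univ q) hu
      · intro v _
        rw [g1, g2]
        simp
    have g4 : ∀ q : I, g (Sum.inr q, true) = 0 := by
      rw [Fintype.linearIndependent_iff] at hli
      apply hli (fun q => g (Sum.inr q, true))
      funext i
      have h1 := hsum i
      rw [Finset.sum_eq_zero (fun v _ => by rw [g1, g2]; simp), zero_add] at h1
      rw [Finset.sum_apply, Pi.zero_apply, ← h1]
      apply sum_congr rfl
      intro q _
      rw [g3, zero_mul, add_zero, hwr1, Pi.smul_apply, smul_eq_mul]
    rintro ⟨c | c, b⟩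
    · cases b with
      | false => exact g2 c
      | true => exact g1 c
    · cases b with
      | false => exact g3 c
      | true => exact g4 c
  have hinj : Function.Injective pos := by
    intro c c' hcc
    have h1 : w (c, true) = w (c', true) := by
      change vb (e + 1) N (gad e H) (pos c) = vb (e + 1) N (gad e H) (pos c')
      rw [hcc]
    exact congrArg Prod.fst (hLI.injective h1)
  refine ⟨univ.image pos, ?_, ?_⟩
  · unfold Matching
    let φ : C ≃ (univ.image pos : Finset (Fin (gad e H).length)) :=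
      Equiv.ofBijective (fun c => ⟨pos c, mem_image_of_mem pos (mem_univ c)⟩)
        ⟨fun c c' hcc => hinj (congrArg Subtype.val hcc), by
          rintro ⟨l, hl⟩
          obtain ⟨c, -, rfl⟩ := mem_image.mp hl
          exact ⟨c, rfl⟩⟩
    rw [← linearIndependent_equiv (φ.prodCongr (Equiv.refl Bool))]
    exact hLI
  · rw [card_image_of_injective _ hinj, card_univ]
    have hc1 : Fintype.card {u : Fin H.length // (u : ℕ) ∈ U} = U.card := by
      rw [Fintype.card_subtype, ← card_map (Fin.valEmbedding)]
      congr 1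
      ext a
      simp only [mem_map, mem_filter, mem_univ, true_and, Fin.valEmbedding_apply]
      constructor
      · rintro ⟨u, hu, rfl⟩
        exact hu
      · intro ha
        exact ⟨⟨a, mem_range.mp (hU ha)⟩, ha, rfl⟩
    have hc2 : Fintype.card {u : Fin H.length // (u : ℕ) ∉ U} = H.length - U.card := by
      rw [Fintype.card_subtype_compl, hc1, Fintype.card_fin]
    have hc3 : U.card ≤ H.length := by
      have := card_le_card hU
      rwa [card_range] at this
    change Fintype.card ({u : Fin H.length // (u : ℕ) ∉ U} ⊕ I) = _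
    rw [Fintype.card_sum, Fintype.card_prod, hc1, hc2, Fintype.card_bool]
    omega

end Pool.Agent.Lib.Parity
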