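import Pool.Agent.Lib.Parity.GADL
import Pool.Agent.Lib.Parity.RADO

/-!
# From a matching of lines to a hypergraph matching
-/

set_option autoImplicit false
set_option linter.unusedSectionVars false

namespace Pool.Agent.Lib.Parity

open Module

theorem sg_single {p N j : ℕ} (hj : j < N) : sg p N j = Pi.single ⟨j, hj⟩ 1 := by
  funext i
  unfold sg
  rw [Pi.single_apply]
  congr 1
  simp [Fin.ext_iff]

theorem sg_inj {p N i j : ℕ} [Fact p.Prime] (hi : i < N) (h : sg p N i = sg p N j) : i = j := by
  have h1 := congrFun h ⟨i, hi⟩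
  simp only [sg, if_true] at h1
  by_contra h2
  rw [if_neg h2] at h1
  exact one_ne_zero h1

section
variable {e : ℕ} [Fact (e + 1).Prime] {H : List (List ℕ × List ℕ)}
  {M : Finset (Fin (gad e H).length)} (hM : Matching (ZMod (e + 1))
      (vb (e + 1) (dimH H) (gad e H)) (vc (e + 1) (dimH H) (gad e H)) M)
include hM

theorem mat_bb {l l' : Fin (gad e H).length} (hl : l ∈ M) (hl' : l' ∈ M)
    (h : vb (e + 1) (dimH H) (gad e H) l = vb (e + 1) (dimH H) (gad e H) l') : l = l' := by
  have h1 := hM.injective (a₁ := (⟨l, hl⟩, true)) (a₂ := (⟨l', hl'⟩, true)) (by simpa using h)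
  simpa using h1

theorem mat_cc {l l' : Fin (gad e H).length} (hl : l ∈ M) (hl' : l' ∈ M)
    (h : vc (e + 1) (dimH H) (gad e H) l = vc (e + 1) (dimH H) (gad e H) l') : l = l' := by
  have h1 := hM.injective (a₁ := (⟨l, hl⟩, false)) (a₂ := (⟨l', hl'⟩, false)) (by simpa using h)
  simpa using h1

theorem mat_bc {l l' : Fin (gad e H).length} (hl : l ∈ M) (hl' : l' ∈ M)
    (h : vb (e + 1) (dimH H) (gad e H) l = vc (e + 1) (dimH H) (gad e H) l') : False := by
  have h1 := hM.injective (a₁ := (⟨l, hl⟩, true)) (a₂ := (⟨l', hl'⟩, false)) (by simpa using h)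
  simp at h1

/-- two lines of `M` with the same index and the same type are equal -/
theorem mat_inj {l l' : Fin (gad e H).length} (hl : l ∈ M) (hl' : l' ∈ M) {u : ℕ} :
    ((G0 e H l u ∨ G1 e H l u false) → (G0 e H l' u ∨ G1 e H l' u false) → l = l') ∧
    (G1 e H l u true → G1 e H l' u true → l = l') := by
  refine ⟨?_, ?_⟩
  · rintro (⟨h1, h2⟩ | ⟨a, b, -, -, -, -, -, h1, h2⟩) (⟨h3, h4⟩ | ⟨a', b', -, -, -, -, -, h3, h4⟩)
    · exact mat_cc hM hl hl' (h2.trans h4.symm)
    · exfalso
      refine mat_bc hM hl hl' ?_
      rw [h1, h4]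
      simp
    · exfalso
      refine mat_bc hM hl' hl ?_
      rw [h3, h2]
      simp
    · exact mat_cc hM hl hl' (h2.trans h4.symm)
  · rintro ⟨a, b, -, -, -, -, -, h1, h2⟩ ⟨a', b', -, -, -, -, -, h3, h4⟩
    exact mat_cc hM hl hl' (h2.trans h4.symm)

/-- a line of the first type excludes lines of the third type with the same index -/
theorem mat_excl {l l' : Fin (gad e H).length} (hl : l ∈ M) (hl' : l' ∈ M) {u : ℕ}
    (hu : u < H.length) (h : G0 e H l u) (h' : G1 e H l' u true) : False := by
  obtain ⟨h1, h2⟩ := h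
  obtain ⟨a, b, hab, -, -, ha, hb, h3, h4⟩ := h'
  have h5 : l = l' := by
    refine mat_cc hM hl hl' ?_
    rw [h2, h4]
    simp
  subst h5
  have h6 := h1.symm.trans h3
  have hN : nv H + 2 * u < dimH H := by unfold dimH; omega
  have h7 := congrFun h6 ⟨_, hN⟩
  simp only [sg, Pi.sub_apply, if_true] at h7
  rw [if_neg (by omega), if_neg (by omega), sub_zero] at h7
  exact one_ne_zero h7

end

theorem gad_le {e : ℕ} [Fact (e + 1).Prime] (H : List (List ℕ × List ℕ))
    (M : Finset (Fin (gad e H).length)) (hM : Matching (ZMod (e + 1))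
      (vb (e + 1) (dimH H) (gad e H)) (vc (e + 1) (dimH H) (gad e H)) M) :
    ∃ U : Finset ℕ, U ⊆ Finset.range H.length ∧ HInd H U ∧ M.card ≤ H.length + U.card := by
  classical
  have hg := gad_cases e H
  choose u hu ht using hg
  -- the type of a line
  let ty : Fin (gad e H).length → Bool := fun l => decide (G1 e H l (u l) true)
  let φ : Fin (gad e H).length → ℕ × Bool := fun l => (u l, ty l)
  have ht1 : ∀ l, ty l = true → G1 e H l (u l) true := fun l h => by simpa [ty] using h
  have ht0 : ∀ l, ty l = false → G0 e H l (u l) ∨ G1 e H l (u l) false := by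
    intro l h
    have h1 : ¬ G1 e H l (u l) true := by simpa [ty] using h
    rcases ht l with h2 | h2 | h2
    · exact Or.inl h2
    · exact Or.inr h2
    · exact absurd h2 h1
  have hinj : Set.InjOn φ M := by
    intro l hl l' hl' h
    simp only [φ, Prod.mk.injEq] at h
    obtain ⟨h1, h2⟩ := h
    rcases hb : ty l with _ | _
    · have h3 := ht0 l' (h2 ▸ hb)
      rw [← h1] at h3
      exact (mat_inj hM hl hl').1 (ht0 l hb) h3
    · have h3 := ht1 l' (h2 ▸ hb)
      rw [← h1] at h3
      exact (mat_inj hM hl hl').2 (ht1 l hb) h3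
  let A : Bool → Finset ℕ := fun b => (Finset.range H.length).filter
    fun v => ∃ l ∈ M, φ l = (v, b)
  have hcard : M.card ≤ (A false).card + (A true).card := by
    rw [← Finset.card_image_of_injOn hinj]
    have h1 : M.image φ ⊆ ((A false).map ⟨fun v => (v, false), fun a b h => by simpa using h⟩) ∪
        ((A true).map ⟨fun v => (v, true), fun a b h => by simpa using h⟩) := by
      intro q hq
      rw [Finset.mem_image] at hq
      obtain ⟨l, hl, rfl⟩ := hq
      rw [Finset.mem_union, Finset.mem_map, Finset.mem_map]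
      rcases hb : ty l with _ | _
      · left
        refine ⟨u l, ?_, by simp [φ, hb]⟩
        simp only [A, Finset.mem_filter, Finset.mem_range]
        exact ⟨hu l, l, hl, by simp [φ, hb]⟩
      · right
        refine ⟨u l, ?_, by simp [φ, hb]⟩
        simp only [A, Finset.mem_filter, Finset.mem_range]
        exact ⟨hu l, l, hl, by simp [φ, hb]⟩
    calc (M.image φ).card ≤ _ := Finset.card_le_card h1
      _ ≤ _ := Finset.card_union_le _ _
      _ = _ := by rw [Finset.card_map, Finset.card_map]
  refine ⟨A false ∩ A true, ?_, ?_, ?_⟩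
  · intro v hv
    exact Finset.mem_of_mem_filter _ (Finset.mem_inter.mp hv).1
  · intro X hX hXU
    -- the edges
    have key : ∀ q : X, ∃ l ∈ M, G1 e H l q.1.1 q.1.2 := by
      rintro ⟨⟨v, d⟩, hq⟩
      have h1 := hXU _ hq
      rw [Finset.mem_inter] at h1
      simp only [A, Finset.mem_filter, Finset.mem_range] at h1
      obtain ⟨⟨h2, l0, hl0, h3⟩, -, l1, hl1, h4⟩ := h1
      simp only [φ, Prod.mk.injEq] at h3 h4
      have h5 := ht1 l1 h4.2
      rw [h4.1] at h5
      rcases d with _ | _
      · refine ⟨l0, hl0, ?_⟩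
        have h6 := ht0 l0 h3.2
        rw [h3.1] at h6
        rcases h6 with h6 | h6
        · exact (mat_excl hM hl0 hl1 h2 h6 h5).elim
        · exact h6
      · exact ⟨l1, hl1, h5⟩
    choose L hL hG using key
    choose a b hab ha hb hla hlb hvb hvc using hG
    have hnN : nv H ≤ dimH H := by unfold dimH; omega
    have hXlt : ∀ q : X, q.1.1 < H.length := by
      intro q
      have h1 := (Finset.mem_inter.mp (hXU _ q.2)).1
      simp only [A, Finset.mem_filter, Finset.mem_range] at h1
      exact h1.1
    have hLinj : Function.Injective L := by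
      intro q q' h
      have h1 := hvc q
      rw [h, hvc q'] at h1
      have h2 := sg_inj (by
        have := hXlt q'
        unfold dimH
        split_ifs <;> omega) h1
      apply Subtype.ext
      apply Prod.ext
      · split_ifs at h2 <;> omega
      · rcases hd : q.1.2 with _ | _ <;> rcases hd' : q'.1.2 with _ | _ <;>
          simp [hd, hd'] at h2 ⊢ <;> omega
    let E : X → Finset (Fin (dimH H)) := fun q => Finset.univ.filter fun v => (v : ℕ) ∈ hyp H q.1
    have hind : LinearIndependent (ZMod (e + 1)) (fun q : X =>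
        (Pi.single (⟨a q, (hla q).trans_le hnN⟩ : Fin (dimH H)) 1 -
          Pi.single (⟨b q, (hlb q).trans_le hnN⟩ : Fin (dimH H)) 1 :
          Fin (dimH H) → ZMod (e + 1))) := by
      have h1 := hM.comp (fun q : X => ((⟨L q, hL q⟩ : M), true)) (by
        intro q q' h
        apply hLinj
        simpa using h)
      have h2 : (fun q : X =>
        (Pi.single (⟨a q, (hla q).trans_le hnN⟩ : Fin (dimH H)) 1 -
          Pi.single (⟨b q, (hlb q).trans_le hnN⟩ : Fin (dimH H)) 1 :
          Fin (dimH H) → ZMod (e + 1))) = (fun q : M × Bool =>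
            if q.2 = true then vb (e + 1) (dimH H) (gad e H) q.1 else
              vc (e + 1) (dimH H) (gad e H) q.1) ∘ fun q : X => ((⟨L q, hL q⟩ : M), true) := by
        funext q
        simp only [Function.comp_apply, if_true]
        rw [hvb q, sg_single ((hla q).trans_le hnN), sg_single ((hlb q).trans_le hnN)]
      rw [h2]
      exact h1
    obtain ⟨q0, hq0⟩ := hX
    have hne : (Finset.univ : Finset X).Nonempty := ⟨⟨q0, hq0⟩, Finset.mem_univ _⟩
    have h1 := rado_conv E _ _ (fun q => ⟨by simpa [E] using ha q, by simpa [E] using hb q⟩) hind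
      Finset.univ hne
    have h2 : (Finset.univ : Finset X).card = X.card := by
      rw [Finset.card_univ, Fintype.card_coe]
    have h3 : (Finset.univ.biUnion E).card ≤ (X.biUnion (hyp H)).card := by
      rw [← Finset.card_map Fin.valEmbedding]
      apply Finset.card_le_card
      intro v hv
      rw [Finset.mem_map] at hv
      obtain ⟨w, hw, rfl⟩ := hv
      rw [Finset.mem_biUnion] at hw ⊢
      obtain ⟨q, -, hq⟩ := hw
      refine ⟨q.1, q.2, ?_⟩
      simpa [E] using hq
    omega
  · have h1 := Finset.card_union_add_card_inter (A false) (A true)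
    have h2 : (A false ∪ A true).card ≤ H.length := by
      calc (A false ∪ A true).card ≤ (Finset.range H.length).card := by
            apply Finset.card_le_card
            intro v hv
            rw [Finset.mem_union] at hv
            rcases hv with hv | hv <;> exact Finset.mem_of_mem_filter _ hv
        _ = H.length := Finset.card_range _
    omega

end Pool.Agent.Lib.Parity
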