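import Pool.Agent.Lib.Parity.AlgDefs

/-!
# The lines of the gadget
-/

set_option autoImplicit false
set_option linter.unusedSectionVars false

namespace Pool.Agent.Lib.Parity

open Module

theorem gadU_length (e n N u : ℕ) (q : List ℕ × List ℕ) :
    (gadU e n N u q).length = 1 + (prs q.1).length + (prs q.2).length := by
  simp only [gadU, List.length_cons, List.length_append, List.length_map]
  omega

theorem length_gad (e : ℕ) (H : List (List ℕ × List ℕ)) : (gad e H).length = (gad 0 H).length := by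
  unfold gad
  rw [List.length_flatMap, List.length_flatMap]
  congr 1
  apply List.map_congr_left
  intro q _
  rw [gadU_length, gadU_length]

/-- the unit vector with the index `j` -/
def sg (p N j : ℕ) : Fin N → ZMod p := fun i => if (i : ℕ) = j then 1 else 0

theorem lt_nv {H : List (List ℕ × List ℕ)} {u : ℕ} (hu : u < H.length) {a : ℕ}
    (ha : a ∈ f1 H u ∨ a ∈ f2 H u) : a < nv H := by
  have h1 : f1 H u = (H[u]).1 := by simp [f1, hu]
  have h2 : f2 H u = (H[u]).2 := by simp [f2, hu]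
  have h3 : a ∈ H.flatMap fun q => q.1 ++ q.2 := by
    rw [List.mem_flatMap]
    refine ⟨H[u], List.getElem_mem hu, ?_⟩
    rw [List.mem_append]
    rcases ha with ha | ha
    · left; rwa [h1] at ha
    · right; rwa [h2] at ha
  have h4 := List.le_sum_of_mem h3
  unfold nv
  omega

theorem mem_prs {l : List ℕ} {a b : ℕ} (h : (a, b) ∈ prs l) : a ∈ l ∧ b ∈ l ∧ a ≠ b := by
  unfold prs at h
  rw [List.mem_flatMap] at h
  obtain ⟨c, hc, h⟩ := h
  rw [List.mem_map] at h
  obtain ⟨d, hd, h⟩ := h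
  rw [List.mem_filter] at hd
  simp only [Prod.mk.injEq] at h
  obtain ⟨rfl, rfl⟩ := h
  exact ⟨hc, hd.1, by simpa using hd.2⟩

/-- a line of the first type -/
def G0 (e : ℕ) (H : List (List ℕ × List ℕ)) (l : Fin (gad e H).length) (u : ℕ) : Prop :=
  vb (e + 1) (dimH H) (gad e H) l = sg (e + 1) (dimH H) (nv H + 2 * u) ∧
  vc (e + 1) (dimH H) (gad e H) l = sg (e + 1) (dimH H) (nv H + 2 * u + 1)

/-- a line of the second type, `d = false`, or of the third type, `d = true` -/
def G1 (e : ℕ) (H : List (List ℕ × List ℕ)) (l : Fin (gad e H).length) (u : ℕ) (d : Bool) :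
    Prop :=
  ∃ a b : ℕ, a ≠ b ∧ a ∈ hyp H (u, d) ∧ b ∈ hyp H (u, d) ∧ a < nv H ∧ b < nv H ∧
    vb (e + 1) (dimH H) (gad e H) l = sg (e + 1) (dimH H) a - sg (e + 1) (dimH H) b ∧
    vc (e + 1) (dimH H) (gad e H) l =
      sg (e + 1) (dimH H) (nv H + 2 * u + if d = true then 1 else 0)

theorem cell_uvec (N j : ℕ) (i : Fin N) : cell (uvec N j) i = if (i : ℕ) = j then 1 else 0 := by
  unfold cell uvec
  rw [List.getD_eq_getElem?_getD, List.getElem?_map, List.getElem?_range i.2]
  rfl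

theorem cell_evec (e N a b : ℕ) (i : Fin N) : cell (evec e N a b) i = if (i : ℕ) = a then 1 else
    if (i : ℕ) = b then e else 0 := by
  unfold cell evec
  rw [List.getD_eq_getElem?_getD, List.getElem?_map, List.getElem?_range i.2]
  rfl

theorem cast_uvec (p N j : ℕ) : (fun i : Fin N => ((cell (uvec N j) i : ℕ) : ZMod p)) =
    sg p N j := by
  funext i
  rw [cell_uvec]
  unfold sg
  split_ifs <;> simp

theorem cast_evec (e N a b : ℕ) (hab : a ≠ b) :
    (fun i : Fin N => ((cell (evec e N a b) i : ℕ) : ZMod (e + 1))) =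
    sg (e + 1) N a - sg (e + 1) N b := by
  funext i
  rw [cell_evec]
  simp only [Pi.sub_apply, sg]
  have he : ((e : ℕ) : ZMod (e + 1)) = -1 := by
    have h := ZMod.natCast_self (e + 1)
    push_cast at h
    linear_combination h
  by_cases h1 : (i : ℕ) = a
  · have h2 : (i : ℕ) ≠ b := fun h => hab (h1 ▸ h)
    simp [h1, hab]
  · by_cases h2 : (i : ℕ) = b
    · rw [if_neg h1, if_pos h2, if_neg h1, if_pos h2, he]
      ring
    · simp [h1, h2]

theorem gad_cases (e : ℕ) (H : List (List ℕ × List ℕ)) (l : Fin (gad e H).length) :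
    ∃ u < H.length, G0 e H l u ∨ G1 e H l u false ∨ G1 e H l u true := by
  have hmem : (gad e H)[(l : ℕ)] ∈ gad e H := List.getElem_mem l.2
  have hb : ∀ P, (gad e H)[(l : ℕ)] = P →
      vb (e + 1) (dimH H) (gad e H) l = (fun i : Fin (dimH H) => ((cell P.1 i : ℕ) : ZMod (e + 1))) ∧
      vc (e + 1) (dimH H) (gad e H) l = (fun i : Fin (dimH H) => ((cell P.2 i : ℕ) : ZMod (e + 1))) := by
    intro P hP
    constructor
    · funext i
      simp only [vb, f1]
      rw [List.getD_eq_getElem _ _ l.2, hP]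
    · funext i
      simp only [vc, f2]
      rw [List.getD_eq_getElem _ _ l.2, hP]
  have h0 : (gad e H)[(l : ℕ)] ∈ H.zipIdx.flatMap
      fun q => gadU e (nv H) (dimH H) q.2 q.1 := hmem
  rw [List.mem_flatMap] at h0
  obtain ⟨⟨q, u⟩, hq, h1⟩ := h0
  have h2 := List.mem_zipIdx hq
  obtain ⟨-, h3, h4⟩ := h2
  simp only [Nat.zero_add, Nat.sub_zero] at h3 h4
  have hf1 : f1 H u = q.1 := by simp only [f1]; rw [List.getD_eq_getElem _ _ h3, h4]
  have hf2 : f2 H u = q.2 := by simp only [f2]; rw [List.getD_eq_getElem _ _ h3, h4]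
  refine ⟨u, h3, ?_⟩
  simp only [gadU, List.mem_cons, List.mem_append, List.mem_map] at h1
  rcases h1 with h1 | ⟨ab, h5, h6⟩ | ⟨ab, h5, h6⟩
  · left
    obtain ⟨h6, h7⟩ := hb _ h1
    exact ⟨by rw [h6]; exact cast_uvec _ _ _, by rw [h7]; exact cast_uvec _ _ _⟩
  · right; left
    obtain ⟨a, b⟩ := ab
    obtain ⟨ha, hb', hab⟩ := mem_prs h5
    obtain ⟨h8, h9⟩ := hb _ h6.symm
    refine ⟨a, b, hab, ?_, ?_, lt_nv h3 (Or.inl (hf1 ▸ ha)), lt_nv h3 (Or.inl (hf1 ▸ hb')), ?_, ?_⟩
    · simpa [hyp, hf1] using ha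
    · simpa [hyp, hf1] using hb'
    · rw [h8]; exact cast_evec _ _ _ _ hab
    · rw [h9]; simpa using cast_uvec _ _ _
  · right; right
    obtain ⟨a, b⟩ := ab
    obtain ⟨ha, hb', hab⟩ := mem_prs h5
    obtain ⟨h8, h9⟩ := hb _ h6.symm
    refine ⟨a, b, hab, ?_, ?_, lt_nv h3 (Or.inr (hf2 ▸ ha)), lt_nv h3 (Or.inr (hf2 ▸ hb')), ?_, ?_⟩
    · simpa [hyp, hf2] using ha
    · simpa [hyp, hf2] using hb'
    · rw [h8]; exact cast_evec _ _ _ _ hab
    · rw [h9]; simpa using cast_uvec _ _ _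

theorem ind_of {p N : ℕ} [Fact p.Prime] {x y : Fin N → ZMod p} (i j : Fin N) (h1 : x i = 1)
    (h2 : y i = 0) (h3 : x j = 0) (h4 : y j = 1) : LinearIndependent (ZMod p) ![x, y] := by
  rw [LinearIndependent.pair_iff]
  intro s t h
  have hi := congrFun h i
  have hj := congrFun h j
  simp only [Pi.add_apply, Pi.smul_apply, smul_eq_mul, h1, h2, h3, h4, Pi.zero_apply, mul_one,
    mul_zero, add_zero, zero_add] at hi hj
  exact ⟨hi, hj⟩

theorem gad_ind {e : ℕ} [Fact (e + 1).Prime] (H : List (List ℕ × List ℕ))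
    (l : Fin (gad e H).length) :
    LinearIndependent (ZMod (e + 1)) ![vb (e + 1) (dimH H) (gad e H) l,
      vc (e + 1) (dimH H) (gad e H) l] := by
  obtain ⟨u, hu, h⟩ := gad_cases e H l
  have hN1 : nv H + 2 * u < dimH H := by unfold dimH; omega
  have hN2 : nv H + 2 * u + 1 < dimH H := by unfold dimH; omega
  have key : ∀ d, G1 e H l u d → LinearIndependent (ZMod (e + 1))
      ![vb (e + 1) (dimH H) (gad e H) l, vc (e + 1) (dimH H) (gad e H) l] := by
    rintro d ⟨a, b, hab, -, -, ha, hb, h1, h2⟩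
    have hj : nv H + 2 * u + (if d = true then 1 else 0) < dimH H := by
      split_ifs <;> omega
    rw [h1, h2]
    refine ind_of ⟨a, by omega⟩ ⟨_, hj⟩ ?_ ?_ ?_ ?_
    · simp [sg, hab]
    · simp only [sg]
      rw [if_neg]
      show a ≠ _
      omega
    · simp only [sg, Pi.sub_apply]
      rw [if_neg, if_neg, sub_zero]
      · show _ ≠ b
        omega
      · show _ ≠ a
        omega
    · simp [sg]
  rcases h with ⟨h1, h2⟩ | h | h
  · rw [h1, h2]
    refine ind_of ⟨_, hN1⟩ ⟨_, hN2⟩ ?_ ?_ ?_ ?_ <;> simp [sg]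
  · exact key _ h
  · exact key _ h

end Pool.Agent.Lib.Parity
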