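import Pool.Agent.Lib.Parity.AlgDefs

/-!
# Parity library: the search for a prime number
-/

set_option autoImplicit false
set_option linter.unusedSectionVars false

namespace Pool.Agent.Lib.Parity

theorem isPr_iff (q : ℕ) : isPr q = true ↔ q.Prime := by
  unfold isPr
  rw [Nat.prime_def_lt']
  simp only [Bool.and_eq_true, decide_eq_true_eq, List.all_eq_true, List.mem_range,
    Bool.or_eq_true]
  refine and_congr_right fun _ => ⟨fun h m h2 hm hd => ?_, fun h m hm => ?_⟩
  · rcases h m hm with h | h
    · omega
    · exact h (Nat.mod_eq_zero_of_dvd hd)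
  · by_cases h2 : m < 2
    · exact Or.inl h2
    · exact Or.inr fun h0 => h m (by omega) hm (Nat.dvd_of_mod_eq_zero h0)

theorem findE_aux (n : ℕ) : (n < findE n ∧ (findE n + 1).Prime) ∧ findE n ≤ 2 * n + 2 := by
  obtain ⟨p, hp, h1, h2⟩ := Nat.exists_prime_lt_and_le_two_mul (n + 1) (by omega)
  have hmem : (p - 1) ∈ ((List.range (n + 3)).map fun i => n + i).filter fun e =>
      decide (n < e) && isPr (e + 1) := by
    rw [List.mem_filter]
    refine ⟨List.mem_map.2 ⟨p - 1 - n, List.mem_range.2 (by omega), by omega⟩, ?_⟩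
    rw [Bool.and_eq_true, decide_eq_true_eq]
    refine ⟨by omega, ?_⟩
    rw [isPr_iff, Nat.sub_add_cancel (by omega : 1 ≤ p)]
    exact hp
  unfold findE
  generalize hl : (((List.range (n + 3)).map fun i => n + i).filter fun e =>
    decide (n < e) && isPr (e + 1)) = l at hmem
  cases l with
  | nil => simp at hmem
  | cons a l =>
    have ha : a ∈ ((List.range (n + 3)).map fun i => n + i).filter fun e =>
      decide (n < e) && isPr (e + 1) := by rw [hl]; exact List.mem_cons_self
    rw [List.mem_filter, List.mem_map] at ha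
    obtain ⟨⟨i, hi, hia⟩, ha2⟩ := ha
    rw [Bool.and_eq_true, decide_eq_true_eq, isPr_iff] at ha2
    rw [List.mem_range] at hi
    simp only [List.head?_cons]
    exact ⟨ha2, by omega⟩

theorem findE_spec (n : ℕ) : n < findE n ∧ (findE n + 1).Prime := (findE_aux n).1

theorem findE_le (n : ℕ) : findE n ≤ 2 * n + 2 := (findE_aux n).2

end Pool.Agent.Lib.Parity
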