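import Pool.Agent.Lib.Parity.RANKL
import Pool.Agent.Lib.Parity.PRIME
import Pool.Agent.Lib.Parity.GADL
import Pool.Agent.Lib.Parity.GADA
import Pool.Agent.Lib.Parity.GADB

/-!
# The matching number of the gadget
-/

set_option autoImplicit false
set_option linter.unusedSectionVars false

namespace Pool.Agent.Lib.Parity

open Module

theorem half_eq (n : ℕ) : half n = n / 2 := by
  have h1 : half n = ((Finset.range n).filter fun q => 2 * q + 2 ≤ n).card := rfl
  have h2 : ((Finset.range n).filter fun q => 2 * q + 2 ≤ n) = Finset.range (n / 2) := by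
    ext q
    rw [Finset.mem_filter, Finset.mem_range, Finset.mem_range]
    omega
  rw [h1, h2, Finset.card_range]

theorem nuAlg_spec (H : List (List ℕ × List ℕ)) :
    IsGreatest {k | ∃ U : Finset ℕ, U ⊆ Finset.range H.length ∧ HInd H U ∧ U.card = k}
      (nuAlg H) := by
  set e := findE (bnd (dimH H) (gad 0 H).length) with he
  obtain ⟨h1, h2⟩ := findE_spec (bnd (dimH H) (gad 0 H).length)
  rw [← he] at h1 h2
  have : Fact (e + 1).Prime := ⟨h2⟩
  have h3 : bnd (dimH H) (gad e H).length < e + 1 := by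
    rw [length_gad]
    omega
  obtain ⟨⟨M, hM, hMc⟩, hmax⟩ := rankL_spec (dimH H) (gad e H) h3 (gad_ind H)
  have h4 : nuAlg H = M.card - H.length := by
    have h5 : nuAlg H = half (rankL e (dimH H) (gad e H)) - H.length := rfl
    rw [h5, half_eq, ← hMc]
    omega
  constructor
  · obtain ⟨U, hU, hUI, hUc⟩ := gad_le H M hM
    obtain ⟨M', hM', hM'c⟩ := gad_ge (e := e) H U hU hUI
    have h5 := hmax M' hM'
    refine ⟨U, hU, hUI, ?_⟩
    omega
  · rintro k ⟨U, hU, hUI, rfl⟩
    obtain ⟨M', hM', hM'c⟩ := gad_ge (e := e) H U hU hUI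
    have h5 := hmax M' hM'
    omega

end Pool.Agent.Lib.Parity
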