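import Pool.Agent.Lib.Parity.PTB

/-!
# Parity library, module PTE: prime search, gadget in polynomial time
-/

set_option autoImplicit false
set_option linter.unusedSectionVars false

namespace Pool.Agent.Lib.Parity

open Module Pool.Agent.Lib.PolyTime

section
variable {α : Type} [Enc α]

theorem pte_isPr {f : α → ℕ} (hf : PT f) : PT (fun a => isPr (f a)) := by
  have h1 : PT (fun a => decide (2 ≤ f a)) := PT.le (PT.const 2) hf
  have h2 : PT (fun a => (List.range (f a)).all fun d =>
      decide (d < 2) || decide (f a % d ≠ 0)) := by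
    refine PT.all (f := fun a => List.range (f a))
      (p := fun a d => decide (d < 2) || decide (f a % d ≠ 0)) (PT.range hf) ?_
    refine PT.or (PT.lt PT.snd (PT.const 2)) ?_
    refine (PT.not (PT.eq (PT.mod (hf.comp PT.fst) PT.snd) (PT.const 0))).congr (fun x => ?_)
    simp
  exact (PT.and h1 h2).congr (fun a => by rw [isPr])

theorem pt_findE : PT findE := by
  have h1 : PT (fun n : ℕ => ((List.range (n + 3)).map fun i => n + i).filter fun e =>
      decide (n < e) && isPr (e + 1)) := by
    refine PT.filter (f := fun n : ℕ => (List.range (n + 3)).map fun i => n + i)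
      (p := fun n e => decide (n < e) && isPr (e + 1)) ?_ ?_
    · exact PT.map (f := fun n : ℕ => List.range (n + 3)) (g := fun n i => n + i)
        (PT.range (PT.addConst PT.id 3)) (PT.add PT.fst PT.snd)
    · exact PT.and (PT.lt PT.fst PT.snd) (pte_isPr PT.snd.succ)
  refine (PT.optCases (g := fun _ : ℕ => 0) (h := fun _ e => e) h1.head? (PT.const 0)
    PT.snd).congr (fun n => ?_)
  rw [findE]
  cases (((List.range (n + 3)).map fun i => n + i).filter fun e =>
    decide (n < e) && isPr (e + 1)).head? <;> rfl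

theorem pte_nv : PT nv := by
  have h : PT (fun H : List (List ℕ × List ℕ) => H.flatMap fun q => q.1 ++ q.2) :=
    PT.flatMap (f := fun H : List (List ℕ × List ℕ) => H) (g := fun _ q => q.1 ++ q.2) PT.id
      (PT.append PT.snd.fst' PT.snd.snd')
  exact (PT.sum h).succ

theorem pt_dimH : PT dimH := pte_nv.add (PT.mulConst (PT.length PT.id) 2)

theorem pte_uvec {f g : α → ℕ} (hf : PT f) (hg : PT g) : PT (fun a => uvec (f a) (g a)) := by
  refine PT.map (f := fun a => List.range (f a)) (g := fun a s => if s = g a then 1 else 0)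
    (PT.range hf) ?_
  exact PT.ite (c := fun x : α × ℕ => x.2 = g x.1) (PT.eq PT.snd (hg.comp PT.fst)) (PT.const 1)
    (PT.const 0)

theorem pte_evec {e f g h : α → ℕ} (he : PT e) (hf : PT f) (hg : PT g) (hh : PT h) :
    PT (fun a => evec (e a) (f a) (g a) (h a)) := by
  refine PT.map (f := fun a => List.range (f a)) (g := fun a s => if s = g a then 1 else
    if s = h a then e a else 0) (PT.range hf) ?_
  exact PT.ite (c := fun x : α × ℕ => x.2 = g x.1) (PT.eq PT.snd (hg.comp PT.fst)) (PT.const 1)
    (PT.ite (c := fun x : α × ℕ => x.2 = h x.1) (PT.eq PT.snd (hh.comp PT.fst))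
      (he.comp PT.fst) (PT.const 0))

theorem pte_prs {f : α → List ℕ} (hf : PT f) : PT (fun a => prs (f a)) := by
  refine PT.flatMap (f := f) (g := fun a x => ((f a).filter fun b => decide (x ≠ b)).map
    fun b => (x, b)) hf ?_
  refine PT.map (f := fun y : α × ℕ => (f y.1).filter fun b => decide (y.2 ≠ b))
    (g := fun y b => (y.2, b)) ?_ (PT.pair PT.fst.snd' PT.snd)
  refine PT.filter (f := fun y : α × ℕ => f y.1) (p := fun y b => decide (y.2 ≠ b))
    (hf.comp PT.fst) ?_
  refine (PT.not (PT.eq PT.fst.snd' PT.snd)).congr (fun x => ?_)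
  simp

theorem pte_gadU {e n N u : α → ℕ} {q : α → List ℕ × List ℕ} (he : PT e) (hn : PT n) (hN : PT N)
    (hu : PT u) (hq : PT q) : PT (fun a => gadU (e a) (n a) (N a) (u a) (q a)) := by
  have h0 : PT (fun a => n a + 2 * u a) := hn.add (PT.mulConst hu 2)
  have h1 : PT (fun a => n a + 2 * u a + 1) := h0.succ
  refine PT.cons (PT.pair (pte_uvec hN h0) (pte_uvec hN h1)) (PT.append ?_ ?_)
  · refine PT.map (f := fun a => prs (q a).1) (g := fun a ab => (evec (e a) (N a) ab.1 ab.2,
      uvec (N a) (n a + 2 * u a))) (pte_prs hq.fst') ?_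
    exact PT.pair (pte_evec (he.comp PT.fst) (hN.comp PT.fst) PT.snd.fst' PT.snd.snd')
      (pte_uvec (hN.comp PT.fst) (h0.comp PT.fst))
  · refine PT.map (f := fun a => prs (q a).2) (g := fun a ab => (evec (e a) (N a) ab.1 ab.2,
      uvec (N a) (n a + 2 * u a + 1))) (pte_prs hq.snd') ?_
    exact PT.pair (pte_evec (he.comp PT.fst) (hN.comp PT.fst) PT.snd.fst' PT.snd.snd')
      (pte_uvec (hN.comp PT.fst) (h1.comp PT.fst))

end

theorem pt_gad : PT (fun a : ℕ × List (List ℕ × List ℕ) => gad a.1 a.2) := by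
  refine PT.flatMap (f := fun a : ℕ × List (List ℕ × List ℕ) => a.2.zipIdx)
    (g := fun a q => gadU a.1 (nv a.2) (dimH a.2) q.2 q.1) (PT.zipIdx PT.snd) ?_
  exact pte_gadU PT.fst.fst' (pte_nv.comp PT.fst.snd') (pt_dimH.comp PT.fst.snd') PT.snd.snd'
    PT.snd.fst'

theorem pt_bnd : PT (fun a : ℕ × ℕ => bnd a.1 a.2) := by
  have h1 : PT (fun a : ℕ × ℕ => a.2 + 1) := PT.snd.succ
  exact (((((h1.mul h1).mul h1).mul (PT.fst.addConst 4)).add PT.snd).addConst 10)

theorem pt_half : PT half := by
  refine PT.length (PT.filter (f := fun n : ℕ => List.range n)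
    (p := fun n q => decide (2 * q + 2 ≤ n)) (PT.range PT.id) ?_)
  exact PT.le ((PT.mulConst PT.snd 2).addConst 2) PT.fst

end Pool.Agent.Lib.Parity
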