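import Pool.Agent.Lib.Parity.PTS
import Pool.Agent.Lib.Parity.PTE

/-!
# The matching number of pairs of hyperedges is a polynomial time function
-/

set_option autoImplicit false
set_option linter.unusedSectionVars false

namespace Pool.Agent.Lib.Parity

open Module Pool.Agent.Lib.PolyTime

theorem ptn_gen {F h : ℕ → ℕ} {B : ℕ → ℕ → ℕ} {D : List (List ℕ × List ℕ) → ℕ}
    {G : ℕ → List (List ℕ × List ℕ) → List (List ℕ × List ℕ)}
    {R : ℕ → ℕ → List (List ℕ × List ℕ) → ℕ} (hF : PT F) (hh : PT h)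
    (hB : PT (fun a : ℕ × ℕ => B a.1 a.2)) (hD : PT D)
    (hG : PT (fun a : ℕ × List (List ℕ × List ℕ) => G a.1 a.2))
    (hR : PT (fun a : ℕ × ℕ × List (List ℕ × List ℕ) => R a.1 a.2.1 a.2.2)) :
    PT (fun H => h (R (F (B (D H) (G 0 H).length)) (D H)
      (G (F (B (D H) (G 0 H).length)) H)) - H.length) := by
  have h1 : PT (fun H : List (List ℕ × List ℕ) => (G 0 H).length) :=
    PT.length (PT.comp (g := fun a : ℕ × List (List ℕ × List ℕ) => G a.1 a.2) hG
      (PT.pair (PT.const 0) PT.id))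
  have h2 : PT (fun H : List (List ℕ × List ℕ) => F (B (D H) (G 0 H).length)) :=
    PT.comp (g := F) hF (PT.comp (g := fun a : ℕ × ℕ => B a.1 a.2) hB (PT.pair hD h1))
  have h3 : PT (fun H : List (List ℕ × List ℕ) => G (F (B (D H) (G 0 H).length)) H) :=
    PT.comp (g := fun a : ℕ × List (List ℕ × List ℕ) => G a.1 a.2) hG (PT.pair h2 PT.id)
  have h4 : PT (fun H : List (List ℕ × List ℕ) => R (F (B (D H) (G 0 H).length))
      (D H) (G (F (B (D H) (G 0 H).length)) H)) :=
    PT.comp (g := fun a : ℕ × ℕ × List (List ℕ × List ℕ) => R a.1 a.2.1 a.2.2) hR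
      (PT.pair h2 (PT.pair hD h3))
  exact PT.sub (PT.comp (g := h) hh h4) (PT.length PT.id)

theorem pt_nuAlg : PT nuAlg :=
  ptn_gen (F := findE) (h := half) (B := bnd) (D := dimH) (G := gad) (R := rankL)
    pt_findE pt_half pt_bnd pt_dimH pt_gad pt_rankL

end Pool.Agent.Lib.Parity
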