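import Mathlib

/-!
# Deterministic linear matroid parity by local search: definitions
-/

set_option autoImplicit false
set_option linter.unusedSectionVars false

namespace Pool.Agent.Lib.Parity

open Module

variable {K : Type*} [Field K] {X : Type*} [AddCommGroup X] [Module K X]

/-- `b ∧ c`, as the map `ξ ↦ (b ξ) c - (c ξ) b` -/
def wedge (b c : Dual K X) : X →ₗ[K] Dual K X := b.smulRight c - c.smulRight b

/-- alternating bilinear forms -/
def Alt (ω : X →ₗ[K] Dual K X) : Prop := ∀ ξ, ω ξ ξ = 0

/-- the space of all `ξ` with `F ξ = 0` and `ω ξ ∈ G` -/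
def Ksp (ω : X →ₗ[K] Dual K X) (F G : Submodule K (Dual K X)) : Submodule K X :=
  F.dualCoannihilator ⊓ G.comap ω

variable {L : Type*}

/-- the span of a line; `none` is the zero space -/
def ln (b c : L → Dual K X) : Option L → Submodule K (Dual K X)
  | none => ⊥
  | some l => Submodule.span K {b l, c l}

/-- the dimensions which the local search decreases -/
noncomputable def dimK (b c : L → Dual K X) (ω : X →ₗ[K] Dual K X) (i j k : Option L) : ℕ :=
  finrank K (Ksp ω (ln b c i) (ln b c j ⊔ ln b c k))

/-- no change of one coefficient decreases one of the dimensions -/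
def Stuck (b c : L → Dual K X) (ω : X →ₗ[K] Dual K X) : Prop :=
  ∀ (l : L) (t : K) (i j k : Option L),
    dimK b c ω i j k ≤ dimK b c (ω + t • wedge (b l) (c l)) i j k

/-- a matching: the vectors of the lines of `M` are linearly independent -/
def Matching (K : Type*) [Field K] {V : Type*} [AddCommGroup V] [Module K V] (b c : L → V)
    (M : Finset L) : Prop :=
  LinearIndependent K (fun q : M × Bool => if q.2 = true then b q.1 else c q.1)

/-- more than eight elements -/
def Big (K : Type*) : Prop := ∀ S : Finset K, S.card ≤ 8 → ∃ s, s ∉ S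

/-- normalised lines: `u l = ω (y l)` -/
structure Norm (ω : X →ₗ[K] Dual K X) (u v : L → Dual K X) (y : L → X) : Prop where
  alt : Alt ω
  two : (2 : K) ≠ 0
  big : Big K
  hy : ∀ l, ω (y l) = u l
  ind : ∀ l, LinearIndependent K ![u l, v l]
  stuck : Stuck u v ω

/-- lines of type one -/
def T1 (ω : X →ₗ[K] Dual K X) (v : L → Dual K X) (l : L) : Prop := ∃ w, ω w = 0 ∧ v l w ≠ 0

/-- adjacent lines -/
def Adj (ω : X →ₗ[K] Dual K X) (u v : L → Dual K X) (y : L → X) (l m : L) : Prop :=
  T1 ω v l ∧ T1 ω v m ∧ u m (y l) ≠ 0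

/-- the shear of the dual space belonging to `y, v, s` -/
def shear (y : X) (v : Dual K X) (s : K) : Dual K X →ₗ[K] Dual K X where
  toFun f := f - (s * f y) • v
  map_add' f g := by
    simp only [LinearMap.add_apply, mul_add, add_smul]
    abel
  map_smul' a f := by
    simp only [LinearMap.smul_apply, smul_eq_mul, RingHom.id_apply, smul_sub, smul_smul]
    congr 2
    ring

/-! ## Coordinates -/

variable {n : ℕ}

/-- the functional of a coordinate vector -/
def fn (a : Fin n → K) : Dual K (Fin n → K) := ∑ i, a i • LinearMap.proj i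

/-- the form of a list of coefficients -/
def form [Fintype L] (b c : L → Fin n → K) (x : L → K) : (Fin n → K) →ₗ[K] Dual K (Fin n → K) :=
  ∑ l, x l • wedge (fn (b l)) (fn (c l))

/-- its matrix -/
def Amat [Fintype L] (b c : L → Fin n → K) (x : L → K) : Matrix (Fin n) (Fin n) K :=
  Matrix.of fun r s => ∑ l, x l * (b l r * c l s - c l r * b l s)

/-- a coordinate of an optional vector -/
def oc (b : L → Fin n → K) : Option L → Fin n → K
  | none => 0
  | some l => b l

/-- the bordered matrix `[[A, b_j, c_j, b_k, c_k], [b_i, 0], [c_i, 0]]` -/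
def Pmat [Fintype L] (b c : L → Fin n → K) (x : L → K) (i j k : Option L) :
    Matrix (Fin n ⊕ Fin 2) (Fin n ⊕ Fin 4) K :=
  Matrix.fromBlocks (Amat b c x) (Matrix.of fun r => ![oc b j r, oc c j r, oc b k r, oc c k r])
    (Matrix.of ![oc b i, oc c i]) 0

end Pool.Agent.Lib.Parity
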