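import Pool.Agent.Lib.PolyTime
import Pool.Agent.Lib.PolyTime.Lists
import Pool.Agent.Lib.Parity.Defs

/-!
# Deterministic linear matroid parity by local search: the algorithm

Vectors are lists of natural numbers, read modulo the prime number `e + 1`; so `e` stands for `-1`.
-/

set_option autoImplicit false
set_option linter.unusedSectionVars false

namespace Pool.Agent.Lib.Parity

open Module

/-- the coordinate `i` of a list, zero beyond the end -/
def cell (v : List ℕ) (i : ℕ) : ℕ := v.getD i 0

/-- one step of Gaussian elimination modulo `e + 1` in the column `q`; `w` columns -/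
def gstep (e w : ℕ) (st : List (List ℕ) × ℕ) (q : ℕ) : List (List ℕ) × ℕ :=
  match (st.1.filter fun s => decide (cell s q % (e + 1) ≠ 0)).head? with
  | none => st
  | some r => (st.1.map fun s => (List.range w).map fun j =>
      (cell r q * cell s j + e * (cell s q * cell r j)) % (e + 1), st.2 + 1)

/-- the rank modulo `e + 1` of a list of rows -/
def gauss (e w : ℕ) (rows : List (List ℕ)) : ℕ :=
  ((List.range w).foldl (gstep e w) (rows, 0)).2

/-- first vector of the line `i` -/
def f1 (Ls : List (List ℕ × List ℕ)) (i : ℕ) : List ℕ := (Ls.getD i ([], [])).1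

/-- second vector of the line `i` -/
def f2 (Ls : List (List ℕ × List ℕ)) (i : ℕ) : List ℕ := (Ls.getD i ([], [])).2

/-- entry of the matrix `∑ x_l b_l ∧ c_l` -/
def aent (e : ℕ) (Ls : List (List ℕ × List ℕ)) (x : List ℕ) (r s : ℕ) : ℕ :=
  ((List.range Ls.length).map fun l => cell x l *
    (cell (f1 Ls l) r * cell (f2 Ls l) s + e * (cell (f2 Ls l) r * cell (f1 Ls l) s))).sum
    % (e + 1)

/-- the rows of the bordered matrix; an index beyond the end means no line -/
def rowsP (e N : ℕ) (Ls : List (List ℕ × List ℕ)) (x : List ℕ) (i j k : ℕ) : List (List ℕ) :=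
  ((List.range N).map fun r => ((List.range N).map fun s => aent e Ls x r s) ++
    [cell (f1 Ls j) r, cell (f2 Ls j) r, cell (f1 Ls k) r, cell (f2 Ls k) r]) ++
  [(List.range N).map fun s => cell (f1 Ls i) s, (List.range N).map fun s => cell (f2 Ls i) s]

/-- the potential -/
def potL (e N : ℕ) (Ls : List (List ℕ × List ℕ)) (x : List ℕ) : ℕ :=
  ((List.range (Ls.length + 1)).flatMap fun i => (List.range (Ls.length + 1)).flatMap fun j =>
    (List.range (Ls.length + 1)).map fun k => gauss e (N + 4) (rowsP e N Ls x i j k)).sum

/-- change of one coefficient -/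
def updL (m : ℕ) (x : List ℕ) (l t : ℕ) : List ℕ :=
  (List.range m).map fun q => if q = l then t else cell x q

/-- a better list of coefficients, if there is one -/
def better (e N : ℕ) (Ls : List (List ℕ × List ℕ)) (x : List ℕ) : Option (List ℕ) :=
  (((List.range Ls.length).flatMap fun l => (List.range (e + 1)).map fun t =>
    updL Ls.length x l t).filter fun x' => decide (potL e N Ls x < potL e N Ls x')).head?

/-- one step of the local search -/
def lstep (e N : ℕ) (Ls : List (List ℕ × List ℕ)) (x : List ℕ) : List ℕ :=
  match better e N Ls x with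
  | none => x
  | some x' => x'

/-- the local search -/
def search (e N : ℕ) (Ls : List (List ℕ × List ℕ)) : List ℕ :=
  (lstep e N Ls)^[(Ls.length + 1) * (Ls.length + 1) * (Ls.length + 1) * (N + 4) + 1]
    (List.replicate Ls.length 0)

/-- twice the matching number -/
def rankL (e N : ℕ) (Ls : List (List ℕ × List ℕ)) : ℕ :=
  gauss e N ((List.range N).map fun r => (List.range N).map fun s =>
    aent e Ls (search e N Ls) r s)

/-- the vectors of the lines modulo `p` -/
def vb (p N : ℕ) (Ls : List (List ℕ × List ℕ)) (l : Fin Ls.length) (i : Fin N) : ZMod p :=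
  (cell (f1 Ls l) i : ZMod p)

/-- the vectors of the lines modulo `p` -/
def vc (p N : ℕ) (Ls : List (List ℕ × List ℕ)) (l : Fin Ls.length) (i : Fin N) : ZMod p :=
  (cell (f2 Ls l) i : ZMod p)

/-- the coefficients modulo `p` -/
def vx (p m : ℕ) (x : List ℕ) (l : Fin m) : ZMod p := (cell x l : ZMod p)

/-- the line with the index `i` -/
def oi (m i : ℕ) : Option (Fin m) := if h : i < m then some ⟨i, h⟩ else none

/-! ### Prime numbers -/

/-- primality of `q` by trial division -/
def isPr (q : ℕ) : Bool :=
  decide (2 ≤ q) && (List.range q).all fun d => decide (d < 2) || decide (q % d ≠ 0)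

/-- some `e > n` such that `e + 1` is prime -/
def findE (n : ℕ) : ℕ :=
  match (((List.range (n + 3)).map fun i => n + i).filter fun e =>
    decide (n < e) && isPr (e + 1)).head? with
  | none => 0
  | some e => e

/-! ### The gadget -/

/-- a number of vertices -/
def nv (H : List (List ℕ × List ℕ)) : ℕ := (H.flatMap fun q => q.1 ++ q.2).sum + 1

/-- dimension of the space -/
def dimH (H : List (List ℕ × List ℕ)) : ℕ := nv H + 2 * H.length

/-- unit vector -/
def uvec (N i : ℕ) : List ℕ := (List.range N).map fun s => if s = i then 1 else 0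

/-- the vector `1_a - 1_b` -/
def evec (e N a b : ℕ) : List ℕ := (List.range N).map fun s => if s = a then 1 else
  if s = b then e else 0

/-- the pairs of different elements of a list -/
def prs (l : List ℕ) : List (ℕ × ℕ) :=
  l.flatMap fun a => (l.filter fun b => decide (a ≠ b)).map fun b => (a, b)

/-- the lines of the pair `u` of hyperedges -/
def gadU (e n N u : ℕ) (q : List ℕ × List ℕ) : List (List ℕ × List ℕ) :=
  (uvec N (n + 2 * u), uvec N (n + 2 * u + 1)) ::
    (((prs q.1).map fun ab => (evec e N ab.1 ab.2, uvec N (n + 2 * u))) ++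
    (prs q.2).map fun ab => (evec e N ab.1 ab.2, uvec N (n + 2 * u + 1)))

/-- the lines of the gadget -/
def gad (e : ℕ) (H : List (List ℕ × List ℕ)) : List (List ℕ × List ℕ) :=
  H.zipIdx.flatMap fun q => gadU e (nv H) (dimH H) q.2 q.1

/-- the number of lines of the gadget plus the dimension plus constants: bound for the prime -/
def bnd (N m : ℕ) : ℕ := (m + 1) * (m + 1) * (m + 1) * (N + 4) + m + 10

/-- the hyperedge `(i, false)` is the first, `(i, true)` the second of the pair `i` -/
def hyp (H : List (List ℕ × List ℕ)) (q : ℕ × Bool) : Finset ℕ :=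
  if q.2 = true then (f2 H q.1).toFinset else (f1 H q.1).toFinset

/-- the union of the pairs with index in `U` is independent in the hypergraphic matroid -/
def HInd (H : List (List ℕ × List ℕ)) (U : Finset ℕ) : Prop :=
  ∀ X : Finset (ℕ × Bool), X.Nonempty → (∀ q ∈ X, q.1 ∈ U) → X.card + 1 ≤ (X.biUnion (hyp H)).card

/-- half of a number -/
def half (n : ℕ) : ℕ := ((List.range n).filter fun q => decide (2 * q + 2 ≤ n)).length

/-- the maximum number of pairs of hyperedges whose union is independent -/
def nuAlg (H : List (List ℕ × List ℕ)) : ℕ :=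
  half (rankL (findE (bnd (dimH H) (gad 0 H).length)) (dimH H)
    (gad (findE (bnd (dimH H) (gad 0 H).length)) H)) - H.length

end Pool.Agent.Lib.Parity
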