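import Pool.Agent.Lib.Parity.Defs

/-!
# Parity library: bordered matrices (module BR)
-/

set_option autoImplicit false
set_option linter.unusedSectionVars false

namespace Pool.Agent.Lib.Parity

open Module

variable {K : Type*} [Field K] {L : Type*} {n : ℕ}

theorem br_fn_apply (a ξ : Fin n → K) : fn a ξ = ∑ r, a r * ξ r := by
  simp [fn, LinearMap.sum_apply]

theorem br_form_apply [Fintype L] (b c : L → Fin n → K) (x : L → K) (ξ η : Fin n → K) :
    form b c x ξ η = ∑ l, x l * (fn (b l) ξ * fn (c l) η - fn (c l) ξ * fn (b l) η) := by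
  simp [form, LinearMap.sum_apply, wedge]

theorem br_fn_injective (a : Fin n → K) (h : fn a = 0) : a = 0 := by
  funext r
  have := LinearMap.congr_fun h (Pi.single r 1)
  rw [br_fn_apply] at this
  simpa [Pi.single_apply] using this

theorem br_fn_mulVec [Fintype L] (b c : L → Fin n → K) (x : L → K) (ξ : Fin n → K) :
    fn ((Amat b c x).mulVec ξ) = - form b c x ξ := by
  apply LinearMap.ext
  intro η
  rw [br_fn_apply, LinearMap.neg_apply, br_form_apply]
  have h1 : ∀ r, (Amat b c x).mulVec ξ r = ∑ l, x l * (b l r * fn (c l) ξ - c l r * fn (b l) ξ) := by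
    intro r
    rw [Matrix.mulVec, dotProduct]
    simp only [Amat, Matrix.of_apply, br_fn_apply]
    simp only [Finset.sum_mul]
    rw [Finset.sum_comm]
    refine Finset.sum_congr rfl fun l _ => ?_
    rw [Finset.mul_sum, Finset.mul_sum, ← Finset.sum_sub_distrib, Finset.mul_sum]
    refine Finset.sum_congr rfl fun s _ => ?_
    ring
  simp only [h1, Finset.sum_mul]
  rw [Finset.sum_comm, ← Finset.sum_neg_distrib]
  refine Finset.sum_congr rfl fun l _ => ?_
  rw [br_fn_apply (c l) η, br_fn_apply (b l) η]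
  rw [Finset.mul_sum, Finset.mul_sum, ← Finset.sum_sub_distrib, Finset.mul_sum,
    ← Finset.sum_neg_distrib]
  refine Finset.sum_congr rfl fun s _ => ?_
  ring

theorem rank_Amat [Fintype L] (b c : L → Fin n → K) (x : L → K) :
    (Amat b c x).rank + finrank K (LinearMap.ker (form b c x)) = n := by
  have hk : LinearMap.ker (form b c x) = LinearMap.ker (Amat b c x).mulVecLin := by
    ext ξ
    rw [LinearMap.mem_ker, LinearMap.mem_ker, Matrix.mulVecLin_apply]
    constructor
    · intro h
      apply br_fn_injective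
      rw [br_fn_mulVec, h, neg_zero]
    · intro h
      have := br_fn_mulVec b c x ξ
      rw [h] at this
      have h0 : fn (0 : Fin n → K) = 0 := by
        apply LinearMap.ext
        intro η
        rw [br_fn_apply]
        simp
      rw [h0] at this
      exact neg_eq_zero.mp this.symm
  rw [hk, Matrix.rank]
  have := LinearMap.finrank_range_add_finrank_ker (Amat b c x).mulVecLin
  rw [this]
  simp

theorem br_fn_add (a a' : Fin n → K) : fn (a + a') = fn a + fn a' := by
  apply LinearMap.ext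
  intro ξ
  simp only [LinearMap.add_apply, br_fn_apply, Pi.add_apply, add_mul, Finset.sum_add_distrib]

theorem br_fn_smul (t : K) (a : Fin n → K) : fn (t • a) = t • fn a := by
  apply LinearMap.ext
  intro ξ
  simp only [LinearMap.smul_apply, br_fn_apply, Pi.smul_apply, smul_eq_mul, Finset.mul_sum, mul_assoc]

theorem br_mem_ln (b c : L → Fin n → K) (j : Option L) (f : Dual K (Fin n → K)) :
    f ∈ ln (fun l => fn (b l)) (fun l => fn (c l)) j ↔
      ∃ s t : K, f = s • fn (oc b j) + t • fn (oc c j) := by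
  cases j with
  | none =>
    have h0 : fn (0 : Fin n → K) = 0 := by
      apply LinearMap.ext
      intro η
      rw [br_fn_apply]
      simp
    simp only [ln, oc, h0, smul_zero, add_zero, exists_const, Submodule.mem_bot]
  | some l =>
    simp only [ln, oc, Submodule.mem_span_pair]
    constructor
    · rintro ⟨s, t, h⟩
      exact ⟨s, t, h.symm⟩
    · rintro ⟨s, t, h⟩
      exact ⟨s, t, h.symm⟩

theorem br_ann_ln (b c : L → Fin n → K) (i : Option L) (ξ : Fin n → K) :
    ξ ∈ (ln (fun l => fn (b l)) (fun l => fn (c l)) i).dualCoannihilator ↔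
      fn (oc b i) ξ = 0 ∧ fn (oc c i) ξ = 0 := by
  rw [Submodule.mem_dualCoannihilator]
  constructor
  · intro h
    refine ⟨h _ ((br_mem_ln b c i _).mpr ⟨1, 0, by simp⟩), h _ ((br_mem_ln b c i _).mpr ⟨0, 1, by simp⟩)⟩
  · rintro ⟨h1, h2⟩ f hf
    obtain ⟨s, t, rfl⟩ := (br_mem_ln b c i f).mp hf
    simp [h1, h2]

/-- the map of the last four columns -/
def brT4 (b c : L → Fin n → K) (j k : Option L) : (Fin 4 → K) →ₗ[K] Dual K (Fin n → K) where
  toFun w := w 0 • fn (oc b j) + w 1 • fn (oc c j) + w 2 • fn (oc b k) + w 3 • fn (oc c k)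
  map_add' w w' := by
    simp only [Pi.add_apply, add_smul]
    abel
  map_smul' t w := by
    simp only [Pi.smul_apply, smul_eq_mul, RingHom.id_apply, smul_add, smul_smul]

theorem br_range_T4 (b c : L → Fin n → K) (j k : Option L) :
    LinearMap.range (brT4 b c j k) = ln (fun l => fn (b l)) (fun l => fn (c l)) j ⊔
      ln (fun l => fn (b l)) (fun l => fn (c l)) k := by
  ext f
  rw [LinearMap.mem_range, Submodule.mem_sup]
  constructor
  · rintro ⟨w, rfl⟩
    refine ⟨_, (br_mem_ln b c j _).mpr ⟨w 0, w 1, rfl⟩, _, (br_mem_ln b c k _).mpr ⟨w 2, w 3, rfl⟩, ?_⟩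
    show _ = w 0 • fn (oc b j) + w 1 • fn (oc c j) + w 2 • fn (oc b k) + w 3 • fn (oc c k)
    abel
  · rintro ⟨f1, h1, f2, h2, rfl⟩
    obtain ⟨s, t, rfl⟩ := (br_mem_ln b c j f1).mp h1
    obtain ⟨s', t', rfl⟩ := (br_mem_ln b c k f2).mp h2
    refine ⟨![s, t, s', t'], ?_⟩
    show _ = _
    simp only [brT4, LinearMap.coe_mk, AddHom.coe_mk, Matrix.cons_val_zero, Matrix.cons_val_one]
    simp only [Matrix.cons_val]
    abel

theorem br_mem_ker_P [Fintype L] (b c : L → Fin n → K) (x : L → K) (i j k : Option L)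
    (z : Fin n ⊕ Fin 4 → K) :
    (Pmat b c x i j k).mulVec z = 0 ↔
      (z ∘ Sum.inl ∈ (ln (fun l => fn (b l)) (fun l => fn (c l)) i).dualCoannihilator ∧
        form b c x (z ∘ Sum.inl) = brT4 b c j k (z ∘ Sum.inr)) := by
  have h4 : fn ((Matrix.of fun r => ![oc b j r, oc c j r, oc b k r, oc c k r] :
      Matrix (Fin n) (Fin 4) K).mulVec (z ∘ Sum.inr)) = brT4 b c j k (z ∘ Sum.inr) := by
    apply LinearMap.ext
    intro η
    rw [br_fn_apply]
    simp only [brT4, LinearMap.coe_mk, AddHom.coe_mk, LinearMap.add_apply, LinearMap.smul_apply,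
      smul_eq_mul, br_fn_apply, Matrix.mulVec, dotProduct, Matrix.of_apply, Fin.sum_univ_four,
      Function.comp_apply, Finset.mul_sum, ← Finset.sum_add_distrib]
    refine Finset.sum_congr rfl fun r _ => ?_
    simp only [Matrix.cons_val]
    ring
  have h2 : (Matrix.of ![oc b i, oc c i] : Matrix (Fin 2) (Fin n) K).mulVec (z ∘ Sum.inl) =
      ![fn (oc b i) (z ∘ Sum.inl), fn (oc c i) (z ∘ Sum.inl)] := by
    funext r
    fin_cases r
    · simp [Matrix.mulVec, dotProduct, br_fn_apply]
    · simp [Matrix.mulVec, dotProduct, br_fn_apply]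
  rw [Pmat, Matrix.fromBlocks_mulVec, br_ann_ln]
  constructor
  · intro h
    have e1 : (Amat b c x).mulVec (z ∘ Sum.inl) + (Matrix.of fun r =>
        ![oc b j r, oc c j r, oc b k r, oc c k r] :
      Matrix (Fin n) (Fin 4) K).mulVec (z ∘ Sum.inr) = 0 := by
      funext r
      have := congrFun h (Sum.inl r)
      simpa using this
    have e2 : (Matrix.of ![oc b i, oc c i] : Matrix (Fin 2) (Fin n) K).mulVec (z ∘ Sum.inl) = 0 := by
      funext r
      have := congrFun h (Sum.inr r)
      simpa using this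
    rw [h2] at e2
    refine ⟨⟨by simpa using congrFun e2 0, by simpa using congrFun e2 1⟩, ?_⟩
    have e3 := congrArg fn e1
    rw [br_fn_add, br_fn_mulVec, h4] at e3
    have h0 : fn (0 : Fin n → K) = 0 := by
      apply LinearMap.ext
      intro η
      rw [br_fn_apply]
      simp
    rw [h0] at e3
    exact (neg_add_eq_zero.mp e3)
  · rintro ⟨⟨g1, g2⟩, g3⟩
    have e1 : (Amat b c x).mulVec (z ∘ Sum.inl) + (Matrix.of fun r =>
        ![oc b j r, oc c j r, oc b k r, oc c k r] :
      Matrix (Fin n) (Fin 4) K).mulVec (z ∘ Sum.inr) = 0 := by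
      apply br_fn_injective
      rw [br_fn_add, br_fn_mulVec, h4, g3, neg_add_cancel]
    rw [h2, g1, g2]
    funext r
    rcases r with r | r
    · simpa using congrFun e1 r
    · fin_cases r <;> simp

theorem rank_Pmat [Fintype L] (b c : L → Fin n → K) (x : L → K) (i j k : Option L) :
    (Pmat b c x i j k).rank +
      dimK (fun l => fn (b l)) (fun l => fn (c l)) (form b c x) i j k =
    n + finrank K ↥(ln (fun l => fn (b l)) (fun l => fn (c l)) j ⊔
      ln (fun l => fn (b l)) (fun l => fn (c l)) k) := by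
  classical
  set P := Pmat b c x i j k with hP
  have h1 := LinearMap.finrank_range_add_finrank_ker P.mulVecLin
  rw [Module.finrank_pi, Fintype.card_sum, Fintype.card_fin, Fintype.card_fin] at h1
  have h2 := LinearMap.finrank_range_add_finrank_ker (brT4 b c j k)
  rw [Module.finrank_pi, Fintype.card_fin, br_range_T4] at h2
  -- projection of the kernel
  let pr : (Fin n ⊕ Fin 4 → K) →ₗ[K] (Fin n → K) := LinearMap.funLeft K K Sum.inl
  let q : LinearMap.ker P.mulVecLin →ₗ[K] (Fin n → K) := pr.domRestrict _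
  have h3 := LinearMap.finrank_range_add_finrank_ker q
  have hr : LinearMap.range q = Ksp (form b c x) (ln (fun l => fn (b l)) (fun l => fn (c l)) i)
      (ln (fun l => fn (b l)) (fun l => fn (c l)) j ⊔
        ln (fun l => fn (b l)) (fun l => fn (c l)) k) := by
    ext ξ
    rw [LinearMap.mem_range, Ksp, Submodule.mem_inf, Submodule.mem_comap, ← br_range_T4,
      LinearMap.mem_range]
    constructor
    · rintro ⟨⟨z, hz⟩, rfl⟩
      rw [LinearMap.mem_ker, Matrix.mulVecLin_apply] at hz
      obtain ⟨g1, g2⟩ := (br_mem_ker_P b c x i j k z).mp hz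
      exact ⟨g1, _, g2.symm⟩
    · rintro ⟨g1, w, g2⟩
      refine ⟨⟨Sum.elim ξ w, ?_⟩, ?_⟩
      · rw [LinearMap.mem_ker, Matrix.mulVecLin_apply]
        exact (br_mem_ker_P b c x i j k _).mpr ⟨by simpa using g1, by simpa using g2.symm⟩
      · funext r
        rfl
  have hk : finrank K (LinearMap.ker q) = finrank K (LinearMap.ker (brT4 b c j k)) := by
    apply LinearEquiv.finrank_eq
    refine LinearEquiv.ofBijective
      ({ toFun := fun z => ⟨fun r => z.1.1 (Sum.inr r), ?_⟩
         map_add' := ?_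
         map_smul' := ?_ } : LinearMap.ker q →ₗ[K] LinearMap.ker (brT4 b c j k)) ⟨?_, ?_⟩
    · obtain ⟨⟨z, hz⟩, hz2⟩ := z
      rw [LinearMap.mem_ker, Matrix.mulVecLin_apply] at hz
      obtain ⟨g1, g2⟩ := (br_mem_ker_P b c x i j k z).mp hz
      rw [LinearMap.mem_ker] at hz2
      have hz3 : z ∘ Sum.inl = 0 := hz2
      rw [hz3, map_zero] at g2
      rw [LinearMap.mem_ker]
      exact g2.symm
    · intro z z'
      rfl
    · intro t z
      rfl
    · rintro ⟨⟨z, hz⟩, hz2⟩ ⟨⟨z', hz'⟩, hz2'⟩ h
      rw [LinearMap.mem_ker] at hz2 hz2'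
      have hz3 : z ∘ Sum.inl = 0 := hz2
      have hz3' : z' ∘ Sum.inl = 0 := hz2'
      have hz4 := congrArg Subtype.val h
      apply Subtype.ext
      apply Subtype.ext
      funext r
      rcases r with r | r
      · exact (congrFun hz3 r).trans (congrFun hz3' r).symm
      · exact congrFun hz4 r
    · rintro ⟨w, hw⟩
      rw [LinearMap.mem_ker] at hw
      refine ⟨⟨⟨Sum.elim 0 w, ?_⟩, ?_⟩, ?_⟩
      · rw [LinearMap.mem_ker, Matrix.mulVecLin_apply]
        refine (br_mem_ker_P b c x i j k _).mpr ⟨?_, ?_⟩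
        · have : (Sum.elim 0 w : Fin n ⊕ Fin 4 → K) ∘ Sum.inl = 0 := rfl
          rw [this]
          exact Submodule.zero_mem _
        · have h1 : (Sum.elim 0 w : Fin n ⊕ Fin 4 → K) ∘ Sum.inl = 0 := rfl
          have h2 : (Sum.elim 0 w : Fin n ⊕ Fin 4 → K) ∘ Sum.inr = w := rfl
          rw [h1, h2, hw, map_zero]
      · rw [LinearMap.mem_ker]
        rfl
      · rfl
  rw [dimK, ← hr, Matrix.rank]
  omega

end Pool.Agent.Lib.Parity
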