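import Pool.Agent.Lib.Parity.SHEAR

/-!
# Parity library: first condition
-/

set_option autoImplicit false
set_option linter.unusedSectionVars false

namespace Pool.Agent.Lib.Parity

open Module

variable {K : Type*} [Field K] {X : Type*} [AddCommGroup X] [Module K X] [FiniteDimensional K X]
variable {L : Type*}

/-- a functional vanishes on a subspace of codimension at most one -/
theorem cond_drop (S : Submodule K X) (f : Dual K X) :
    finrank K S ≤ finrank K ↥(S ⊓ LinearMap.ker f) + 1 := by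
  have h1 := LinearMap.finrank_range_add_finrank_ker (f.domRestrict S)
  have h2 : finrank K (LinearMap.range (f.domRestrict S)) ≤ 1 := by
    refine (Submodule.finrank_le _).trans ?_
    rw [Module.finrank_self]
  have h3 : finrank K (LinearMap.ker (f.domRestrict S)) = finrank K ↥(S ⊓ LinearMap.ker f) := by
    have h4 : (LinearMap.ker (f.domRestrict S)).map S.subtype = S ⊓ LinearMap.ker f := by
      ext x
      simp only [Submodule.mem_map, LinearMap.mem_ker, Submodule.mem_inf, Submodule.subtype_apply]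
      constructor
      · rintro ⟨a, ha, rfl⟩
        exact ⟨a.2, ha⟩
      · rintro ⟨hx, hfx⟩
        exact ⟨⟨x, hx⟩, hfx, rfl⟩
    rw [← h4]
    exact (Submodule.equivMapOfInjective S.subtype S.injective_subtype _).finrank_eq
  omega

theorem cond_drop_lt (S : Submodule K X) (f : Dual K X) (hx : ∃ x ∈ S, f x ≠ 0) :
    finrank K ↥(S ⊓ LinearMap.ker f) + 1 ≤ finrank K S := by
  have h : S ⊓ LinearMap.ker f < S := by
    refine lt_of_le_of_ne inf_le_left ?_
    intro he
    obtain ⟨x, hx, hfx⟩ := hx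
    rw [← he] at hx
    exact hfx hx.2
  exact Submodule.finrank_lt_finrank_of_lt h

/-- three bad values can be avoided -/
theorem cond_big (hK : Big K) (a b c d : K) : ∃ s : K, s ≠ a ∧ s ≠ b ∧ s ≠ c ∧ s ≠ d := by
  classical
  obtain ⟨s, hs⟩ := hK {a, b, c, d} (by
    refine (Finset.card_le_four).trans (by norm_num))
  simp only [Finset.mem_insert, Finset.mem_singleton, not_or] at hs
  exact ⟨s, hs.1, hs.2.1, hs.2.2.1, hs.2.2.2⟩

/-- a good parameter of the shear: `s ≠ 0`, `1 - s ρ ≠ 0` and `x - s y ≠ 0` if `x ≠ 0` -/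
theorem cond_param (hK : Big K) (ρ x y : K) (hx : x ≠ 0) :
    ∃ s : K, s ≠ 0 ∧ 1 - s * ρ ≠ 0 ∧ x - s * y ≠ 0 := by
  obtain ⟨s, h1, h2, h3, -⟩ := cond_big hK 0 ρ⁻¹ (x * y⁻¹) 0
  refine ⟨s, h1, ?_, ?_⟩
  · intro h
    by_cases hρ : ρ = 0
    · rw [hρ, mul_zero, sub_zero] at h
      exact one_ne_zero h
    · exact h2 (eq_inv_of_mul_eq_one_left (sub_eq_zero.mp h).symm)
  · intro h
    by_cases hy : y = 0
    · rw [hy, mul_zero, sub_zero] at h
      exact hx h
    · apply h3
      rw [sub_eq_zero.mp h, mul_assoc, mul_inv_cancel₀ hy, mul_one]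

/-- the first functional of a normalised line vanishes on the kernel -/
theorem cond_u {ω : X →ₗ[K] Dual K X} {u v : L → Dual K X} {y : L → X}
    (h : Norm ω u v y) (m : L) {w : X} (hw : ω w = 0) : u m w = 0 := by
  rw [← h.hy m, shear_swap h.alt, hw, LinearMap.zero_apply, neg_zero]

theorem cond_asymm {ω : X →ₗ[K] Dual K X} {u v : L → Dual K X} {y : L → X}
    (h : Norm ω u v y) (l m : L) : u m (y l) = - u l (y m) := by
  rw [← h.hy m, shear_swap h.alt, h.hy l]

theorem mem_Ksp_bot {ω : X →ₗ[K] Dual K X} {F : Submodule K (Dual K X)} {ξ : X} :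
    ξ ∈ Ksp ω F ⊥ ↔ (∀ f ∈ F, f ξ = 0) ∧ ω ξ = 0 := by
  rw [mem_Ksp, Submodule.mem_bot]

theorem ln_none_sup (u v : L → Dual K X) : ln u v none ⊔ ln u v none = ⊥ := by
  simp [ln]

theorem forall_mem_ln {u v : L → Dual K X} {m : L} {ξ : X} :
    (∀ f ∈ ln u v (some m), f ξ = 0) ↔ u m ξ = 0 ∧ v m ξ = 0 := by
  constructor
  · intro h
    exact ⟨h _ (Submodule.subset_span (by simp)), h _ (Submodule.subset_span (by simp))⟩
  · rintro ⟨h1, h2⟩ f hf
    change f ∈ Submodule.span K {u m, v m} at hf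
    rw [Submodule.mem_span_pair] at hf
    obtain ⟨a, b, rfl⟩ := hf
    simp [h1, h2]

theorem forall_mem_map_ln {u v : L → Dual K X} {m : L} {ξ : X} (φ : Dual K X →ₗ[K] Dual K X)
    (h : ∀ f ∈ (ln u v (some m)).map φ, f ξ = 0) : φ (u m) ξ = 0 ∧ φ (v m) ξ = 0 :=
  ⟨h _ (Submodule.mem_map_of_mem (Submodule.subset_span (by simp))),
    h _ (Submodule.mem_map_of_mem (Submodule.subset_span (by simp)))⟩

theorem adj_par {ω : X →ₗ[K] Dual K X} {u v : L → Dual K X} {y : L → X}
    (h : Norm ω u v y) {l m : L} (ha : Adj ω u v y l m) :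
    ∃ r : K, r ≠ 0 ∧ ∀ w, ω w = 0 → v m w = r * v l w := by
  obtain ⟨⟨w0, hw0, hv0⟩, ⟨w2, hw2, hv2⟩, ha⟩ := ha
  have key : ∀ w, ω w = 0 → v l w = 0 → v m w = 0 := by
    by_contra hcon
    push Not at hcon
    obtain ⟨w1, hw1, hl1, hm1⟩ := hcon
    obtain ⟨s, hs0, hs1, -⟩ := cond_param h.big (v l (y l)) 1 0 one_ne_zero
    have h1 := shear_stuck h l s hs1 (some m) none none
    unfold dimK at h1
    rw [ln_none_sup, Submodule.map_bot] at h1
    refine absurd h1 (not_le.mpr ?_)
    refine Submodule.finrank_lt_finrank_of_lt ?_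
    refine lt_of_le_of_ne ?_ ?_
    · intro ξ hξ
      obtain ⟨h2, h3⟩ := mem_Ksp_bot.mp hξ
      obtain ⟨h4, h5⟩ := forall_mem_map_ln _ h2
      rw [shear_apply, cond_u h m h3, zero_sub, neg_eq_zero] at h4
      have h6 : v l ξ = 0 := by
        rcases mul_eq_zero.mp h4 with h | h
        · rcases mul_eq_zero.mp h with h | h
          · exact absurd h hs0
          · exact absurd h ha
        · exact h
      rw [shear_apply, h6, mul_zero, sub_zero] at h5
      exact mem_Ksp_bot.mpr ⟨forall_mem_ln.mpr ⟨cond_u h m h3, h5⟩, h3⟩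
    · intro he
      set ξ : X := w0 - (v m w0 / v m w1) • w1 with hξ
      have h2 : ω ξ = 0 := by rw [hξ]; simp [hw0, hw1]
      have h3 : v m ξ = 0 := by
        rw [hξ, map_sub, map_smul, smul_eq_mul, div_mul_cancel₀ _ hm1, sub_self]
      have h4 : ξ ∈ Ksp ω (ln u v (some m)) ⊥ :=
        mem_Ksp_bot.mpr ⟨forall_mem_ln.mpr ⟨cond_u h m h2, h3⟩, h2⟩
      rw [← he] at h4
      obtain ⟨h5, h6⟩ := mem_Ksp_bot.mp h4
      obtain ⟨h7, h8⟩ := forall_mem_map_ln _ h5
      rw [shear_apply, cond_u h m h6, zero_sub, neg_eq_zero] at h7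
      have h9 : v l ξ = 0 := by
        rcases mul_eq_zero.mp h7 with h | h
        · rcases mul_eq_zero.mp h with h | h
          · exact absurd h hs0
          · exact absurd h ha
        · exact h
      rw [hξ, map_sub, map_smul, hl1, smul_zero, sub_zero] at h9
      exact hv0 h9
  have hr : ∀ w, ω w = 0 → v m w = v m w0 / v l w0 * v l w := by
    intro w hw
    have h1 : v m (w - (v l w / v l w0) • w0) = 0 := by
      apply key
      · simp [hw, hw0]
      · rw [map_sub, map_smul, smul_eq_mul, div_mul_cancel₀ _ hv0, sub_self]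
    rw [map_sub, map_smul, smul_eq_mul, sub_eq_zero] at h1
    rw [h1]
    field_simp
  refine ⟨v m w0 / v l w0, ?_, hr⟩
  intro h0
  apply hv2
  rw [hr w2 hw2, h0, zero_mul]

theorem type0_y {ω : X →ₗ[K] Dual K X} {u v : L → Dual K X} {y : L → X}
    (h : Norm ω u v y) {l m : L} (hl : T1 ω v l) (hm : ¬ T1 ω v m) :
    u m (y l) = 0 ∧ v m (y l) = 0 := by
  obtain ⟨w0, hw0, hv0⟩ := hl
  have hm' : ∀ w, ω w = 0 → v m w = 0 := by
    intro w hw
    by_contra hc
    exact hm ⟨w, hw, hc⟩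
  obtain ⟨s, hs0, hs1, -⟩ := cond_param h.big (v l (y l)) 1 0 one_ne_zero
  have h1 := shear_stuck h l s hs1 (some m) none none
  unfold dimK at h1
  rw [ln_none_sup, Submodule.map_bot] at h1
  have hle : Ksp ω ((ln u v (some m)).map (shear (y l) (v l) s)) ⊥ ≤
      Ksp ω (ln u v (some m)) ⊥ := by
    intro ξ hξ
    have h3 := (mem_Ksp_bot.mp hξ).2
    exact mem_Ksp_bot.mpr ⟨forall_mem_ln.mpr ⟨cond_u h m h3, hm' ξ h3⟩, h3⟩
  have heq := Submodule.eq_of_le_of_finrank_le hle h1
  have h4 : w0 ∈ Ksp ω (ln u v (some m)) ⊥ :=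
    mem_Ksp_bot.mpr ⟨forall_mem_ln.mpr ⟨cond_u h m hw0, hm' w0 hw0⟩, hw0⟩
  rw [← heq] at h4
  obtain ⟨h7, h8⟩ := forall_mem_map_ln _ (mem_Ksp_bot.mp h4).1
  rw [shear_apply, cond_u h m hw0, zero_sub, neg_eq_zero] at h7
  rw [shear_apply, hm' w0 hw0, zero_sub, neg_eq_zero] at h8
  constructor
  · rcases mul_eq_zero.mp h7 with h | h
    · rcases mul_eq_zero.mp h with h | h
      · exact absurd h hs0
      · exact h
    · exact absurd h hv0
  · rcases mul_eq_zero.mp h8 with h | h
    · rcases mul_eq_zero.mp h with h | h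
      · exact absurd h hs0
      · exact h
    · exact absurd h hv0

end Pool.Agent.Lib.Parity
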