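import Pool.Agent.Lib.Parity.COND1

/-!
# Parity library: second condition
-/

set_option autoImplicit false
set_option linter.unusedSectionVars false

namespace Pool.Agent.Lib.Parity

open Module

variable {K : Type*} [Field K] {X : Type*} [AddCommGroup X] [Module K X] [FiniteDimensional K X]
variable {L : Type*}

theorem cond_of_ker {ω : X →ₗ[K] Dual K X} (hω : Alt ω) {f : Dual K X}
    (hf : ∀ w, ω w = 0 → f w = 0) : ∃ y, ω y = f := by
  have hle : LinearMap.range ω ≤ (LinearMap.ker ω).dualAnnihilator := by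
    rintro _ ⟨y, rfl⟩
    rw [Submodule.mem_dualAnnihilator]
    intro w hw
    rw [LinearMap.mem_ker] at hw
    rw [shear_swap hω, hw, LinearMap.zero_apply, neg_zero]
  have h1 := LinearMap.finrank_range_add_finrank_ker ω
  have h2 := Subspace.finrank_add_finrank_dualAnnihilator_eq (LinearMap.ker ω)
  have heq := Submodule.eq_of_le_of_finrank_eq hle (by omega)
  have h3 : f ∈ (LinearMap.ker ω).dualAnnihilator := by
    rw [Submodule.mem_dualAnnihilator]
    exact hf
  rw [← heq] at h3
  exact h3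

theorem ln_sup_none (u v : L → Dual K X) (m : L) :
    ln u v (some m) ⊔ ln u v none = Submodule.span K {u m, v m} := by
  simp [ln]

/-- elements of the span of a normalised line of type one which vanish on the kernel -/
theorem cond_ln_ker {ω : X →ₗ[K] Dual K X} {u v : L → Dual K X} {y : L → X}
    (h : Norm ω u v y) {m : L} (hm : T1 ω v m) {ξ : X}
    (hξ : ω ξ ∈ Submodule.span K {u m, v m}) : ∃ α : K, ω (ξ - α • y m) = 0 := by
  obtain ⟨w, hw, hv⟩ := hm
  rw [Submodule.mem_span_pair] at hξ
  obtain ⟨a, b, hab⟩ := hξ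
  have h1 : ω ξ w = 0 := by rw [shear_swap h.alt, hw, LinearMap.zero_apply, neg_zero]
  rw [← hab] at h1
  simp only [LinearMap.add_apply, LinearMap.smul_apply, smul_eq_mul, cond_u h m hw, mul_zero,
    zero_add] at h1
  have hb : b = 0 := by
    rcases mul_eq_zero.mp h1 with h | h
    · exact h
    · exact absurd h hv
  refine ⟨a, ?_⟩
  rw [map_sub, map_smul, h.hy m, ← hab, hb, zero_smul, add_zero, sub_self]

/-- the combination of the sheared functionals which vanishes on the kernel -/
theorem cond_comb (y : X) (v um vm : Dual K X) (s r : K) :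
    (r - s * vm y) • shear y v s um + (s * um y) • shear y v s vm =
      (r - s * vm y) • um + (s * um y) • (vm - r • v) := by
  ext x
  simp only [LinearMap.add_apply, LinearMap.smul_apply, smul_eq_mul, shear_apply,
    LinearMap.sub_apply]
  ring

/-- if `ω ξ` is in the sheared line, then `ξ` is in the span of the kernel and `y'` -/
theorem cond_shear_ker {ω : X →ₗ[K] Dual K X} {u v : L → Dual K X} {y : L → X}
    (h : Norm ω u v y) {l m : L} (ha : Adj ω u v y l m) {r : K}
    (hr : ∀ w, ω w = 0 → v m w = r * v l w) {z : X} (hz : ω z = v m - r • v l) {s : K}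
    (hs : s ≠ 0) {ξ : X}
    (hξ : ω ξ ∈ (Submodule.span K {u m, v m}).map (shear (y l) (v l) s)) :
    ∃ τ : K, ω (ξ - τ • ((r - s * v m (y l)) • y m + (s * u m (y l)) • z)) = 0 := by
  obtain ⟨⟨w0, hw0, hv0⟩, -, ha⟩ := ha
  obtain ⟨f, hf, hfξ⟩ := hξ
  rw [SetLike.mem_coe, Submodule.mem_span_pair] at hf
  obtain ⟨a, b, rfl⟩ := hf
  have h1 : ω ξ w0 = 0 := by rw [shear_swap h.alt, hw0, LinearMap.zero_apply, neg_zero]
  rw [← hfξ, map_add, map_smul, map_smul] at h1
  simp only [LinearMap.add_apply, LinearMap.smul_apply, smul_eq_mul, shear_apply,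
    cond_u h m hw0, hr w0 hw0] at h1
  have h2 : (b * (r - s * v m (y l)) - a * (s * u m (y l))) * v l w0 = 0 := by
    linear_combination h1
  have h3 : b * (r - s * v m (y l)) = a * (s * u m (y l)) := by
    rcases mul_eq_zero.mp h2 with h | h
    · exact sub_eq_zero.mp h
    · exact absurd h hv0
  have hsa : s * u m (y l) ≠ 0 := mul_ne_zero hs ha
  refine ⟨b / (s * u m (y l)), ?_⟩
  have hy' : ω ((r - s * v m (y l)) • y m + (s * u m (y l)) • z) =
      (r - s * v m (y l)) • shear (y l) (v l) s (u m) +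
        (s * u m (y l)) • shear (y l) (v l) s (v m) := by
    rw [cond_comb, map_add, map_smul, map_smul, h.hy m, hz]
  rw [map_sub, map_smul, hy', ← hfξ, map_add, map_smul, map_smul, smul_add, smul_smul, smul_smul,
    div_mul_cancel₀ _ hsa]
  have h4 : b / (s * u m (y l)) * (r - s * v m (y l)) = a := by
    rw [div_mul_eq_mul_div, h3, mul_div_assoc, div_self hsa, mul_one]
  rw [h4, sub_self]

/-- the sheared functional of a line of type one does not vanish on the kernel -/
theorem cond_param' {ω : X →ₗ[K] Dual K X} {u v : L → Dual K X} {y : L → X}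
    (h : Norm ω u v y) (l : L) {l' : L} (hl' : T1 ω v l') :
    ∃ s : K, s ≠ 0 ∧ 1 - s * v l (y l) ≠ 0 ∧ ∃ w, ω w = 0 ∧ shear (y l) (v l) s (v l') w ≠ 0 := by
  obtain ⟨w1, hw1, hv1⟩ := hl'
  obtain ⟨s, hs0, hs1, hs2⟩ := cond_param h.big (v l (y l)) (v l' w1) (v l' (y l) * v l w1) hv1
  refine ⟨s, hs0, hs1, w1, hw1, ?_⟩
  rw [shear_apply, mul_assoc]
  exact hs2

theorem adj_far {ω : X →ₗ[K] Dual K X} {u v : L → Dual K X} {y : L → X}
    (h : Norm ω u v y) {l m l' : L} (ha : Adj ω u v y l m) (hl' : T1 ω v l')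
    (h1 : u l' (y l) = 0) (h2 : u l' (y m) = 0) {r : K} (hr : ∀ w, ω w = 0 → v m w = r * v l w) :
    v m (y l') = r * v l (y l') := by
  obtain ⟨z, hz⟩ : ∃ z, ω z = v m - r • v l := cond_of_ker h.alt (by
    intro w hw
    rw [LinearMap.sub_apply, LinearMap.smul_apply, smul_eq_mul, hr w hw, sub_self])
  obtain ⟨s, hs0, hs1, w1, hw1, hs2⟩ := cond_param' h l hl'
  by_contra hne
  have hz' : u l' z ≠ 0 := by
    intro h0
    apply hne
    rw [← h.hy l', shear_swap h.alt, hz, neg_eq_zero, LinearMap.sub_apply, LinearMap.smul_apply,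
      smul_eq_mul, sub_eq_zero] at h0
    exact h0
  have h3 := shear_stuck h l s hs1 (some l') (some m) none
  unfold dimK at h3
  rw [ln_sup_none] at h3
  -- before
  set W : Submodule K X := LinearMap.ker ω with hW
  have hym : y m ∉ W := by
    intro h0
    rw [hW, LinearMap.mem_ker, h.hy m] at h0
    exact ((h.ind m).ne_zero 0) (by simpa using h0)
  have hbefore : finrank K W ≤
      finrank K (Ksp ω (ln u v (some l')) (Submodule.span K {u m, v m})) := by
    have h4 : finrank K W + 1 ≤ finrank K ↥(W ⊔ Submodule.span K {y m}) := by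
      refine Submodule.finrank_lt_finrank_of_lt ?_
      refine lt_of_le_of_ne le_sup_left ?_
      intro he
      apply hym
      rw [he]
      exact Submodule.mem_sup_right (Submodule.mem_span_singleton_self _)
    have h5 := cond_drop (W ⊔ Submodule.span K {y m}) (v l')
    have h6 : (W ⊔ Submodule.span K {y m}) ⊓ LinearMap.ker (v l') ≤
        Ksp ω (ln u v (some l')) (Submodule.span K {u m, v m}) := by
      rintro ξ ⟨hξ1, hξ2⟩
      rw [SetLike.mem_coe, Submodule.mem_sup] at hξ1
      obtain ⟨w, hw, p, hp, rfl⟩ := hξ1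
      obtain ⟨α, rfl⟩ := Submodule.mem_span_singleton.mp hp
      rw [hW, LinearMap.mem_ker] at hw
      refine mem_Ksp.mpr ⟨forall_mem_ln.mpr ⟨?_, hξ2⟩, ?_⟩
      · rw [map_add, map_smul, h2, cond_u h l' hw, smul_zero, add_zero]
      · rw [map_add, hw, zero_add, map_smul, h.hy m]
        exact Submodule.smul_mem _ _ (Submodule.subset_span (by simp))
    have h7 := Submodule.finrank_mono h6
    omega
  have hafter : finrank K (Ksp ω ((ln u v (some l')).map (shear (y l) (v l) s))
      ((Submodule.span K {u m, v m}).map (shear (y l) (v l) s))) + 1 ≤ finrank K W := by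
    refine le_trans (Nat.add_le_add_right (Submodule.finrank_mono ?_) 1)
      (cond_drop_lt W (shear (y l) (v l) s (v l')) ⟨w1, by rw [hW, LinearMap.mem_ker]; exact hw1, hs2⟩)
    intro ξ hξ
    obtain ⟨h4, h5⟩ := mem_Ksp.mp hξ
    obtain ⟨h6, h7⟩ := forall_mem_map_ln _ h4
    obtain ⟨τ, hτ⟩ := cond_shear_ker h ha hr hz hs0 h5
    refine ⟨?_, h7⟩
    rw [shear_apply, h1, mul_zero, zero_mul, sub_zero] at h6
    have h8 := cond_u h l' hτ
    rw [map_sub, h6, zero_sub, neg_eq_zero, map_smul, map_add, map_smul, map_smul, h2, smul_zero,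
      zero_add, smul_eq_mul, smul_eq_mul] at h8
    have hτ0 : τ = 0 := by
      rcases mul_eq_zero.mp h8 with h | h
      · exact h
      · exact absurd h (mul_ne_zero (mul_ne_zero hs0 ha.2.2) hz')
    rw [hτ0, zero_smul, sub_zero] at hτ
    rw [SetLike.mem_coe, hW, LinearMap.mem_ker]
    exact hτ
  omega

theorem type0_z {ω : X →ₗ[K] Dual K X} {u v : L → Dual K X} {y : L → X}
    (h : Norm ω u v y) {l m m' : L} (ha : Adj ω u v y l m) (hm' : ¬ T1 ω v m') {r : K}
    (hr : ∀ w, ω w = 0 → v m w = r * v l w) {z : X} (hz : ω z = v m - r • v l) :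
    u m' z = 0 ∧ v m' z = 0 := by
  have hv0 : ∀ w, ω w = 0 → v m' w = 0 := by
    intro w hw
    by_contra hc
    exact hm' ⟨w, hw, hc⟩
  obtain ⟨hul, hvl⟩ := type0_y h ha.1 hm'
  obtain ⟨hum, hvm⟩ := type0_y h ha.2.1 hm'
  obtain ⟨s, hs0, hs1, -⟩ := cond_param h.big (v l (y l)) 1 0 one_ne_zero
  have h3 := shear_stuck h l s hs1 (some m') (some m) none
  unfold dimK at h3
  rw [ln_sup_none] at h3
  set W : Submodule K X := LinearMap.ker ω with hW
  have hym : y m ∉ W := by
    intro h0
    rw [hW, LinearMap.mem_ker, h.hy m] at h0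
    exact ((h.ind m).ne_zero 0) (by simpa using h0)
  have hbefore : finrank K W + 1 ≤
      finrank K (Ksp ω (ln u v (some m')) (Submodule.span K {u m, v m})) := by
    refine Submodule.finrank_lt_finrank_of_lt (lt_of_le_of_ne ?_ ?_)
    · intro w hw
      rw [hW, LinearMap.mem_ker] at hw
      refine mem_Ksp.mpr ⟨forall_mem_ln.mpr ⟨cond_u h m' hw, hv0 w hw⟩, ?_⟩
      rw [hw]
      exact Submodule.zero_mem _
    · intro he
      apply hym
      rw [he]
      refine mem_Ksp.mpr ⟨forall_mem_ln.mpr ⟨hum, hvm⟩, ?_⟩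
      rw [h.hy m]
      exact Submodule.subset_span (by simp)
  have hkey : ∀ ξ ∈ Ksp ω ((ln u v (some m')).map (shear (y l) (v l) s))
      ((Submodule.span K {u m, v m}).map (shear (y l) (v l) s)),
      u m' z ≠ 0 ∨ v m' z ≠ 0 → ξ ∈ W := by
    intro ξ hξ hne
    obtain ⟨h4, h5⟩ := mem_Ksp.mp hξ
    obtain ⟨h6, h7⟩ := forall_mem_map_ln _ h4
    obtain ⟨τ, hτ⟩ := cond_shear_ker h ha hr hz hs0 h5
    rw [shear_apply, hul, mul_zero, zero_mul, sub_zero] at h6
    rw [shear_apply, hvl, mul_zero, zero_mul, sub_zero] at h7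
    have h8 := cond_u h m' hτ
    have h9 := hv0 _ hτ
    rw [map_sub, h6, zero_sub, neg_eq_zero, map_smul, map_add, map_smul, map_smul, hum, smul_zero,
      zero_add, smul_eq_mul, smul_eq_mul] at h8
    rw [map_sub, h7, zero_sub, neg_eq_zero, map_smul, map_add, map_smul, map_smul, hvm, smul_zero,
      zero_add, smul_eq_mul, smul_eq_mul] at h9
    have hsa : s * u m (y l) ≠ 0 := mul_ne_zero hs0 ha.2.2
    have hτ0 : τ = 0 := by
      rcases hne with hne | hne
      · rcases mul_eq_zero.mp h8 with h | h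
        · exact h
        · exact absurd h (mul_ne_zero hsa hne)
      · rcases mul_eq_zero.mp h9 with h | h
        · exact h
        · exact absurd h (mul_ne_zero hsa hne)
    rw [hτ0, zero_smul, sub_zero] at hτ
    rw [hW, LinearMap.mem_ker]
    exact hτ
  by_contra hcon
  have hne : u m' z ≠ 0 ∨ v m' z ≠ 0 := by
    rw [← not_and_or]; exact hcon
  have hle : Ksp ω ((ln u v (some m')).map (shear (y l) (v l) s))
      ((Submodule.span K {u m, v m}).map (shear (y l) (v l) s)) ≤ W := fun ξ hξ => hkey ξ hξ hne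
  have := Submodule.finrank_mono hle
  omega

end Pool.Agent.Lib.Parity
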