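import Pool.Agent.Lib.Parity.COND2

/-!
# Parity library: third condition
-/

set_option autoImplicit false
set_option linter.unusedSectionVars false

namespace Pool.Agent.Lib.Parity

open Module

variable {K : Type*} [Field K] {X : Type*} [AddCommGroup X] [Module K X] [FiniteDimensional K X]
variable {L : Type*}

theorem mem_ln_sup {u v : L → Dual K X} {l m : L} {f : Dual K X} :
    f ∈ ln u v (some l) ⊔ ln u v (some m) ↔
      ∃ a b a' b' : K, f = (a • u l + b • v l) + (a' • u m + b' • v m) := by
  change f ∈ Submodule.span K {u l, v l} ⊔ Submodule.span K {u m, v m} ↔ _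
  rw [Submodule.mem_sup]
  constructor
  · rintro ⟨g, hg, g', hg', rfl⟩
    rw [Submodule.mem_span_pair] at hg hg'
    obtain ⟨a, b, rfl⟩ := hg
    obtain ⟨a', b', rfl⟩ := hg'
    exact ⟨a, b, a', b', rfl⟩
  · rintro ⟨a, b, a', b', rfl⟩
    exact ⟨_, Submodule.mem_span_pair.mpr ⟨a, b, rfl⟩, _, Submodule.mem_span_pair.mpr ⟨a', b', rfl⟩,
      rfl⟩

theorem adj_adj {ω : X →ₗ[K] Dual K X} {u v : L → Dual K X} {y : L → X}
    (h : Norm ω u v y) {l m l' m' : L} (ha : Adj ω u v y l m) (ha' : Adj ω u v y l' m')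
    (h1 : u l' (y l) = 0) (h2 : u l' (y m) = 0) (h3 : u m' (y l) = 0) (h4 : u m' (y m) = 0)
    {r r' : K} (hr : ∀ w, ω w = 0 → v m w = r * v l w)
    (hr' : ∀ w, ω w = 0 → v m' w = r' * v l' w)
    {z z' : X} (hz : ω z = v m - r • v l) (hz' : ω z' = v m' - r' • v l') :
    ω z z' = 0 := by
  -- consequences of the second condition
  have b1 : u l (y l') = 0 := by rw [cond_asymm h, h1, neg_zero]
  have b2 : u m (y l') = 0 := by rw [cond_asymm h, h2, neg_zero]
  have b3 : u l (y m') = 0 := by rw [cond_asymm h, h3, neg_zero]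
  have b4 : u m (y m') = 0 := by rw [cond_asymm h, h4, neg_zero]
  have c1 : v m (y l') = r * v l (y l') := adj_far h ha ha'.1 h1 h2 hr
  have c2 : v m (y m') = r * v l (y m') := adj_far h ha ha'.2.1 h3 h4 hr
  have c3 : v m' (y l) = r' * v l' (y l) := adj_far h ha' ha.1 b1 b3 hr'
  have c4 : v m' (y m) = r' * v l' (y m) := adj_far h ha' ha.2.1 b2 b4 hr'
  obtain ⟨s, hs0, hs1, w1, hw1, hs2⟩ := cond_param' h l ha'.1
  by_contra hne
  have h5 := shear_stuck h l s hs1 (some m) (some l') (some m')
  unfold dimK at h5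
  set Z : Submodule K X := (ln u v (some l') ⊔ ln u v (some m')).comap ω with hZ
  set W : Submodule K X := LinearMap.ker ω with hW
  have hWZ : W ≤ Z := by
    intro w hw
    rw [hW, LinearMap.mem_ker] at hw
    rw [hZ, Submodule.mem_comap, hw]
    exact Submodule.zero_mem _
  -- the elements of `Z`
  have hZs : ∀ ξ ∈ Z, ∃ a a' b : K, ω (ξ - (a • y l' + a' • y m' + b • z')) = 0 := by
    intro ξ hξ
    rw [hZ, Submodule.mem_comap, mem_ln_sup] at hξ
    obtain ⟨a, b, a', b', hab⟩ := hξ
    obtain ⟨w, hw, hv⟩ := ha'.1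
    have e1 : ω ξ w = 0 := by rw [shear_swap h.alt, hw, LinearMap.zero_apply, neg_zero]
    rw [hab] at e1
    simp only [LinearMap.add_apply, LinearMap.smul_apply, smul_eq_mul, cond_u h l' hw,
      cond_u h m' hw, hr' w hw, mul_zero, zero_add] at e1
    have e2 : (b + b' * r') * v l' w = 0 := by linear_combination e1
    have e3 : b = - (b' * r') := by
      rcases mul_eq_zero.mp e2 with h | h
      · exact eq_neg_of_add_eq_zero_left h
      · exact absurd h hv
    refine ⟨a, a', b', ?_⟩
    rw [map_sub, map_add, map_add, map_smul, map_smul, map_smul, h.hy, h.hy, hz', hab, e3]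
    ext x
    simp only [LinearMap.add_apply, LinearMap.smul_apply, smul_eq_mul, LinearMap.sub_apply,
      LinearMap.zero_apply]
    ring
  -- before
  have humz : u m z' = 0 := by
    rw [← h.hy m, shear_swap h.alt, hz', LinearMap.sub_apply, LinearMap.smul_apply, smul_eq_mul, c4,
      sub_self, neg_zero]
  have hbefore : finrank K Z ≤ finrank K (Ksp ω (ln u v (some m))
      (ln u v (some l') ⊔ ln u v (some m'))) + 1 := by
    refine (cond_drop Z (v m)).trans (Nat.add_le_add_right (Submodule.finrank_mono ?_) 1)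
    rintro ξ ⟨hξ1, hξ2⟩
    obtain ⟨a, a', b, hab⟩ := hZs ξ hξ1
    refine mem_Ksp.mpr ⟨forall_mem_ln.mpr ⟨?_, hξ2⟩, hξ1⟩
    have e1 := cond_u h m hab
    rw [map_sub, map_add, map_add, map_smul, map_smul, map_smul, b2, b4, humz] at e1
    simpa using e1
  -- after
  set u' : Dual K X := (r - s * v m (y l)) • u m + (s * u m (y l)) • (v m - r • v l) with hu'
  have hu'W : ∀ w ∈ W, u' w = 0 := by
    intro w hw
    rw [hW, LinearMap.mem_ker] at hw
    rw [hu']
    simp only [LinearMap.add_apply, LinearMap.smul_apply, smul_eq_mul, LinearMap.sub_apply,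
      cond_u h m hw, hr w hw, sub_self, mul_zero, add_zero]
  have hu'z : u' z' ≠ 0 := by
    have e1 : u' z' = s * u m (y l) * ω z z' := by
      rw [hu', hz]
      simp only [LinearMap.add_apply, LinearMap.smul_apply, smul_eq_mul, LinearMap.sub_apply, humz,
        mul_zero, zero_add]
    rw [e1]
    exact mul_ne_zero (mul_ne_zero hs0 ha.2.2) hne
  have hz'Z : z' ∈ Z := by
    rw [hZ, Submodule.mem_comap, hz', mem_ln_sup]
    refine ⟨0, -r', 0, 1, ?_⟩
    ext x
    simp only [LinearMap.add_apply, LinearMap.smul_apply, smul_eq_mul, LinearMap.sub_apply]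
    ring
  obtain ⟨w0, hw0, hv0⟩ := ha.1
  have hafter : finrank K (Ksp ω ((ln u v (some m)).map (shear (y l) (v l) s))
      ((ln u v (some l') ⊔ ln u v (some m')).map (shear (y l) (v l) s))) + 2 ≤ finrank K Z := by
    have e1 := cond_drop_lt Z u' ⟨z', hz'Z, hu'z⟩
    have e2 := cond_drop_lt (Z ⊓ LinearMap.ker u') (shear (y l) (v l) s (u m)) ⟨w0, by
      refine ⟨hWZ (by rw [hW, LinearMap.mem_ker]; exact hw0), ?_⟩
      exact hu'W w0 (by rw [hW, LinearMap.mem_ker]; exact hw0), by
      rw [shear_apply, cond_u h m hw0, zero_sub, neg_ne_zero]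
      exact mul_ne_zero (mul_ne_zero hs0 ha.2.2) hv0⟩
    have e3 : Ksp ω ((ln u v (some m)).map (shear (y l) (v l) s))
        ((ln u v (some l') ⊔ ln u v (some m')).map (shear (y l) (v l) s)) ≤
        (Z ⊓ LinearMap.ker u') ⊓ LinearMap.ker (shear (y l) (v l) s (u m)) := by
      intro ξ hξ
      obtain ⟨f1, f2⟩ := mem_Ksp.mp hξ
      obtain ⟨f3, f4⟩ := forall_mem_map_ln _ f1
      refine ⟨⟨?_, ?_⟩, f3⟩
      · obtain ⟨f, hf, hfξ⟩ := f2
        rw [SetLike.mem_coe, mem_ln_sup] at hf
        obtain ⟨a, b, a', b', rfl⟩ := hf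
        have g0 : ω ξ w1 = 0 := by rw [shear_swap h.alt, hw1, LinearMap.zero_apply, neg_zero]
        have g1 : ω ξ = (a • u l' + b • v l') + (a' • u m' + b' • v m') -
            (s * ((b + b' * r') * v l' (y l))) • v l := by
          rw [← hfξ]
          ext x
          simp only [LinearMap.add_apply, LinearMap.smul_apply, smul_eq_mul, LinearMap.sub_apply,
            shear_apply, h1, h3, c3]
          ring
        have g2 : (b + b' * r') * shear (y l) (v l) s (v l') w1 = 0 := by
          rw [g1] at g0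
          simp only [LinearMap.add_apply, LinearMap.smul_apply, smul_eq_mul, LinearMap.sub_apply,
            cond_u h l' hw1, cond_u h m' hw1, hr' w1 hw1] at g0
          rw [shear_apply]
          linear_combination g0
        have g3 : b + b' * r' = 0 := by
          rcases mul_eq_zero.mp g2 with h | h
          · exact h
          · exact absurd h hs2
        rw [g3, zero_mul, mul_zero, zero_smul, sub_zero] at g1
        rw [SetLike.mem_coe, hZ, Submodule.mem_comap, g1, mem_ln_sup]
        exact ⟨a, b, a', b', rfl⟩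
      · rw [SetLike.mem_coe, LinearMap.mem_ker, hu', ← cond_comb]
        simp only [LinearMap.add_apply, LinearMap.smul_apply, f3, f4, smul_zero, add_zero]
    have e4 := Submodule.finrank_mono e3
    omega
  omega

end Pool.Agent.Lib.Parity
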