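import Pool.Agent.Lib.Parity.EVEN

/-!
# Parity library: Lovász's dual bound
-/

set_option autoImplicit false
set_option linter.unusedSectionVars false

namespace Pool.Agent.Lib.Parity

open Module

variable {K : Type*} [Field K] {X : Type*} [AddCommGroup X] [Module K X] [FiniteDimensional K X]
variable {L : Type*}

/-- dimensions of independent subspaces add up to at most the dimension -/
theorem DUAL.sum_finrank_le {V : Type*} [AddCommGroup V] [Module K V] [FiniteDimensional K V]
    {κ : Type*} [Fintype κ] (P : κ → Submodule K V) (Q : Submodule K V) (hPQ : ∀ i, P i ≤ Q)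
    (hind : ∀ x : κ → V, (∀ i, x i ∈ P i) → ∑ i, x i = 0 → ∀ i, x i = 0) :
    ∑ i, finrank K (P i) ≤ finrank K Q := by
  classical
  let T : (∀ i, P i) →ₗ[K] Q :=
    LinearMap.codRestrict Q (∑ i, (P i).subtype ∘ₗ LinearMap.proj i) (by
      intro x
      rw [LinearMap.sum_apply]
      exact Submodule.sum_mem _ fun i _ => hPQ i (x i).2)
  have hT : Function.Injective T := by
    rw [injective_iff_map_eq_zero]
    intro x hx
    have h1 : ∑ i, (x i : V) = 0 := by
      have h2 := congrArg Subtype.val hx
      simpa [T, LinearMap.sum_apply] using h2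
    have h3 := hind (fun i => (x i : V)) (fun i => (x i).2) h1
    funext i
    exact Subtype.ext (h3 i)
  have h4 := LinearMap.finrank_le_finrank_of_injective hT
  rwa [Module.finrank_pi_fintype] at h4

theorem DUAL.finrank_map_add (ω : X →ₗ[K] Dual K X) (S : Submodule K X)
    (hW : LinearMap.ker ω ≤ S) :
    finrank K (S.map ω) + finrank K (LinearMap.ker ω) = finrank K S := by
  have h1 := LinearMap.finrank_range_add_finrank_ker (ω.domRestrict S)
  rw [LinearMap.range_domRestrict] at h1
  have h2 : (LinearMap.ker (ω.domRestrict S)).map S.subtype = LinearMap.ker ω := by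
    ext x
    simp only [Submodule.mem_map, LinearMap.mem_ker, LinearMap.domRestrict_apply,
      Submodule.subtype_apply]
    constructor
    · rintro ⟨y, hy, rfl⟩
      exact hy
    · intro hx
      exact ⟨⟨x, hW (LinearMap.mem_ker.mpr hx)⟩, hx, rfl⟩
  have h3 : finrank K (LinearMap.ker (ω.domRestrict S)) = finrank K (LinearMap.ker ω) := by
    rw [← h2]
    exact (LinearEquiv.finrank_eq (Submodule.equivMapOfInjective S.subtype
      (Submodule.injective_subtype S) _))
  omega

/-- a complement inside `Y` -/
theorem DUAL.exists_compl_in {V : Type*} [AddCommGroup V] [Module K V] [FiniteDimensional K V]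
    (Y Z : Submodule K V) (hZ : Z ≤ Y) : ∃ C : Submodule K V, C ≤ Y ∧ Disjoint Z C ∧
      finrank K C + finrank K Z = finrank K Y := by
  obtain ⟨C', hC'⟩ := Submodule.exists_isCompl Z
  refine ⟨C' ⊓ Y, inf_le_right, ?_, ?_⟩
  · exact hC'.disjoint.mono_right inf_le_left
  · have h1 : Z ⊔ C' ⊓ Y = Y := by
      rw [← sup_inf_assoc_of_le C' hZ, hC'.sup_eq_top, top_inf_eq]
    have h2 := Submodule.finrank_sup_add_finrank_inf_eq Z (C' ⊓ Y)
    have h3 : Z ⊓ (C' ⊓ Y) = ⊥ := by
      rw [← inf_assoc, hC'.inf_eq_bot, bot_inf_eq]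
    rw [h1, h3, finrank_bot] at h2
    omega

/-- the rank of the form on a subspace is even -/
theorem DUAL.even_sub {ω : X →ₗ[K] Dual K X} (hω : Alt ω) (h2 : (2 : K) ≠ 0)
    (Y Z : Submodule K X) (hZ : ∀ a, a ∈ Z ↔ a ∈ Y ∧ ∀ b ∈ Y, ω a b = 0) :
    Even (finrank K Y - finrank K Z) := by
  let ω' : Y →ₗ[K] Dual K Y := (Module.Dual.transpose (R := K) Y.subtype) ∘ₗ ω ∘ₗ Y.subtype
  have hω' : Alt ω' := by
    intro a
    exact hω (a : X)
  have h1 := even_rank h2 hω'
  have h3 : (LinearMap.ker ω').map Y.subtype = Z := by
    ext a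
    rw [hZ a]
    simp only [Submodule.mem_map, LinearMap.mem_ker, Submodule.subtype_apply]
    constructor
    · rintro ⟨y, hy, rfl⟩
      refine ⟨y.2, fun b hb => ?_⟩
      have h4 := congrArg (fun f : Dual K Y => f ⟨b, hb⟩) hy
      exact h4
    · rintro ⟨ha, hb⟩
      refine ⟨⟨a, ha⟩, ?_, rfl⟩
      ext ⟨b, hb'⟩
      exact hb b hb'
  have h4 : finrank K (LinearMap.ker ω') = finrank K Z := by
    rw [← h3]
    exact (LinearEquiv.finrank_eq (Submodule.equivMapOfInjective Y.subtype
      (Submodule.injective_subtype Y) _))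
  rwa [h4] at h1

/-- `κ`: classes of the lines which are not of type zero; `none`: the lines of type zero -/
theorem dual_bound {ι : Type*} [Finite ι] {ω : X →ₗ[K] Dual K X} (hω : Alt ω) (h2 : (2 : K) ≠ 0)
    (u v : L → Dual K X) (cl : L → Option ι) (Y : ι → Submodule K X) (e : ι → Dual K X)
    (hY : ∀ i j, i ≠ j → ∀ a ∈ Y i, ∀ a' ∈ Y j, ω a a' = 0)
    (hu : ∀ l i, cl l = some i → u l ∈ (Y i).map ω)
    (hv : ∀ l i, cl l = some i → ∃ r : K, v l - r • e i ∈ (Y i).map ω)
    (h0 : ∀ l, cl l = none → (∀ w, ω w = 0 → u l w = 0 ∧ v l w = 0) ∧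
      ∀ i, ∀ a ∈ Y i, u l a = 0 ∧ v l a = 0)
    {M : Finset L} (hM : Matching K u v M) :
    2 * M.card + finrank K (LinearMap.ker ω) ≤ finrank K X := by
  classical
  cases nonempty_fintype ι
  set W := LinearMap.ker ω with hW
  set D : Submodule K X := W ⊔ ⨆ i, Y i with hD
  -- the radical of `ω` on `D`
  let R : Submodule K X := D ⊓ (D.dualAnnihilator).comap ω
  have hRmem : ∀ a, a ∈ R ↔ a ∈ D ∧ ∀ d ∈ D, ω a d = 0 := by
    intro a
    simp only [R, Submodule.mem_inf, Submodule.mem_comap, Submodule.mem_dualAnnihilator]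
  have hWD : W ≤ D := le_sup_left
  have hYD : ∀ i, Y i ≤ D := fun i => le_sup_of_le_right (le_iSup Y i)
  have hWR : W ≤ R := by
    intro w hw
    rw [hRmem]
    refine ⟨hWD hw, fun d _ => ?_⟩
    rw [LinearMap.mem_ker.mp hw]
    rfl
  have hRD : R ≤ D := inf_le_left
  -- to vanish on `D`
  have hvan : ∀ f : Dual K X, (∀ w ∈ W, f w = 0) → (∀ i, ∀ a ∈ Y i, f a = 0) →
      ∀ d ∈ D, f d = 0 := by
    intro f hfW hfY
    have h3 : D ≤ LinearMap.ker f := by
      rw [hD]
      refine sup_le (fun w hw => LinearMap.mem_ker.mpr (hfW w hw)) (iSup_le fun i a ha => ?_)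
      exact LinearMap.mem_ker.mpr (hfY i a ha)
    intro d hd
    exact LinearMap.mem_ker.mp (h3 hd)
  have hωW : ∀ a, ∀ w ∈ W, ω a w = 0 := by
    intro a w hw
    rw [alt_swap hω, LinearMap.mem_ker.mp hw]
    simp
  -- the radical on `Y i`
  have hrad : ∀ i a, a ∈ Y i ⊓ R ↔ a ∈ Y i ∧ ∀ b ∈ Y i, ω a b = 0 := by
    intro i a
    rw [Submodule.mem_inf, hRmem]
    constructor
    · rintro ⟨h3, -, h5⟩
      exact ⟨h3, fun b hb => h5 b (hYD i hb)⟩
    · rintro ⟨h3, h4⟩
      refine ⟨h3, hYD i h3, hvan _ (fun w hw => hωW a w hw) ?_⟩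
      intro j b hb
      by_cases hij : i = j
      · subst hij
        exact h4 b hb
      · exact hY i j hij a h3 b hb
  let r : ι → ℕ := fun i => finrank K (Y i) - finrank K (Y i ⊓ R : Submodule K X)
  have hle : ∀ i, finrank K (Y i ⊓ R : Submodule K X) ≤ finrank K (Y i) := fun i =>
    Submodule.finrank_mono inf_le_left
  have hreven : ∀ i, Even (r i) := fun i => DUAL.even_sub hω h2 (Y i) (Y i ⊓ R) (hrad i)
  -- the sum of the `r i`
  have hsumr : ∑ i, r i + finrank K R ≤ finrank K D := by
    have hC : ∀ i, ∃ C : Submodule K X, C ≤ Y i ∧ Disjoint (Y i ⊓ R) C ∧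
        finrank K C + finrank K (Y i ⊓ R : Submodule K X) = finrank K (Y i) := fun i =>
      DUAL.exists_compl_in (Y i) (Y i ⊓ R) inf_le_left
    choose C hCY hCd hCf using hC
    have h3 := DUAL.sum_finrank_le (K := K) (κ := Option ι)
      (fun o => o.elim R C) D (by
        intro o
        cases o with
        | none => exact hRD
        | some i => exact (hCY i).trans (hYD i)) (by
        intro x hx hsum
        rw [Fintype.sum_option] at hsum
        have hx0 : x none ∈ R := hx none
        have hxi : ∀ i, x (some i) ∈ C i := fun i => hx (some i)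
        -- each `x (some i)` is in `R`
        have hxR : ∀ i, x (some i) = 0 := by
          intro i
          have h4 : x (some i) ∈ Y i ⊓ R := by
            rw [hrad]
            refine ⟨hCY i (hxi i), fun b hb => ?_⟩
            have h5 : ω (x none + ∑ j, x (some j)) b = 0 := by rw [hsum]; simp
            rw [map_add, map_sum, LinearMap.add_apply, LinearMap.sum_apply] at h5
            rw [((hRmem _).mp hx0).2 b (hYD i hb), zero_add] at h5
            rw [Finset.sum_eq_single i] at h5
            · exact h5
            · intro j _ hj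
              exact hY j i hj _ (hCY j (hxi j)) b hb
            · intro h; exact absurd (Finset.mem_univ i) h
          have h6 := hCd i
          rw [Submodule.disjoint_def] at h6
          exact h6 _ h4 (hxi i)
        intro o
        cases o with
        | none => simpa [hxR] using hsum
        | some i => exact hxR i)
    rw [Fintype.sum_option] at h3
    have h7 : ∀ i, finrank K (C i) = r i := by
      intro i
      have := hCf i
      simp only [r]
      omega
    have h8 : ∑ i, r i = ∑ i, finrank K (C i) := Finset.sum_congr rfl fun i _ => (h7 i).symm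
    rw [h8, add_comm]
    exact h3
  -- `Φ`
  let Φ : Submodule K (Dual K X) := R.map ω
  have hΦ : finrank K Φ + finrank K W = finrank K R := DUAL.finrank_map_add ω R hWR
  -- the family
  let f : M × Bool → Dual K X := fun q => if q.2 = true then u q.1 else v q.1
  have hf : LinearIndependent K f := hM
  let S : Option ι → Finset (M × Bool) := fun o => Finset.univ.filter fun q => cl q.1 = o
  let N : Option ι → Submodule K (Dual K X) := fun o => Submodule.span K (f '' (S o : Set _))
  have hN : ∀ o, finrank K (N o) = (S o).card := by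
    intro o
    have h3 : LinearIndependent K (fun q : (S o) => f q) := hf.comp _ Subtype.val_injective
    have h4 := finrank_span_eq_card h3
    rw [Fintype.card_coe] at h4
    rw [← h4]
    have h5 : f '' (S o : Set _) = Set.range (fun q : (S o) => f q) := by
      ext g
      simp only [Set.mem_image, Set.mem_range, Subtype.exists, Finset.mem_coe]
      constructor
      · rintro ⟨q, hq, rfl⟩
        exact ⟨q, hq, rfl⟩
      · rintro ⟨q, hq, rfl⟩
        exact ⟨q, hq, rfl⟩
    have h6 : N o = Submodule.span K (Set.range (fun q : (S o) => f q)) := by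
      simp only [N]
      rw [h5]
    exact LinearEquiv.finrank_eq (LinearEquiv.ofEq _ _ h6)
  have hcard : ∑ o, (S o).card = 2 * M.card := by
    have h3 := Finset.card_eq_sum_card_fiberwise (f := fun q : M × Bool => cl q.1)
      (s := Finset.univ) (t := Finset.univ) (fun q _ => Finset.mem_univ _)
    rw [← h3, Finset.card_univ, Fintype.card_prod, Fintype.card_coe, Fintype.card_bool]
    ring
  let df : Option ι → ℕ := fun o => finrank K (N o ⊓ Φ : Submodule K (Dual K X))
  have hdf : ∑ o, df o ≤ finrank K Φ := by
    refine DUAL.sum_finrank_le (K := K) (fun o => N o ⊓ Φ) Φ (fun o => inf_le_right) ?_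
    intro x hx hsum o
    have hdis : Disjoint (N o) (Submodule.span K (f '' {q | cl q.1 ≠ o})) := by
      refine hf.disjoint_span_image ?_
      rw [Set.disjoint_left]
      intro q hq hq'
      simp only [S, Finset.coe_filter, Finset.mem_univ, true_and] at hq
      exact hq' hq
    have h3 : x o = - ∑ o' ∈ Finset.univ.erase o, x o' := by
      have h4 := Finset.add_sum_erase Finset.univ x (Finset.mem_univ o)
      rw [hsum] at h4
      exact eq_neg_of_add_eq_zero_left h4
    have h5 : x o ∈ Submodule.span K (f '' {q | cl q.1 ≠ o}) := by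
      rw [h3]
      refine Submodule.neg_mem _ (Submodule.sum_mem _ fun o' ho' => ?_)
      have h6 : x o' ∈ N o' := (hx o').1
      refine Submodule.span_mono (Set.image_mono ?_) h6
      intro q hq
      simp only [S, Finset.coe_filter, Finset.mem_univ, true_and] at hq
      intro h7
      have h8 : cl q.1 = o' := hq
      rw [h8] at h7
      exact (Finset.ne_of_mem_erase ho') h7
    rw [Submodule.disjoint_def] at hdis
    exact hdis _ (hx o).1 h5
  -- membership of the lines
  have hNi : ∀ i, N (some i) ≤ Submodule.span K {e i} ⊔ (Y i).map ω := by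
    intro i
    refine Submodule.span_le.mpr ?_
    rintro g ⟨q, hq, rfl⟩
    simp only [S, Finset.coe_filter, Finset.mem_univ, true_and] at hq
    have hq' : cl q.1 = some i := hq
    by_cases hb : q.2 = true
    · simp only [f, hb, if_true]
      exact Submodule.mem_sup_right (hu _ i hq')
    · simp only [f, hb]
      obtain ⟨s, hs⟩ := hv _ i hq'
      have h3 : v q.1 = s • e i + (v q.1 - s • e i) := by abel
      have h4 : s • e i ∈ Submodule.span K {e i} ⊔ (Y i).map ω :=
        Submodule.mem_sup_left (Submodule.smul_mem _ _ (Submodule.mem_span_singleton_self _))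
      have h5 := Submodule.add_mem _ h4 (Submodule.mem_sup_right (S := Submodule.span K {e i}) hs)
      rw [← h3] at h5
      exact h5
  have hN0 : N none ⊔ Φ ≤ D.dualAnnihilator := by
    refine sup_le (Submodule.span_le.mpr ?_) ?_
    · rintro g ⟨q, hq, rfl⟩
      simp only [S, Finset.coe_filter, Finset.mem_univ, true_and] at hq
      have hq' : cl q.1 = none := hq
      obtain ⟨h3, h4⟩ := h0 _ hq'
      rw [SetLike.mem_coe, Submodule.mem_dualAnnihilator]
      by_cases hb : q.2 = true
      · simp only [f, hb, if_true]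
        exact hvan _ (fun w hw => (h3 w (LinearMap.mem_ker.mp hw)).1) fun i a ha => (h4 i a ha).1
      · simp only [f, hb]
        exact hvan _ (fun w hw => (h3 w (LinearMap.mem_ker.mp hw)).2) fun i a ha => (h4 i a ha).2
    · rintro g ⟨a, ha, rfl⟩
      rw [Submodule.mem_dualAnnihilator]
      exact ((hRmem a).mp ha).2
  -- the bounds
  have hbi : ∀ i, (S (some i)).card ≤ r i + 2 * df (some i) := by
    intro i
    have h3 := Submodule.finrank_sup_add_finrank_inf_eq (N (some i)) Φ
    have h4 : N (some i) ⊔ Φ ≤ Submodule.span K {e i} ⊔ (Y i ⊔ R).map ω := by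
      refine sup_le ((hNi i).trans ?_) ?_
      · exact sup_le_sup_left (Submodule.map_mono le_sup_left) _
      · exact le_sup_of_le_right (Submodule.map_mono le_sup_right)
    have h5 := Submodule.finrank_mono h4
    have h6 := Submodule.finrank_add_le_finrank_add_finrank (Submodule.span K {e i})
      ((Y i ⊔ R).map ω)
    have h7 : finrank K (Submodule.span K {e i}) ≤ 1 := by
      refine (finrank_span_le_card ({e i} : Set (Dual K X))).trans ?_
      simp
    have h8 := DUAL.finrank_map_add ω (Y i ⊔ R) (le_sup_of_le_right hWR)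
    rw [← hW] at h8
    have h9 := Submodule.finrank_sup_add_finrank_inf_eq (Y i) R
    have h10 := hN (some i)
    have h11 : finrank K (N (some i) ⊓ Φ : Submodule K (Dual K X)) = df (some i) := rfl
    have h12 : r i = finrank K (Y i) - finrank K (Y i ⊓ R : Submodule K X) := rfl
    have h13 := hle i
    have h14 : (S (some i)).card ≤ 1 + r i + df (some i) := by omega
    by_cases hz : df (some i) = 0
    · -- parity
      have h15 : Even (S (some i)).card := by
        have h16 : S (some i) = (Finset.univ.filter fun l : M => cl l = some i) ×ˢ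
            (Finset.univ : Finset Bool) := by
          ext q
          simp [S]
        rw [h16, Finset.card_product, Finset.card_univ, Fintype.card_bool]
        exact ⟨_, by ring⟩
      obtain ⟨p, hp⟩ := h15
      obtain ⟨p', hp'⟩ := hreven i
      omega
    · omega
  have hb0 : (S none).card + finrank K D + finrank K Φ ≤ finrank K X + df none := by
    have h3 := Submodule.finrank_sup_add_finrank_inf_eq (N none) Φ
    have h4 := Submodule.finrank_mono hN0
    have h5 := Subspace.finrank_add_finrank_dualAnnihilator_eq D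
    have h6 := hN none
    have h7 : finrank K (N none ⊓ Φ : Submodule K (Dual K X)) = df none := rfl
    omega
  have hsum2 : ∑ i, (S (some i)).card ≤ ∑ i, r i + 2 * ∑ i, df (some i) := by
    rw [Finset.mul_sum, ← Finset.sum_add_distrib]
    exact Finset.sum_le_sum fun i _ => hbi i
  rw [Fintype.sum_option] at hcard hdf
  have hDX : finrank K D ≤ finrank K X := Submodule.finrank_le D
  omega

end Pool.Agent.Lib.Parity
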