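import Pool.Agent.Lib.Parity.Defs

/-!
# Parity library: the rank of an alternating form is even
-/

set_option autoImplicit false
set_option linter.unusedSectionVars false

namespace Pool.Agent.Lib.Parity

open Module

variable {K : Type*} [Field K] {X : Type*} [AddCommGroup X] [Module K X] [FiniteDimensional K X]
variable {L : Type*}

theorem alt_swap {ω : X →ₗ[K] Dual K X} (hω : Alt ω) (ξ η : X) : ω ξ η = - ω η ξ := by
  have h := hω (ξ + η)
  simp only [map_add, LinearMap.add_apply, hω ξ, hω η] at h
  linear_combination h

/-- the range of an alternating form is the annihilator of its kernel -/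
theorem exists_of_ker {ω : X →ₗ[K] Dual K X} (hω : Alt ω) {f : Dual K X}
    (hf : ∀ w, ω w = 0 → f w = 0) : ∃ y, ω y = f := by
  have hle : LinearMap.range ω ≤ (LinearMap.ker ω).dualAnnihilator := by
    rintro _ ⟨y, rfl⟩
    rw [Submodule.mem_dualAnnihilator]
    intro w hw
    rw [LinearMap.mem_ker] at hw
    rw [alt_swap hω, hw]
    simp
  have heq : LinearMap.range ω = (LinearMap.ker ω).dualAnnihilator := by
    apply Submodule.eq_of_le_of_finrank_eq hle
    have h1 := LinearMap.finrank_range_add_finrank_ker ω
    have h2 := Subspace.finrank_add_finrank_dualAnnihilator_eq (LinearMap.ker ω)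
    omega
  have hmem : f ∈ LinearMap.range ω := by
    rw [heq, Submodule.mem_dualAnnihilator]
    intro w hw
    exact hf w (LinearMap.mem_ker.mp hw)
  exact hmem

/-- the rank of an alternating form is even -/
theorem even_rank (h2 : (2 : K) ≠ 0) {ω : X →ₗ[K] Dual K X} (hω : Alt ω) :
    Even (finrank K X - finrank K (LinearMap.ker ω)) := by
  obtain ⟨C, hC⟩ := Submodule.exists_isCompl (LinearMap.ker ω)
  have hdim := Submodule.finrank_add_eq_of_isCompl hC
  have hCd : finrank K X - finrank K (LinearMap.ker ω) = finrank K C := by omega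
  rw [hCd]
  set m := finrank K C with hm
  let b := Module.finBasis K C
  by_contra hodd
  rw [Nat.not_even_iff_odd] at hodd
  let A : Matrix (Fin m) (Fin m) K := Matrix.of fun i j => ω (b i : X) (b j : X)
  have hAt : A.transpose = -A := by
    ext i j
    simp only [Matrix.transpose_apply, Matrix.neg_apply, A, Matrix.of_apply]
    exact alt_swap hω _ _
  have hdet : A.det = 0 := by
    have h3 : A.det = (-1) ^ m * A.det := by
      conv_lhs => rw [← Matrix.det_transpose, hAt, Matrix.det_neg, Fintype.card_fin]
    rw [hodd.neg_one_pow] at h3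
    have h4 : (2 : K) * A.det = 0 := by linear_combination h3
    exact (mul_eq_zero.mp h4).resolve_left h2
  obtain ⟨x, hx0, hx⟩ := Matrix.exists_vecMul_eq_zero_iff.mpr hdet
  -- the vector ∑ x i b i is in the kernel
  set c : X := ∑ i, x i • (b i : X) with hc
  have hcC : c ∈ C := by
    refine Submodule.sum_mem _ fun i _ => Submodule.smul_mem _ _ (b i).2
  have hck : ω c = 0 := by
    ext y
    have hy : y ∈ LinearMap.ker ω ⊔ C := by rw [hC.sup_eq_top]; trivial
    obtain ⟨w, hw, z, hz, rfl⟩ := Submodule.mem_sup.mp hy
    rw [map_add]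
    have h5 : ω c w = 0 := by
      rw [alt_swap hω, LinearMap.mem_ker.mp hw]; simp
    have h6 : ω c z = 0 := by
      have hz' : z = ∑ j, (b.repr ⟨z, hz⟩ j) • (b j : X) := by
        calc z = ((∑ j, (b.repr ⟨z, hz⟩) j • b j : C) : X) := by rw [b.sum_repr]
          _ = _ := by
            rw [AddSubmonoidClass.coe_finsetSum]
            rfl
      rw [hz', map_sum]
      apply Finset.sum_eq_zero
      intro j _
      rw [map_smul, hc, map_sum, LinearMap.sum_apply]
      have h9 := congrFun hx j
      simp only [Matrix.vecMul, dotProduct, A, Matrix.of_apply, Pi.zero_apply] at h9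
      simp only [map_smul, LinearMap.smul_apply, smul_eq_mul]
      rw [h9, mul_zero]
    rw [h5, h6]
    simp
  have hc0 : c = 0 := by
    have := hC.disjoint
    rw [Submodule.disjoint_def] at this
    exact this c (LinearMap.mem_ker.mpr hck) hcC
  apply hx0
  have h10 : ∑ i, x i • b i = 0 := by
    apply Subtype.ext
    simpa [hc] using hc0
  have h11 := (Fintype.linearIndependent_iff.mp b.linearIndependent) x h10
  funext i
  exact h11 i

end Pool.Agent.Lib.Parity
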