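import Pool.Agent.Lib.Parity.AlgDefs

/-!
# Parity library: correctness of the elimination (module GAUSS)
-/

set_option autoImplicit false
set_option linter.unusedSectionVars false

namespace Pool.Agent.Lib.Parity

open Module

/-- the vector modulo `e + 1` of a list of numbers -/
def gaVec (e w : ℕ) (s : List ℕ) : Fin w → ZMod (e + 1) := fun j => ((cell s j : ℕ) : ZMod (e + 1))

/-- the row space -/
def gaSp (e w : ℕ) (rows : List (List ℕ)) : Submodule (ZMod (e + 1)) (Fin w → ZMod (e + 1)) :=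
  Submodule.span (ZMod (e + 1)) {v | ∃ s ∈ rows, gaVec e w s = v}

theorem ga_cell_map (w : ℕ) (f : ℕ → ℕ) (j : ℕ) (hj : j < w) :
    cell ((List.range w).map f) j = f j := by
  unfold cell
  rw [List.getD_eq_getElem?_getD, List.getElem?_map, List.getElem?_range hj]
  rfl

theorem ga_e (e : ℕ) : ((e : ℕ) : ZMod (e + 1)) = -1 := by
  have h : ((e + 1 : ℕ) : ZMod (e + 1)) = 0 := ZMod.natCast_self (e + 1)
  push_cast at h
  exact eq_neg_of_add_eq_zero_left h

/-- the linear map of an elimination step -/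
def gaMap (e w : ℕ) (r : Fin w → ZMod (e + 1)) (q : Fin w) :
    (Fin w → ZMod (e + 1)) →ₗ[ZMod (e + 1)] (Fin w → ZMod (e + 1)) where
  toFun v := r q • v - v q • r
  map_add' v v' := by
    funext j
    simp only [Pi.add_apply, Pi.sub_apply, Pi.smul_apply, smul_eq_mul]
    ring
  map_smul' t v := by
    funext j
    simp only [Pi.sub_apply, Pi.smul_apply, smul_eq_mul, RingHom.id_apply]
    ring

theorem gaMap_vec (e w : ℕ) (r s : List ℕ) (q : Fin w) :
    gaVec e w ((List.range w).map fun j =>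
      (cell r q * cell s j + e * (cell s q * cell r j)) % (e + 1)) =
      gaMap e w (gaVec e w r) q (gaVec e w s) := by
  funext j
  show ((cell _ (j : ℕ) : ℕ) : ZMod (e + 1)) = _
  rw [ga_cell_map w _ j j.2, ZMod.natCast_mod]
  push_cast
  rw [ga_e]
  show _ = gaVec e w r q * gaVec e w s j - gaVec e w s q * gaVec e w r j
  unfold gaVec
  ring

theorem gaSp_map (e w : ℕ) (rows : List (List ℕ)) (r : List ℕ) (q : Fin w) :
    gaSp e w (rows.map fun s => (List.range w).map fun j =>
      (cell r q * cell s j + e * (cell s q * cell r j)) % (e + 1)) =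
      (gaSp e w rows).map (gaMap e w (gaVec e w r) q) := by
  unfold gaSp
  rw [Submodule.map_span]
  congr 1
  ext v
  constructor
  · rintro ⟨s', hs', rfl⟩
    obtain ⟨s, hs, rfl⟩ := List.mem_map.mp hs'
    exact ⟨gaVec e w s, ⟨s, hs, rfl⟩, (gaMap_vec e w r s q).symm⟩
  · rintro ⟨v', ⟨s, hs, rfl⟩, rfl⟩
    exact ⟨_, List.mem_map.mpr ⟨s, hs, rfl⟩, gaMap_vec e w r s q⟩

theorem gaSp_drop {e : ℕ} [Fact (e + 1).Prime] (w : ℕ) (rows : List (List ℕ)) (r : List ℕ)
    (q : Fin w) (hr : r ∈ rows) (hq : gaVec e w r q ≠ 0) :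
    finrank (ZMod (e + 1)) (gaSp e w rows) =
      finrank (ZMod (e + 1)) ((gaSp e w rows).map (gaMap e w (gaVec e w r) q)) + 1 := by
  set φ := gaMap e w (gaVec e w r) q with hφ
  set V := gaSp e w rows with hV
  have h1 := LinearMap.finrank_range_add_finrank_ker (φ.domRestrict V)
  have h2 : LinearMap.range (φ.domRestrict V) = V.map φ := by
    rw [LinearMap.domRestrict, LinearMap.range_comp, Submodule.range_subtype]
  have hrV : gaVec e w r ∈ V := Submodule.subset_span ⟨r, hr, rfl⟩
  have h3 : finrank (ZMod (e + 1)) (LinearMap.ker (φ.domRestrict V)) = 1 := by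
    rw [finrank_eq_one_iff']
    refine ⟨⟨⟨gaVec e w r, hrV⟩, ?_⟩, ?_, ?_⟩
    · rw [LinearMap.mem_ker]
      show gaVec e w r q • gaVec e w r - gaVec e w r q • gaVec e w r = 0
      rw [sub_self]
    · intro h
      have h' := congrArg Subtype.val (congrArg Subtype.val h)
      apply hq
      have := congrFun h' q
      exact this
    · rintro ⟨⟨v, hv⟩, hv2⟩
      rw [LinearMap.mem_ker] at hv2
      have hv3 : gaVec e w r q • v - v q • gaVec e w r = 0 := hv2
      refine ⟨(gaVec e w r q)⁻¹ * v q, ?_⟩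
      apply Subtype.ext
      apply Subtype.ext
      show ((gaVec e w r q)⁻¹ * v q) • gaVec e w r = v
      rw [mul_smul, ← sub_eq_zero.mp hv3, smul_smul, inv_mul_cancel₀ hq, one_smul]
  rw [h2, h3] at h1
  exact h1.symm

theorem ga_step {e : ℕ} [Fact (e + 1).Prime] (w : ℕ) (st : List (List ℕ) × ℕ) (q : ℕ)
    (hq : q < w)
    (h0 : ∀ s ∈ st.1, ∀ j : Fin w, (j : ℕ) < q → gaVec e w s j = 0) :
    (gstep e w st q).2 + finrank (ZMod (e + 1)) (gaSp e w (gstep e w st q).1) =
      st.2 + finrank (ZMod (e + 1)) (gaSp e w st.1) ∧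
    ∀ s ∈ (gstep e w st q).1, ∀ j : Fin w, (j : ℕ) < q + 1 → gaVec e w s j = 0 := by
  unfold gstep
  split
  · rename_i heq
    rw [List.head?_eq_none_iff, List.filter_eq_nil_iff] at heq
    refine ⟨rfl, ?_⟩
    intro s hs j hj
    rcases Nat.lt_succ_iff_lt_or_eq.mp hj with hj | hj
    · exact h0 s hs j hj
    · have := heq s hs
      simp only [ne_eq, decide_eq_true_eq, not_not] at this
      show ((cell s j : ℕ) : ZMod (e + 1)) = 0
      rw [hj, ZMod.natCast_eq_zero_iff]
      exact Nat.dvd_of_mod_eq_zero this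
  · rename_i r heq
    have hmem := List.mem_of_head? heq
    rw [List.mem_filter] at hmem
    obtain ⟨hr, hrq⟩ := hmem
    have hrq' : gaVec e w r ⟨q, hq⟩ ≠ 0 := by
      intro h
      have h' : ((cell r q : ℕ) : ZMod (e + 1)) = 0 := h
      rw [ZMod.natCast_eq_zero_iff] at h'
      simp only [ne_eq, decide_eq_true_eq] at hrq
      exact hrq (Nat.mod_eq_zero_of_dvd h')
    have hsp := gaSp_map e w st.1 r ⟨q, hq⟩
    have hdr := gaSp_drop w st.1 r ⟨q, hq⟩ hr hrq'
    refine ⟨?_, ?_⟩
    · show st.2 + 1 + finrank (ZMod (e + 1)) (gaSp e w (st.1.map fun s => (List.range w).map fun j =>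
        (cell r q * cell s j + e * (cell s q * cell r j)) % (e + 1))) = _
      have hsp' : gaSp e w (st.1.map fun s => (List.range w).map fun j =>
        (cell r q * cell s j + e * (cell s q * cell r j)) % (e + 1)) =
        (gaSp e w st.1).map (gaMap e w (gaVec e w r) ⟨q, hq⟩) := hsp
      rw [hsp', hdr]
      ring
    · intro s' hs' j hj
      obtain ⟨s, hs, rfl⟩ := List.mem_map.mp hs'
      have hv : gaVec e w ((List.range w).map fun j =>
        (cell r q * cell s j + e * (cell s q * cell r j)) % (e + 1)) =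
        gaMap e w (gaVec e w r) ⟨q, hq⟩ (gaVec e w s) := gaMap_vec e w r s ⟨q, hq⟩
      rw [hv]
      show gaVec e w r ⟨q, hq⟩ * gaVec e w s j - gaVec e w s ⟨q, hq⟩ * gaVec e w r j = 0
      rcases Nat.lt_succ_iff_lt_or_eq.mp hj with hj | hj
      · rw [h0 s hs j hj, h0 r hr j hj]
        ring
      · have : j = ⟨q, hq⟩ := Fin.ext hj
        rw [this]
        ring

theorem ga_loop {e : ℕ} [Fact (e + 1).Prime] (w : ℕ) (rows : List (List ℕ)) (k : ℕ) (hk : k ≤ w) :
    ((List.range k).foldl (gstep e w) (rows, 0)).2 +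
      finrank (ZMod (e + 1)) (gaSp e w ((List.range k).foldl (gstep e w) (rows, 0)).1) =
      finrank (ZMod (e + 1)) (gaSp e w rows) ∧
    ∀ s ∈ ((List.range k).foldl (gstep e w) (rows, 0)).1, ∀ j : Fin w, (j : ℕ) < k →
      gaVec e w s j = 0 := by
  induction k with
  | zero =>
    refine ⟨?_, fun s hs j hj => absurd hj (Nat.not_lt_zero _)⟩
    show 0 + _ = _
    rw [Nat.zero_add]
    rfl
  | succ k ih =>
    obtain ⟨ih1, ih2⟩ := ih (by omega)
    rw [List.range_succ, List.foldl_append, List.foldl_cons, List.foldl_nil]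
    obtain ⟨h1, h2⟩ := ga_step w ((List.range k).foldl (gstep e w) (rows, 0)) k (by omega) ih2
    exact ⟨h1.trans ih1, h2⟩

/-- elimination computes the dimension of the row space -/
theorem gauss_eq_finrank {e : ℕ} [Fact (e + 1).Prime] (w : ℕ) (rows : List (List ℕ)) :
    gauss e w rows = finrank (ZMod (e + 1)) (gaSp e w rows) := by
  obtain ⟨h1, h2⟩ := ga_loop (e := e) w rows w le_rfl
  have h3 : gaSp e w ((List.range w).foldl (gstep e w) (rows, 0)).1 = ⊥ := by
    unfold gaSp
    rw [Submodule.span_eq_bot]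
    rintro v ⟨s, hs, rfl⟩
    funext j
    exact h2 s hs j j.2
  rw [h3, finrank_bot, add_zero] at h1
  exact h1

theorem gauss_eq {e : ℕ} [Fact (e + 1).Prime] (w : ℕ) (rows : List (List ℕ)) :
    gauss e w rows = (Matrix.of fun (i : Fin rows.length) (j : Fin w) =>
      ((cell (rows.getD i []) j : ℕ) : ZMod (e + 1))).rank := by
  have hsub : gaSp e w rows = Submodule.span (ZMod (e + 1))
      (Set.range (Matrix.of fun (i : Fin rows.length) (j : Fin w) =>
      ((cell (rows.getD i []) j : ℕ) : ZMod (e + 1))).row) := by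
    unfold gaSp
    congr 1
    ext v
    constructor
    · rintro ⟨s, hs, rfl⟩
      obtain ⟨i, hi, rfl⟩ := List.getElem_of_mem hs
      refine ⟨⟨i, hi⟩, ?_⟩
      funext j
      show ((cell (rows.getD i []) j : ℕ) : ZMod (e + 1)) = ((cell rows[i] j : ℕ) : ZMod (e + 1))
      rw [List.getD_eq_getElem _ _ hi]
    · rintro ⟨i, rfl⟩
      refine ⟨rows[(i : ℕ)], List.getElem_mem _, ?_⟩
      funext j
      show ((cell rows[(i : ℕ)] j : ℕ) : ZMod (e + 1)) =
        ((cell (rows.getD i []) j : ℕ) : ZMod (e + 1))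
      rw [List.getD_eq_getElem _ _ i.2]
  rw [gauss_eq_finrank, Matrix.rank_eq_finrank_span_row, hsub]

end Pool.Agent.Lib.Parity
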