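import Pool.Agent.Lib.Parity.Defs

/-!
# Module GENR: a generic change of coefficients
-/

set_option autoImplicit false
set_option linter.unusedSectionVars false

namespace Pool.Agent.Lib.Parity

open Module Polynomial

namespace Genr

variable {K : Type*} [Field K]

/-- a matrix of rank `r` is equivalent to one that contains the identity of size `r` -/
theorem exists_mul_eq_one {R C : Type*} [Fintype R] [Fintype C] [DecidableEq R] [DecidableEq C]
    (A : Matrix R C K) :
    ∃ (U : Matrix (Fin A.rank) R K) (V : Matrix C (Fin A.rank) K), U * A * V = 1 := by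
  set f := Matrix.toLin' A with hf
  have hr : finrank K (LinearMap.range f) = A.rank := by
    rw [Matrix.rank]
    rfl
  let b : Basis (Fin A.rank) K (LinearMap.range f) := finBasisOfFinrankEq K _ hr
  have hv : ∀ i, ∃ v, f v = b i := fun i => (b i).2
  choose v hv using hv
  -- the injection
  let g : (Fin A.rank → K) →ₗ[K] (R → K) := (LinearMap.range f).subtype ∘ₗ b.equivFun.symm.toLinearMap
  have hg : LinearMap.ker g = ⊥ := by
    rw [LinearMap.ker_eq_bot]
    exact (Submodule.injective_subtype _).comp b.equivFun.symm.injective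
  obtain ⟨h, hh⟩ := g.exists_leftInverse_of_injective hg
  let V : Matrix C (Fin A.rank) K := Matrix.of fun c i => v i c
  refine ⟨LinearMap.toMatrix' h, V, ?_⟩
  have hV : Matrix.toLin' (LinearMap.toMatrix' h * A * V) = LinearMap.id := by
    rw [Matrix.toLin'_mul, Matrix.toLin'_mul, Matrix.toLin'_toMatrix']
    apply (Pi.basisFun K (Fin A.rank)).ext
    intro i
    have e1 : (Matrix.toLin' V) (Pi.basisFun K (Fin A.rank) i) = v i := by
      rw [Pi.basisFun_apply, Matrix.toLin'_apply, Matrix.mulVec_single_one]
      rfl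
    have e2 : g (Pi.basisFun K (Fin A.rank) i) = b i := by
      simp [g]
    rw [LinearMap.comp_apply, LinearMap.comp_apply, e1]
    have e3 : (Matrix.toLin' A) (v i) = g (Pi.basisFun K (Fin A.rank) i) := by
      rw [e2, ← hv i]
    rw [e3, ← LinearMap.comp_apply, hh]
  have := congrArg LinearMap.toMatrix' hV
  rwa [LinearMap.toMatrix'_toLin', LinearMap.toMatrix'_id] at this

theorem rank_ge {R C : Type*} [Fintype R] [Fintype C] {r : ℕ} (A : Matrix R C K)
    (U : Matrix (Fin r) R K) (V : Matrix C (Fin r) K) (h : (U * A * V).det ≠ 0) :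
    r ≤ A.rank := by
  have h1 : (U * A * V).rank = r := by
    rw [Matrix.rank_of_isUnit _ ((Matrix.isUnit_iff_isUnit_det _).2 (isUnit_iff_ne_zero.2 h)),
      Fintype.card_fin]
  calc r = (U * A * V).rank := h1.symm
    _ ≤ (U * A).rank := Matrix.rank_mul_le_left _ _
    _ ≤ A.rank := Matrix.rank_mul_le_right _ _

/-- the polynomial -/
noncomputable def pol {R C : Type*} [Fintype R] [Fintype C] {r : ℕ} (P E : Matrix R C K)
    (U : Matrix (Fin r) R K) (V : Matrix C (Fin r) K) : K[X] :=
  ((X : K[X]) • (U * E * V).map Polynomial.C + (U * P * V).map Polynomial.C).det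

theorem pol_eval {R C : Type*} [Fintype R] [Fintype C] {r : ℕ} (P E : Matrix R C K)
    (U : Matrix (Fin r) R K) (V : Matrix C (Fin r) K) (t : K) :
    (pol P E U V).eval t = (U * (P + t • E) * V).det := by
  unfold pol
  rw [← Polynomial.coe_evalRingHom, RingHom.map_det]
  congr 1
  rw [Matrix.mul_add, Matrix.add_mul, Matrix.mul_smul, Matrix.smul_mul, add_comm]
  generalize U * E * V = B
  generalize U * P * V = A
  ext i j
  simp
  ring

theorem pol_natDegree {R C : Type*} [Fintype R] [Fintype C] {r : ℕ} (P E : Matrix R C K)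
    (U : Matrix (Fin r) R K) (V : Matrix C (Fin r) K) : (pol P E U V).natDegree ≤ r := by
  have h := Polynomial.natDegree_det_X_add_C_le (U * E * V) (U * P * V)
  rw [Fintype.card_fin] at h
  exact h

end Genr

variable {K : Type*} [Field K]

theorem generic_change [Fintype K] {Q R C : Type*} [Fintype Q] [Fintype R] [Fintype C]
    [DecidableEq R] [DecidableEq C] (P E : Q → Matrix R C K) (q0 : Q) (t0 : K)
    (h : (P q0).rank < (P q0 + t0 • E q0).rank)
    (hcard : Fintype.card Q * Fintype.card R < Fintype.card K) :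
    ∃ t : K, (∀ q, (P q).rank ≤ (P q + t • E q).rank) ∧ (P q0).rank < (P q0 + t • E q0).rank := by
  classical
  -- for every `q` a nonzero polynomial which guarantees the rank
  have key : ∀ q, ∃ p : K[X], p ≠ 0 ∧ p.natDegree ≤ Fintype.card R ∧
      ∀ t, p.eval t ≠ 0 → (P q).rank ≤ (P q + t • E q).rank ∧
        (q = q0 → (P q).rank < (P q + t • E q).rank) := by
    intro q
    by_cases hq : q = q0
    · subst hq
      obtain ⟨U, V, hUV⟩ := Genr.exists_mul_eq_one (P q + t0 • E q)
      refine ⟨Genr.pol (P q) (E q) U V, ?_, (Genr.pol_natDegree _ _ _ _).trans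
        (Matrix.rank_le_card_height _), ?_⟩
      · intro h0
        have := Genr.pol_eval (P q) (E q) U V t0
        rw [h0, hUV] at this
        simp at this
      · intro t ht
        rw [Genr.pol_eval] at ht
        have := Genr.rank_ge _ U V ht
        exact ⟨by omega, fun _ => by omega⟩
    · obtain ⟨U, V, hUV⟩ := Genr.exists_mul_eq_one (P q)
      refine ⟨Genr.pol (P q) (E q) U V, ?_, (Genr.pol_natDegree _ _ _ _).trans
        (Matrix.rank_le_card_height _), ?_⟩
      · intro h0
        have := Genr.pol_eval (P q) (E q) U V 0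
        rw [h0, zero_smul, add_zero, hUV] at this
        simp at this
      · intro t ht
        rw [Genr.pol_eval] at ht
        exact ⟨Genr.rank_ge _ U V ht, fun h => absurd h hq⟩
  choose p hp0 hpd hp using key
  have hprod : (∏ q, p q) ≠ 0 := Finset.prod_ne_zero_iff.2 fun q _ => hp0 q
  have hdeg : (∏ q, p q).natDegree < Fintype.card K := by
    refine lt_of_le_of_lt ?_ hcard
    refine (Polynomial.natDegree_prod_le _ _).trans ?_
    calc ∑ q, (p q).natDegree ≤ ∑ _q : Q, Fintype.card R := Finset.sum_le_sum fun q _ => hpd q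
      _ = Fintype.card Q * Fintype.card R := by simp
  obtain ⟨t, ht⟩ := (∏ q, p q).exists_eval_ne_zero_of_natDegree_lt_card hprod (by
    rw [Cardinal.mk_fintype]
    exact_mod_cast hdeg)
  rw [Polynomial.eval_prod, Finset.prod_ne_zero_iff] at ht
  exact ⟨t, fun q => (hp q t (ht q (Finset.mem_univ q))).1,
    (hp q0 t (ht q0 (Finset.mem_univ q0))).2 rfl⟩

end Pool.Agent.Lib.Parity
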