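import Pool.Agent.Lib.Parity.EVEN

/-!
# Parity library: a form of rank `2 k` gives a matching of size `k`
-/

set_option autoImplicit false
set_option linter.unusedSectionVars false

namespace Pool.Agent.Lib.Parity

open Module

variable {K : Type*} [Field K] {X : Type*} [AddCommGroup X] [Module K X] [FiniteDimensional K X]
variable {L : Type*}

theorem RKL.wedge_apply (b c : Dual K X) (ξ : X) : wedge b c ξ = b ξ • c - c ξ • b := by
  simp [wedge]

/-- the form -/
noncomputable def RKL.fm [Fintype L] (b c : L → Dual K X) (x : L → K) : X →ₗ[K] Dual K X :=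
  ∑ l, x l • wedge (b l) (c l)

theorem RKL.fm_apply [Fintype L] (b c : L → Dual K X) (x : L → K) (ξ : X) :
    RKL.fm b c x ξ = ∑ l, x l • (b l ξ • c l - c l ξ • b l) := by
  simp only [RKL.fm, LinearMap.sum_apply, LinearMap.smul_apply, RKL.wedge_apply]

theorem RKL.alt [Fintype L] (b c : L → Dual K X) (x : L → K) : Alt (RKL.fm b c x) := by
  intro ξ
  rw [RKL.fm_apply, LinearMap.sum_apply]
  apply Finset.sum_eq_zero
  intro l _
  simp only [LinearMap.smul_apply, LinearMap.sub_apply, smul_eq_mul]
  ring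

/-- two functionals, kernel of dimension two more -/
theorem RKL.pair {ω ω' : X →ₗ[K] Dual K X} {b c : Dual K X} {x : K}
    (hω : ∀ ξ, ω ξ = ω' ξ + x • (b ξ • c - c ξ • b))
    (hd : finrank K (LinearMap.ker ω) + 2 ≤ finrank K (LinearMap.ker ω')) :
    (∀ w, ω w = 0 → b w = 0 ∧ c w = 0) ∧ ∃ ξ₁ ξ₂, ω ξ₁ = x • c ∧ ω ξ₂ = -(x • b) ∧
      b ξ₁ = 1 ∧ c ξ₂ = 1 := by
  let g : LinearMap.ker ω' →ₗ[K] K × K := (LinearMap.prod b c) ∘ₗ (LinearMap.ker ω').subtype
  have hg := LinearMap.finrank_range_add_finrank_ker g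
  -- the kernel of `g`
  let Z : Submodule K X := LinearMap.ker ω ⊓ LinearMap.ker b ⊓ LinearMap.ker c
  have hmap : (LinearMap.ker g).map (LinearMap.ker ω').subtype = Z := by
    ext ξ
    simp only [Submodule.mem_map, LinearMap.mem_ker, Submodule.subtype_apply, Z,
      Submodule.mem_inf]
    constructor
    · rintro ⟨y, hy, rfl⟩
      have h1 : b y = 0 ∧ c y = 0 := by simpa [g, Prod.ext_iff] using hy
      refine ⟨⟨?_, h1.1⟩, h1.2⟩
      rw [hω, h1.1, h1.2, LinearMap.mem_ker.mp y.2]
      simp
    · rintro ⟨⟨h1, h2⟩, h3⟩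
      have h4 : ω' ξ = 0 := by
        have := hω ξ
        rw [h1, h2, h3] at this
        simpa using this.symm
      exact ⟨⟨ξ, LinearMap.mem_ker.mpr h4⟩, by simp [g, h2, h3], rfl⟩
  have hZ : finrank K (LinearMap.ker g) = finrank K Z := by
    rw [← hmap]
    exact LinearEquiv.finrank_eq (Submodule.equivMapOfInjective _
      (Submodule.injective_subtype _) _)
  have hZle : Z ≤ LinearMap.ker ω := inf_le_left.trans inf_le_left
  have hZf := Submodule.finrank_mono hZle
  have hr : finrank K (LinearMap.range g) ≤ finrank K (K × K) := Submodule.finrank_le _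
  have h2 : finrank K (K × K) = 2 := by simp
  have hZeq : Z = LinearMap.ker ω := Submodule.eq_of_le_of_finrank_eq hZle (by omega)
  have htop : LinearMap.range g = ⊤ := by
    apply Submodule.eq_top_of_finrank_eq
    omega
  constructor
  · intro w hw
    have h3 : w ∈ Z := by rw [hZeq]; exact LinearMap.mem_ker.mpr hw
    simp only [Z, Submodule.mem_inf, LinearMap.mem_ker] at h3
    exact ⟨h3.1.2, h3.2⟩
  · obtain ⟨ξ₁, h₁⟩ := LinearMap.range_eq_top.mp htop (1, 0)
    obtain ⟨ξ₂, h₂⟩ := LinearMap.range_eq_top.mp htop (0, 1)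
    have h₁' : b ξ₁ = 1 ∧ c ξ₁ = 0 := by simpa [g, Prod.ext_iff] using h₁
    have h₂' : b ξ₂ = 0 ∧ c ξ₂ = 1 := by simpa [g, Prod.ext_iff] using h₂
    refine ⟨ξ₁, ξ₂, ?_, ?_, h₁'.1, h₂'.2⟩
    · rw [hω, h₁'.1, h₁'.2, LinearMap.mem_ker.mp ξ₁.2]
      simp
    · rw [hω, h₂'.1, h₂'.2, LinearMap.mem_ker.mp ξ₂.2]
      simp

theorem exists_matching [Fintype L] {b c : L → Dual K X} (h2 : (2 : K) ≠ 0)
    (hch : ∀ m : ℕ, 0 < m → m ≤ Fintype.card L → (m : K) ≠ 0) (x : L → K) :
    ∃ M : Finset L, Matching K b c M ∧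
      finrank K X ≤ 2 * M.card + finrank K (LinearMap.ker (∑ l, x l • wedge (b l) (c l))) := by
  classical
  -- minimal support
  let sp : (L → K) → Finset L := fun x => Finset.univ.filter fun l => x l ≠ 0
  have hex : ∃ n : ℕ, ∃ x' : L → K, (sp x').card = n ∧
      finrank K (LinearMap.ker (RKL.fm b c x')) ≤ finrank K (LinearMap.ker (RKL.fm b c x)) :=
    ⟨_, x, rfl, le_rfl⟩
  obtain ⟨x', hcard, hrank⟩ := Nat.find_spec hex
  have hmin : ∀ x'' : L → K, (sp x'').card < (sp x').card →
      finrank K (LinearMap.ker (RKL.fm b c x)) < finrank K (LinearMap.ker (RKL.fm b c x'')) := by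
    intro x'' h
    by_contra h3
    push Not at h3
    rw [hcard] at h
    exact Nat.find_min hex h ⟨x'', rfl, h3⟩
  set ω := RKL.fm b c x' with hω
  set S := sp x' with hS
  have hSmem : ∀ l, l ∈ S ↔ x' l ≠ 0 := by
    intro l
    simp [hS, sp]
  have hsum : ∀ ξ, ω ξ = ∑ l ∈ S, x' l • (b l ξ • c l - c l ξ • b l) := by
    intro ξ
    rw [hω, RKL.fm_apply]
    symm
    apply Finset.sum_subset (Finset.subset_univ S)
    intro l _ hl
    have : x' l = 0 := by
      by_contra h
      exact hl ((hSmem l).mpr h)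
    rw [this, zero_smul]
  have halt : Alt ω := RKL.alt b c x'
  -- the data for every line in the support
  have hdata : ∀ l ∈ S, (∀ w, ω w = 0 → b l w = 0 ∧ c l w = 0) ∧
      ∃ yb yc : X, ω yb = b l ∧ ω yc = c l ∧ x' l * b l yc = 1 := by
    intro l hl
    have hxl : x' l ≠ 0 := (hSmem l).mp hl
    let x'' : L → K := Function.update x' l 0
    have hsp : sp x'' = S.erase l := by
      ext m
      simp only [sp, x'', Finset.mem_filter, Finset.mem_univ, true_and, Finset.mem_erase, hSmem]
      by_cases hm : m = l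
      · subst hm; simp
      · simp [hm]
    have h3 := hmin x'' (by
      rw [hsp]
      exact Finset.card_erase_lt_of_mem hl)
    have hdiff : ∀ ξ, ω ξ = RKL.fm b c x'' ξ + x' l • (b l ξ • c l - c l ξ • b l) := by
      intro ξ
      rw [hω, RKL.fm_apply, RKL.fm_apply]
      rw [← Finset.add_sum_erase Finset.univ _ (Finset.mem_univ l),
        ← Finset.add_sum_erase Finset.univ (fun m => x'' m • (b m ξ • c m - c m ξ • b m))
          (Finset.mem_univ l)]
      have h4 : ∑ m ∈ Finset.univ.erase l, x'' m • (b m ξ • c m - c m ξ • b m)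
          = ∑ m ∈ Finset.univ.erase l, x' m • (b m ξ • c m - c m ξ • b m) := by
        refine Finset.sum_congr rfl fun m hm => ?_
        simp only [x'']
        rw [Function.update_of_ne (Finset.ne_of_mem_erase hm)]
      rw [h4]
      simp only [x'', Function.update_self, zero_smul, zero_add]
      abel
    have he1 := even_rank h2 halt
    have he2 := even_rank h2 (RKL.alt b c x'')
    have hl1 := Submodule.finrank_le (LinearMap.ker ω)
    have hl2 := Submodule.finrank_le (LinearMap.ker (RKL.fm b c x''))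
    have hd : finrank K (LinearMap.ker ω) + 2 ≤ finrank K (LinearMap.ker (RKL.fm b c x'')) := by
      obtain ⟨p, hp⟩ := he1
      obtain ⟨p', hp'⟩ := he2
      omega
    obtain ⟨h5, ξ₁, ξ₂, h6, h7, h8, h9⟩ := RKL.pair hdiff hd
    refine ⟨h5, -((x' l)⁻¹ • ξ₂), (x' l)⁻¹ • ξ₁, ?_, ?_, ?_⟩
    · rw [map_neg, map_smul, h7, smul_neg, neg_neg, smul_smul, inv_mul_cancel₀ hxl, one_smul]
    · rw [map_smul, h6, smul_smul, inv_mul_cancel₀ hxl, one_smul]
    · rw [map_smul, h8, smul_eq_mul, mul_one, mul_inv_cancel₀ hxl]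
  -- choose the vectors
  have hdata' : ∀ l : L, ∃ yb yc : X, l ∈ S → ω yb = b l ∧ ω yc = c l ∧ x' l * b l yc = 1 := by
    intro l
    by_cases hl : l ∈ S
    · obtain ⟨-, yb, yc, h⟩ := hdata l hl
      exact ⟨yb, yc, fun _ => h⟩
    · exact ⟨0, 0, fun h => absurd h hl⟩
  choose yb yc hyy using hdata'
  -- the projection
  let P : X →ₗ[K] X := ∑ l ∈ S, x' l • ((b l).smulRight (yc l) - (c l).smulRight (yb l))
  have hP : ∀ ξ, P ξ = ∑ l ∈ S, x' l • (b l ξ • yc l - c l ξ • yb l) := by
    intro ξ
    simp only [P, LinearMap.sum_apply, LinearMap.smul_apply, LinearMap.sub_apply,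
      LinearMap.smulRight_apply]
  have hωP : ∀ ξ, ω (P ξ) = ω ξ := by
    intro ξ
    rw [hP, map_sum, hsum ξ]
    refine Finset.sum_congr rfl fun l hl => ?_
    rw [map_smul, map_sub, map_smul, map_smul, (hyy l hl).1, (hyy l hl).2.1]
  have hPW : ∀ w, ω w = 0 → P w = 0 := by
    intro w hw
    rw [hP]
    apply Finset.sum_eq_zero
    intro l hl
    have h3 := (hdata l hl).1 w hw
    rw [h3.1, h3.2]
    simp
  have hPP : ∀ ξ, P (P ξ) = P ξ := by
    intro ξ
    have h3 : P (P ξ - ξ) = 0 := by
      apply hPW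
      rw [map_sub, hωP, sub_self]
    rw [map_sub] at h3
    exact sub_eq_zero.mp h3
  have hkerP : LinearMap.ker P = LinearMap.ker ω := by
    ext ξ
    rw [LinearMap.mem_ker, LinearMap.mem_ker]
    constructor
    · intro h
      rw [← hωP, h, map_zero]
    · exact hPW ξ
  have hproj : LinearMap.IsProj (LinearMap.range P) P := by
    constructor
    · intro ξ
      exact ⟨ξ, rfl⟩
    · rintro _ ⟨ξ, rfl⟩
      exact hPP ξ
  have htr1 : LinearMap.trace K X P = (finrank K (LinearMap.range P) : K) := hproj.trace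
  have htr2 : LinearMap.trace K X P = ((2 * S.card : ℕ) : K) := by
    simp only [P, map_sum, map_smul, map_sub, LinearMap.trace_smulRight]
    have h3 : ∀ l ∈ S, x' l • (b l (yc l) - c l (yb l)) = 2 := by
      intro l hl
      obtain ⟨h4, h5, h6⟩ := hyy l hl
      have h7 : c l (yb l) = - b l (yc l) := by
        have h8 := alt_swap halt (yc l) (yb l)
        rw [h4, h5] at h8
        exact h8
      rw [h7, smul_eq_mul]
      linear_combination 2 * h6
    rw [Finset.sum_congr rfl h3, Finset.sum_const, nsmul_eq_mul]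
    push_cast
    ring
  -- the rank
  have hrk := LinearMap.finrank_range_add_finrank_ker P
  rw [hkerP] at hrk
  have hev := even_rank h2 halt
  -- the family
  let f : S × Bool → Dual K X := fun q => if q.2 = true then b q.1 else c q.1
  have hrange : LinearMap.range ω ≤ Submodule.span K (Set.range f) := by
    rintro _ ⟨ξ, rfl⟩
    rw [hsum]
    refine Submodule.sum_mem _ fun l hl => Submodule.smul_mem _ _ ?_
    refine Submodule.sub_mem _ (Submodule.smul_mem _ _ ?_) (Submodule.smul_mem _ _ ?_)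
    · exact Submodule.subset_span ⟨(⟨l, hl⟩, false), by simp [f]⟩
    · exact Submodule.subset_span ⟨(⟨l, hl⟩, true), by simp [f]⟩
  have hω2 := LinearMap.finrank_range_add_finrank_ker ω
  have hle1 := Submodule.finrank_mono hrange
  have hle2 : finrank K (Submodule.span K (Set.range f)) ≤ Fintype.card (S × Bool) :=
    finrank_range_le_card f
  have hcardSB : Fintype.card (S × Bool) = 2 * S.card := by
    rw [Fintype.card_prod, Fintype.card_coe, Fintype.card_bool, mul_comm]
  have hSL : S.card ≤ Fintype.card L := Finset.card_le_univ S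
  have hfin : finrank K (LinearMap.range P) = 2 * S.card := by
    obtain ⟨p, hp⟩ := hev
    have h3 : finrank K (LinearMap.range P) = 2 * p := by omega
    have h4 : p ≤ S.card := by omega
    rw [h3]
    by_contra hne
    have h5 : 0 < S.card - p := by omega
    have h6 := hch (S.card - p) h5 (by omega)
    apply h6
    have h7 : ((2 * S.card : ℕ) : K) = ((2 * p : ℕ) : K) := by
      rw [← htr2, htr1, h3]
    have h8 : (2 : K) * ((S.card - p : ℕ) : K) = 0 := by
      rw [Nat.cast_sub h4]
      push_cast at h7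
      linear_combination h7
    exact (mul_eq_zero.mp h8).resolve_left h2
  refine ⟨S, ?_, ?_⟩
  · change LinearIndependent K f
    rw [linearIndependent_iff_card_le_finrank_span]
    change Fintype.card (S × Bool) ≤ finrank K (Submodule.span K (Set.range f))
    omega
  · change finrank K X ≤ 2 * S.card + finrank K (LinearMap.ker (RKL.fm b c x))
    omega

end Pool.Agent.Lib.Parity
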