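import Pool.Agent.Lib.Parity.EVEN

/-!
# Parity library: normalisation of the lines
-/

set_option autoImplicit false
set_option linter.unusedSectionVars false

namespace Pool.Agent.Lib.Parity

open Module

variable {K : Type*} [Field K] {X : Type*} [AddCommGroup X] [Module K X] [FiniteDimensional K X]
variable {L : Type*}

theorem wedge_apply' (b c : Dual K X) (ξ η : X) : wedge b c ξ η = b ξ * c η - c ξ * b η := by
  simp [wedge]

theorem alt_add_wedge {ω : X →ₗ[K] Dual K X} (hω : Alt ω) (t : K) (b c : Dual K X) :
    Alt (ω + t • wedge b c) := by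
  intro ξ
  simp only [LinearMap.add_apply, LinearMap.smul_apply, wedge_apply', hω ξ]
  simp only [smul_eq_mul]
  ring

theorem NT2.dimK_none (b c : L → Dual K X) (ω : X →ₗ[K] Dual K X) :
    dimK b c ω none none none = finrank K (LinearMap.ker ω) := by
  have h : Ksp ω (ln b c none) (ln b c none ⊔ ln b c none) = LinearMap.ker ω := by
    ext ξ
    simp [Ksp, ln]
  unfold dimK
  rw [h]

/-- a combination of the two functionals vanishes on the kernel -/
theorem NT2.exists_comb {b c : Dual K X} {ω : X →ₗ[K] Dual K X} (hω : Alt ω)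
    (hs : finrank K (LinearMap.ker ω) ≤ finrank K (LinearMap.ker (ω + (1 : K) • wedge b c))) :
    ∃ α β : K, (α ≠ 0 ∨ β ≠ 0) ∧ ∀ w, ω w = 0 → α * b w + β * c w = 0 := by
  by_contra hcon
  push Not at hcon
  -- independence on the kernel
  have hind : ∀ α β : K, (∀ w, ω w = 0 → α * b w + β * c w = 0) → α = 0 ∧ β = 0 := by
    intro α β h
    by_contra h'
    have h'' : α ≠ 0 ∨ β ≠ 0 := by
      by_contra h3
      push Not at h3
      exact h' h3
    obtain ⟨w, hw, hw'⟩ := hcon α β h''
    exact hw' (h w hw)
  have hker : ∀ ξ, (ω + (1 : K) • wedge b c) ξ = 0 → ω ξ = 0 ∧ b ξ = 0 ∧ c ξ = 0 := by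
    intro ξ hξ
    have h1 : b ξ = 0 ∧ - c ξ = 0 := by
      have h2 := hind (- c ξ) (b ξ) (by
        intro w hw
        have h3 := congrArg (fun f : Dual K X => f w) hξ
        simp only [LinearMap.add_apply, LinearMap.smul_apply, wedge_apply', smul_eq_mul, one_mul,
          LinearMap.zero_apply] at h3
        rw [alt_swap hω, hw] at h3
        simp only [LinearMap.zero_apply, neg_zero, zero_add] at h3
        linear_combination h3)
      exact ⟨h2.2, h2.1⟩
    have hb : b ξ = 0 := h1.1
    have hc : c ξ = 0 := neg_eq_zero.mp h1.2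
    refine ⟨?_, hb, hc⟩
    ext η
    have h3 := congrArg (fun f : Dual K X => f η) hξ
    simpa [wedge_apply', hb, hc] using h3
  -- the kernel gets smaller
  obtain ⟨w0, hw0, hw0'⟩ := hcon 1 0 (Or.inl one_ne_zero)
  have hlt : LinearMap.ker (ω + (1 : K) • wedge b c) < LinearMap.ker ω := by
    refine lt_of_le_of_ne ?_ ?_
    · intro ξ hξ
      exact LinearMap.mem_ker.mpr (hker ξ (LinearMap.mem_ker.mp hξ)).1
    · intro h
      have h4 : w0 ∈ LinearMap.ker (ω + (1 : K) • wedge b c) := by
        rw [h]; exact LinearMap.mem_ker.mpr hw0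
      have h5 := hker w0 (LinearMap.mem_ker.mp h4)
      apply hw0'
      rw [h5.2.1, h5.2.2]
      ring
  exact absurd hs (not_le.mpr (Submodule.finrank_lt_finrank_of_lt hlt))

theorem NT2.exists_det {α β : K} (h : α ≠ 0 ∨ β ≠ 0) : ∃ γ δ : K, α * δ - β * γ = 1 := by
  rcases h with h | h
  · exact ⟨0, α⁻¹, by field_simp; ring⟩
  · exact ⟨-β⁻¹, 0, by field_simp; ring⟩

/-- no lines of type two: some combination of `b l, c l` vanishes on the kernel; normalise -/
theorem exists_norm {b c : L → Dual K X} {ω : X →ₗ[K] Dual K X} (hω : Alt ω)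
    (h2 : (2 : K) ≠ 0) (hK : Big K) (hbc : ∀ l, LinearIndependent K ![b l, c l])
    (hs : Stuck b c ω) :
    ∃ (u v : L → Dual K X) (y : L → X), Norm ω u v y ∧
      (∀ l, Submodule.span K {u l, v l} = Submodule.span K {b l, c l}) ∧
      ∀ M : Finset L, Matching K b c M → Matching K u v M := by
  have h1 : ∀ l, ∃ α β γ δ : K, α * δ - β * γ = 1 ∧ ∀ w, ω w = 0 → α * b l w + β * c l w = 0 := by
    intro l
    have h3 := hs l 1 none none none
    rw [NT2.dimK_none, NT2.dimK_none] at h3
    obtain ⟨α, β, hαβ, h4⟩ := NT2.exists_comb hω h3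
    obtain ⟨γ, δ, h5⟩ := NT2.exists_det hαβ
    exact ⟨α, β, γ, δ, h5, h4⟩
  choose α β γ δ hdet hcomb using h1
  let u : L → Dual K X := fun l => α l • b l + β l • c l
  let v : L → Dual K X := fun l => γ l • b l + δ l • c l
  have hu : ∀ l, ∃ y, ω y = u l := by
    intro l
    apply exists_of_ker hω
    intro w hw
    simpa [u] using hcomb l w hw
  choose y hy using hu
  have hb : ∀ l, b l = δ l • u l - β l • v l := by
    intro l
    simp only [u, v, smul_add, smul_smul]
    have e1 : (δ l * α l) • b l + (δ l * β l) • c l - ((β l * γ l) • b l + (β l * δ l) • c l)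
        = (α l * δ l - β l * γ l) • b l := by
      module
    rw [e1, hdet l, one_smul]
  have hc : ∀ l, c l = α l • v l - γ l • u l := by
    intro l
    simp only [u, v, smul_add, smul_smul]
    have e1 : (α l * γ l) • b l + (α l * δ l) • c l - ((γ l * α l) • b l + (γ l * β l) • c l)
        = (α l * δ l - β l * γ l) • c l := by
      module
    rw [e1, hdet l, one_smul]
  have hspan : ∀ l, Submodule.span K {u l, v l} = Submodule.span K {b l, c l} := by
    intro l
    apply le_antisymm
    · rw [Submodule.span_le]
      intro f hf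
      rcases hf with hf | hf
      · rw [hf]
        exact Submodule.add_mem _ (Submodule.smul_mem _ _ (Submodule.subset_span (by simp)))
          (Submodule.smul_mem _ _ (Submodule.subset_span (by simp)))
      · rw [Set.mem_singleton_iff.mp hf]
        exact Submodule.add_mem _ (Submodule.smul_mem _ _ (Submodule.subset_span (by simp)))
          (Submodule.smul_mem _ _ (Submodule.subset_span (by simp)))
    · rw [Submodule.span_le]
      intro f hf
      rcases hf with hf | hf
      · rw [hf, hb l]
        exact Submodule.sub_mem _ (Submodule.smul_mem _ _ (Submodule.subset_span (by simp)))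
          (Submodule.smul_mem _ _ (Submodule.subset_span (by simp)))
      · rw [Set.mem_singleton_iff.mp hf, hc l]
        exact Submodule.sub_mem _ (Submodule.smul_mem _ _ (Submodule.subset_span (by simp)))
          (Submodule.smul_mem _ _ (Submodule.subset_span (by simp)))
  have hln : ∀ i : Option L, ln u v i = ln b c i := by
    intro i
    cases i with
    | none => rfl
    | some l => exact hspan l
  have hwedge : ∀ l, wedge (u l) (v l) = wedge (b l) (c l) := by
    intro l
    ext ξ η
    rw [wedge_apply', wedge_apply']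
    simp only [u, v, LinearMap.add_apply, LinearMap.smul_apply, smul_eq_mul]
    linear_combination (b l ξ * c l η - c l ξ * b l η) * hdet l
  have hdimK : ∀ (ω' : X →ₗ[K] Dual K X) (i j k : Option L), dimK u v ω' i j k = dimK b c ω' i j k := by
    intro ω' i j k
    unfold dimK
    rw [hln i, hln j, hln k]
  refine ⟨u, v, y, ⟨hω, h2, hK, hy, ?_, ?_⟩, hspan, ?_⟩
  · intro l
    rw [LinearIndependent.pair_iff]
    intro s t hst
    have h3 := (LinearIndependent.pair_iff.mp (hbc l)) (s * α l + t * γ l) (s * β l + t * δ l) (by
      rw [← hst]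
      simp only [u, v]
      module)
    constructor
    · linear_combination δ l * h3.1 - γ l * h3.2 - s * hdet l
    · linear_combination (-β l) * h3.1 + α l * h3.2 - t * hdet l
  · intro l t i j k
    rw [hdimK, hdimK, hwedge]
    exact hs l t i j k
  · intro M hM
    unfold Matching at hM ⊢
    rw [Fintype.linearIndependent_iff] at hM ⊢
    intro g hg
    have h3 := hM (fun q => if q.2 = true then g (q.1, true) * α q.1 + g (q.1, false) * γ q.1
      else g (q.1, true) * β q.1 + g (q.1, false) * δ q.1) (by
      rw [← hg, Fintype.sum_prod_type, Fintype.sum_prod_type]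
      refine Finset.sum_congr rfl fun l _ => ?_
      rw [Fintype.sum_bool, Fintype.sum_bool]
      simp only [↓reduceIte, Bool.false_eq_true, u, v]
      module)
    rintro ⟨l, e⟩
    have h4 := h3 (l, true)
    have h5 := h3 (l, false)
    simp only [↓reduceIte, Bool.false_eq_true] at h4 h5
    cases e with
    | true => linear_combination δ l * h4 - γ l * h5 - g (l, true) * hdet l
    | false => linear_combination (-β l) * h4 + α l * h5 - g (l, false) * hdet l

end Pool.Agent.Lib.Parity
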