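import Pool.Agent.Lib.Parity.DUAL
import Pool.Agent.Lib.Parity.COND3
import Pool.Agent.Lib.Parity.EVEN
import Pool.Agent.Lib.Parity.NT2

/-!
# Module STB: the bound for stuck forms
-/

set_option autoImplicit false
set_option linter.unusedSectionVars false

namespace Pool.Agent.Lib.Parity

open Module

variable {K : Type*} [Field K] {X : Type*} [AddCommGroup X] [Module K X] [FiniteDimensional K X]
variable {L : Type*}

namespace Stb

/-- adjacency on the lines of type one -/
def rel (ω : X →ₗ[K] Dual K X) (u v : L → Dual K X) (y : L → X) (l m : {l // T1 ω v l}) : Prop :=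
  Adj ω u v y l.1 m.1

/-- classes of the lines of type one -/
abbrev Cls (ω : X →ₗ[K] Dual K X) (u v : L → Dual K X) (y : L → X) : Type _ :=
  Quotient (Relation.EqvGen.setoid (rel ω u v y))

/-- class of a line of type one -/
def mkc (ω : X →ₗ[K] Dual K X) (u v : L → Dual K X) (y : L → X) (l : {l // T1 ω v l}) :
    Cls ω u v y := Quotient.mk _ l

/-- the generators -/
def gens (ω : X →ₗ[K] Dual K X) (u v : L → Dual K X) (y : L → X) (i : Cls ω u v y) : Set X :=
  {a | (∃ l : {l // T1 ω v l}, mkc ω u v y l = i ∧ a = y l.1) ∨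
    ∃ (l m : {l // T1 ω v l}) (r : K), mkc ω u v y l = i ∧ mkc ω u v y m = i ∧
      Adj ω u v y l.1 m.1 ∧ (∀ w, ω w = 0 → v m.1 w = r * v l.1 w) ∧ ω a = v m.1 - r • v l.1}

/-- the subspaces -/
def YY (ω : X →ₗ[K] Dual K X) (u v : L → Dual K X) (y : L → X) (i : Cls ω u v y) :
    Submodule K X := Submodule.span K (gens ω u v y i)

theorem mkc_eq {ω : X →ₗ[K] Dual K X} {u v : L → Dual K X} {y : L → X} {l m : {l // T1 ω v l}}
    (h : u m.1 (y l.1) ≠ 0) : mkc ω u v y l = mkc ω u v y m := by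
  apply Quotient.sound
  exact Relation.EqvGen.rel _ _ ⟨l.2, m.2, h⟩

theorem orth_gens {ω : X →ₗ[K] Dual K X} {u v : L → Dual K X} {y : L → X}
    (h : Norm ω u v y) {i j : Cls ω u v y} (hij : i ≠ j) {a a' : X}
    (ha : a ∈ gens ω u v y i) (ha' : a' ∈ gens ω u v y j) : ω a a' = 0 := by
  -- vanishing between different classes
  have hz : ∀ l m : {l // T1 ω v l}, mkc ω u v y l ≠ mkc ω u v y m → u m.1 (y l.1) = 0 := by
    intro l m hlm
    by_contra hc
    exact hlm (mkc_eq hc)
  rcases ha with ⟨l, hl, rfl⟩ | ⟨l, m, r, hl, hm, hadj, hr, hω⟩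
  · rcases ha' with ⟨l', hl', rfl⟩ | ⟨l', m', r', hl', hm', hadj', hr', hω'⟩
    · rw [h.hy]
      exact hz l' l (by rw [hl, hl']; exact hij.symm)
    · have h1 := adj_far h hadj' l.2 (hz l' l (by rw [hl, hl']; exact hij.symm))
        (hz m' l (by rw [hl, hm']; exact hij.symm)) hr'
      rw [alt_swap h.alt, hω', LinearMap.sub_apply, LinearMap.smul_apply, h1, smul_eq_mul,
        sub_self, neg_zero]
  · rcases ha' with ⟨l', hl', rfl⟩ | ⟨l', m', r', hl', hm', hadj', hr', hω'⟩
    · have h1 := adj_far h hadj l'.2 (hz l l' (by rw [hl, hl']; exact hij))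
        (hz m l' (by rw [hm, hl']; exact hij)) hr
      rw [hω, LinearMap.sub_apply, LinearMap.smul_apply, h1, smul_eq_mul, sub_self]
    · exact adj_adj h hadj hadj' (hz l l' (by rw [hl, hl']; exact hij))
        (hz m l' (by rw [hm, hl']; exact hij)) (hz l m' (by rw [hl, hm']; exact hij))
        (hz m m' (by rw [hm, hm']; exact hij)) hr hr' hω hω'

theorem orth {ω : X →ₗ[K] Dual K X} {u v : L → Dual K X} {y : L → X}
    (h : Norm ω u v y) {i j : Cls ω u v y} (hij : i ≠ j) :
    ∀ a ∈ YY ω u v y i, ∀ a' ∈ YY ω u v y j, ω a a' = 0 := by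
  intro a ha a' ha'
  have h1 : ∀ b ∈ gens ω u v y i, ω b a' = 0 := by
    intro b hb
    have h2 : YY ω u v y j ≤ LinearMap.ker (ω b) := by
      apply Submodule.span_le.2
      intro c hc
      exact orth_gens h hij hb hc
    exact h2 ha'
  have h3 : YY ω u v y i ≤ LinearMap.ker (ω.flip a') := by
    apply Submodule.span_le.2
    intro b hb
    exact h1 b hb
  exact h3 ha

theorem chain {ω : X →ₗ[K] Dual K X} {u v : L → Dual K X} {y : L → X}
    (h : Norm ω u v y) {l m : {l // T1 ω v l}} (hlm : Relation.EqvGen (rel ω u v y) l m) :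
    ∃ r : K, r ≠ 0 ∧ v m.1 - r • v l.1 ∈ (YY ω u v y (mkc ω u v y l)).map ω := by
  induction hlm with
  | rel l m hlm =>
    obtain ⟨r, hr0, hr⟩ := adj_par h hlm
    refine ⟨r, hr0, ?_⟩
    obtain ⟨z, hz⟩ := exists_of_ker h.alt (f := v m.1 - r • v l.1) (by
      intro w hw
      rw [LinearMap.sub_apply, LinearMap.smul_apply, hr w hw, smul_eq_mul, sub_self])
    rw [← hz]
    apply Submodule.mem_map_of_mem
    apply Submodule.subset_span
    exact Or.inr ⟨l, m, r, rfl, (Quotient.sound (Relation.EqvGen.rel _ _ hlm)).symm, hlm, hr, hz⟩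
  | refl l =>
    exact ⟨1, one_ne_zero, by rw [one_smul, sub_self]; exact Submodule.zero_mem _⟩
  | symm l m hlm ih =>
    obtain ⟨r, hr0, hr⟩ := ih
    refine ⟨r⁻¹, inv_ne_zero hr0, ?_⟩
    have e : v l.1 - r⁻¹ • v m.1 = (-r⁻¹) • (v m.1 - r • v l.1) := by
      rw [smul_sub, smul_smul, neg_mul, inv_mul_cancel₀ hr0]
      module
    have hc : mkc ω u v y m = mkc ω u v y l :=
      (Quotient.sound (s := Relation.EqvGen.setoid (rel ω u v y)) hlm).symm
    rw [e, hc]
    exact Submodule.smul_mem _ _ hr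
  | trans l m k hlm hmk ih1 ih2 =>
    obtain ⟨r, hr0, hr⟩ := ih1
    obtain ⟨s, hs0, hs⟩ := ih2
    refine ⟨s * r, mul_ne_zero hs0 hr0, ?_⟩
    have e : v k.1 - (s * r) • v l.1 = (v k.1 - s • v m.1) + s • (v m.1 - r • v l.1) := by
      rw [smul_sub, smul_smul]
      abel
    have hc : mkc ω u v y m = mkc ω u v y l :=
      (Quotient.sound (s := Relation.EqvGen.setoid (rel ω u v y)) hlm).symm
    rw [hc] at hs
    rw [e]
    exact Submodule.add_mem _ hs (Submodule.smul_mem _ _ hr)

end Stb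

theorem norm_bound [Finite L] {ω : X →ₗ[K] Dual K X} {u v : L → Dual K X} {y : L → X}
    (h : Norm ω u v y) {M : Finset L} (hM : Matching K u v M) :
    2 * M.card + finrank K (LinearMap.ker ω) ≤ finrank K X := by
  classical
  refine dual_bound (ι := Stb.Cls ω u v y) h.alt h.two u v
    (fun l => if hl : T1 ω v l then some (Stb.mkc ω u v y ⟨l, hl⟩) else none)
    (Stb.YY ω u v y) (fun i => v (Quotient.out i).1) ?_ ?_ ?_ ?_ hM
  · exact fun i j hij => Stb.orth h hij
  · intro l i hl
    by_cases h1 : T1 ω v l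
    · simp only [h1, dif_pos, Option.some.injEq] at hl
      rw [← h.hy l]
      apply Submodule.mem_map_of_mem
      apply Submodule.subset_span
      exact Or.inl ⟨⟨l, h1⟩, hl, rfl⟩
    · simp [h1] at hl
  · intro l i hl
    by_cases h1 : T1 ω v l
    · simp only [h1, dif_pos, Option.some.injEq] at hl
      have h2 : Relation.EqvGen (Stb.rel ω u v y) (Quotient.out i) ⟨l, h1⟩ := by
        have h3 : (Quotient.mk (Relation.EqvGen.setoid (Stb.rel ω u v y)) (Quotient.out i)) =
            Quotient.mk _ ⟨l, h1⟩ := by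
          rw [Quotient.out_eq]
          exact hl.symm
        exact Quotient.exact h3
      obtain ⟨r, -, hr⟩ := Stb.chain h h2
      have h4 : Stb.mkc ω u v y (Quotient.out i) = i := Quotient.out_eq i
      rw [h4] at hr
      exact ⟨r, hr⟩
    · simp [h1] at hl
  · intro l hl
    have h1 : ¬ T1 ω v l := by
      intro h1
      simp [h1] at hl
    refine ⟨?_, ?_⟩
    · intro w hw
      refine ⟨?_, ?_⟩
      · rw [← h.hy l, alt_swap h.alt, hw, LinearMap.zero_apply, neg_zero]
      · by_contra hc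
        exact h1 ⟨w, hw, hc⟩
    · intro i a ha
      have h2 : Stb.YY ω u v y i ≤ LinearMap.ker (u l) ⊓ LinearMap.ker (v l) := by
        apply Submodule.span_le.2
        rintro b (⟨m, -, rfl⟩ | ⟨m, m', r, -, -, hadj, hr, hω⟩)
        · exact type0_y h m.2 h1
        · exact type0_z h hadj h1 hr hω
      exact h2 ha

theorem stuck_bound [Finite L] {b c : L → Dual K X} {ω : X →ₗ[K] Dual K X} (hω : Alt ω)
    (h2 : (2 : K) ≠ 0) (hK : Big K) (hbc : ∀ l, LinearIndependent K ![b l, c l])
    (hs : Stuck b c ω) {M : Finset L} (hM : Matching K b c M) :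
    2 * M.card + finrank K (LinearMap.ker ω) ≤ finrank K X := by
  obtain ⟨u, v, y, h, -, hm⟩ := exists_norm hω h2 hK hbc hs
  exact norm_bound h (hm M hM)

end Pool.Agent.Lib.Parity
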