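import Pool.Agent.Lib.Parity.GENR
import Pool.Agent.Lib.Parity.BR
import Pool.Agent.Lib.Parity.RKL
import Pool.Agent.Lib.Parity.STB

/-!
# Module LOPT: a local optimum is an optimum
-/

set_option autoImplicit false
set_option linter.unusedSectionVars false

namespace Pool.Agent.Lib.Parity

open Module

variable {K : Type*} [Field K] {L : Type*} {n : ℕ}

namespace Lopt

theorem fn_apply (a : Fin n → K) (x : Fin n → K) : fn a x = ∑ i, a i * x i := by
  unfold fn
  simp [LinearMap.sum_apply]

/-- `fn` as a linear map -/
def fnL : (Fin n → K) →ₗ[K] Dual K (Fin n → K) where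
  toFun := fn
  map_add' a b := by
    unfold fn
    simp only [Pi.add_apply, add_smul, Finset.sum_add_distrib]
  map_smul' t a := by
    unfold fn
    simp only [Pi.smul_apply, smul_eq_mul, mul_smul, RingHom.id_apply, Finset.smul_sum]

theorem fnL_inj : Function.Injective (fnL : (Fin n → K) →ₗ[K] Dual K (Fin n → K)) := by
  intro a b hab
  funext i
  have h : fn a (Pi.single i 1) = fn b (Pi.single i 1) := congrArg (fun f => f (Pi.single i 1)) hab
  rw [fn_apply, fn_apply] at h
  simpa [Pi.single_apply] using h

theorem matching_iff (b c : L → Fin n → K) (M : Finset L) :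
    Matching K b c M ↔ Matching K (fun l => fn (b l)) (fun l => fn (c l)) M := by
  unfold Matching
  have h : (fun q : M × Bool => if q.2 = true then fn (b q.1) else fn (c q.1)) =
      (fnL (K := K) (n := n)) ∘ (fun q : M × Bool => if q.2 = true then b q.1 else c q.1) := by
    funext q
    simp only [Function.comp_apply]
    split_ifs <;> rfl
  rw [h]
  constructor
  · intro h1
    exact h1.map' (fnL (K := K) (n := n)) (LinearMap.ker_eq_bot.2 fnL_inj)
  · intro h1
    exact LinearIndependent.of_comp (fnL (K := K) (n := n)) h1

theorem li_fn (b c : Fin n → K) (h : LinearIndependent K ![b, c]) :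
    LinearIndependent K ![fn b, fn c] := by
  have e : (![fn b, fn c] : Fin 2 → Dual K (Fin n → K)) = (fnL (K := K) (n := n)) ∘ ![b, c] := by
    funext i
    fin_cases i <;> rfl
  rw [e]
  exact h.map' (fnL (K := K) (n := n)) (LinearMap.ker_eq_bot.2 fnL_inj)

variable [Fintype L] [DecidableEq L]

theorem form_update (b c : L → Fin n → K) (x : L → K) (l : L) (t : K) :
    form b c (Function.update x l (x l + t)) =
      form b c x + t • wedge (fn (b l)) (fn (c l)) := by
  unfold form
  rw [← Finset.add_sum_erase _ _ (Finset.mem_univ l),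
    ← Finset.add_sum_erase (a := l) Finset.univ (fun l => x l • wedge (fn (b l)) (fn (c l)))
      (Finset.mem_univ l)]
  rw [Function.update_self, add_smul]
  have : ∑ m ∈ Finset.univ.erase l, Function.update x l (x l + t) m • wedge (fn (b m)) (fn (c m)) =
      ∑ m ∈ Finset.univ.erase l, x m • wedge (fn (b m)) (fn (c m)) := by
    apply Finset.sum_congr rfl
    intro m hm
    rw [Function.update_of_ne (Finset.ne_of_mem_erase hm)]
  rw [this]
  abel

/-- the change of the matrix -/
def dmat (b c : L → Fin n → K) (l : L) : Matrix (Fin n ⊕ Fin 2) (Fin n ⊕ Fin 4) K :=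
  Matrix.fromBlocks (Matrix.of fun r s => b l r * c l s - c l r * b l s) 0 0 0

theorem Pmat_update (b c : L → Fin n → K) (x : L → K) (l : L) (t : K) (i j k : Option L) :
    Pmat b c (Function.update x l (x l + t)) i j k = Pmat b c x i j k + t • dmat b c l := by
  unfold Pmat dmat
  rw [Matrix.fromBlocks_smul, Matrix.fromBlocks_add]
  congr 1
  · ext r s
    simp only [Amat, Matrix.of_apply, Matrix.add_apply, Matrix.smul_apply, smul_eq_mul]
    rw [← Finset.add_sum_erase _ _ (Finset.mem_univ l),
      ← Finset.add_sum_erase (a := l) Finset.univ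
        (fun l => x l * (b l r * c l s - c l r * b l s)) (Finset.mem_univ l)]
    rw [Function.update_self]
    have : ∑ m ∈ Finset.univ.erase l, Function.update x l (x l + t) m *
        (b m r * c m s - c m r * b m s) =
        ∑ m ∈ Finset.univ.erase l, x m * (b m r * c m s - c m r * b m s) := by
      apply Finset.sum_congr rfl
      intro m hm
      rw [Function.update_of_ne (Finset.ne_of_mem_erase hm)]
    rw [this]
    ring
  · simp
  · simp
  · simp

end Lopt

theorem local_opt [Fintype K] [Fintype L] [DecidableEq L] (b c : L → Fin n → K) (x : L → K)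
    (hbc : ∀ l, LinearIndependent K ![b l, c l])
    (hch : ∀ m : ℕ, 0 < m → m ≤ Fintype.card L + 2 → (m : K) ≠ 0)
    (hcard : (Fintype.card L + 1) ^ 3 * (n + 2) + 8 < Fintype.card K)
    (hx : ∀ l t, ∑ i, ∑ j, ∑ k, (Pmat b c (Function.update x l t) i j k).rank ≤
      ∑ i, ∑ j, ∑ k, (Pmat b c x i j k).rank) :
    (∃ M : Finset L, Matching K b c M ∧ 2 * M.card = (Amat b c x).rank) ∧
      ∀ M : Finset L, Matching K b c M → 2 * M.card ≤ (Amat b c x).rank := by
  have h2 : (2 : K) ≠ 0 := by
    have := hch 2 (by norm_num) (by omega)
    exact_mod_cast this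
  have hbig : Big K := by
    intro S hS
    by_contra hcon
    push Not at hcon
    have h3 : (Finset.univ : Finset K) ⊆ S := fun s _ => hcon s
    have h4 := Finset.card_le_card h3
    rw [Finset.card_univ] at h4
    omega
  -- the form is stuck
  have hstuck : Stuck (fun l => fn (b l)) (fun l => fn (c l)) (form b c x) := by
    intro l t i j k
    by_contra hcon
    push Not at hcon
    rw [← Lopt.form_update] at hcon
    have h5 := rank_Pmat b c x i j k
    have h6 := rank_Pmat b c (Function.update x l (x l + t)) i j k
    have h7 : (Pmat b c x i j k).rank <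
        (Pmat b c (Function.update x l (x l + t)) i j k).rank := by omega
    rw [Lopt.Pmat_update] at h7
    obtain ⟨s, hs1, hs2⟩ := generic_change
      (Q := Option L × Option L × Option L)
      (fun q => Pmat b c x q.1 q.2.1 q.2.2) (fun _ => Lopt.dmat b c l) (i, j, k) t h7 (by
        simp only [Fintype.card_prod, Fintype.card_option, Fintype.card_sum, Fintype.card_fin]
        have : (Fintype.card L + 1) * ((Fintype.card L + 1) * (Fintype.card L + 1)) * (n + 2) =
          (Fintype.card L + 1) ^ 3 * (n + 2) := by ring
        rw [this]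
        omega)
    have h8 := hx l (x l + s)
    simp only [Lopt.Pmat_update] at h8
    have h9 : ∑ q : Option L × Option L × Option L, (Pmat b c x q.1 q.2.1 q.2.2).rank <
        ∑ q : Option L × Option L × Option L,
          (Pmat b c x q.1 q.2.1 q.2.2 + s • Lopt.dmat b c l).rank := by
      apply Finset.sum_lt_sum
      · intro q _
        exact hs1 q
      · exact ⟨(i, j, k), Finset.mem_univ _, hs2⟩
    rw [Fintype.sum_prod_type, Fintype.sum_prod_type] at h9
    simp only [Fintype.sum_prod_type] at h9
    omega
  have halt : Alt (form b c x) := by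
    intro ξ
    unfold form wedge
    simp only [LinearMap.sum_apply, LinearMap.smul_apply, LinearMap.sub_apply,
      LinearMap.smulRight_apply, smul_eq_mul]
    apply Finset.sum_eq_zero
    intro l _
    ring
  have hrank := rank_Amat b c x
  have hfin : finrank K (Fin n → K) = n := by simp
  have hup : ∀ M : Finset L, Matching K b c M → 2 * M.card ≤ (Amat b c x).rank := by
    intro M hM
    have h3 := stuck_bound halt h2 hbig (fun l => Lopt.li_fn _ _ (hbc l)) hstuck
      ((Lopt.matching_iff b c M).1 hM)
    rw [hfin] at h3
    omega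
  refine ⟨?_, hup⟩
  obtain ⟨M, hM, hle⟩ := exists_matching (b := fun l => fn (b l)) (c := fun l => fn (c l)) h2
    (fun m h0 h1 => hch m h0 (by omega)) x
  have hM' := (Lopt.matching_iff b c M).2 hM
  refine ⟨M, hM', le_antisymm (hup M hM') ?_⟩
  rw [hfin] at hle
  have e : form b c x = ∑ l, x l • wedge (fn (b l)) (fn (c l)) := rfl
  rw [e] at hrank
  omega

end Pool.Agent.Lib.Parity
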