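import Pool.Agent.Lib.Parity.GAUSS

/-!
# Parity library: the list of rows is the bordered matrix (module ROWS)
-/

set_option autoImplicit false
set_option linter.unusedSectionVars false

namespace Pool.Agent.Lib.Parity

open Module

theorem ro_sum (m : ℕ) (g : ℕ → ℕ) : ((List.range m).map g).sum = ∑ l : Fin m, g l := by
  rw [← Finset.sum_range]; rfl

theorem cast_aent {e : ℕ} [Fact (e + 1).Prime] (N : ℕ) (Ls : List (List ℕ × List ℕ)) (x : List ℕ)
    (r s : Fin N) : ((aent e Ls x r s : ℕ) : ZMod (e + 1)) =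
      Amat (vb (e + 1) N Ls) (vc (e + 1) N Ls) (vx (e + 1) Ls.length x) r s := by
  unfold aent
  rw [ZMod.natCast_mod, ro_sum, Nat.cast_sum]
  show _ = ∑ l, vx (e + 1) Ls.length x l * (vb (e + 1) N Ls l r * vc (e + 1) N Ls l s -
    vc (e + 1) N Ls l r * vb (e + 1) N Ls l s)
  refine Finset.sum_congr rfl fun l _ => ?_
  push_cast
  rw [ga_e]
  unfold vx vb vc
  ring

theorem ro_oc1 {e : ℕ} [Fact (e + 1).Prime] (N : ℕ) (Ls : List (List ℕ × List ℕ)) (j : ℕ) (r : Fin N) :
    ((cell (f1 Ls j) r : ℕ) : ZMod (e + 1)) = oc (vb (e + 1) N Ls) (oi Ls.length j) r := by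
  unfold oi
  by_cases h : j < Ls.length
  · rw [dif_pos h]
    rfl
  · rw [dif_neg h]
    have : f1 Ls j = [] := by
      unfold f1
      rw [List.getD_eq_default _ _ (not_lt.mp h)]
    rw [this]
    simp [cell, oc]

theorem ro_oc2 {e : ℕ} [Fact (e + 1).Prime] (N : ℕ) (Ls : List (List ℕ × List ℕ)) (j : ℕ) (r : Fin N) :
    ((cell (f2 Ls j) r : ℕ) : ZMod (e + 1)) = oc (vc (e + 1) N Ls) (oi Ls.length j) r := by
  unfold oi
  by_cases h : j < Ls.length
  · rw [dif_pos h]
    rfl
  · rw [dif_neg h]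
    have : f2 Ls j = [] := by
      unfold f2
      rw [List.getD_eq_default _ _ (not_lt.mp h)]
    rw [this]
    simp [cell, oc]

theorem ro_getD_map {α : Type*} (w : ℕ) (f : ℕ → α) (j : ℕ) (hj : j < w) (d : α) :
    ((List.range w).map f).getD j d = f j := by
  rw [List.getD_eq_getElem?_getD, List.getElem?_map, List.getElem?_range hj]
  rfl

theorem ro_cell_app_left (w : ℕ) (f : ℕ → ℕ) (l : List ℕ) (j : ℕ) (hj : j < w) :
    cell ((List.range w).map f ++ l) j = f j := by
  unfold cell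
  rw [List.getD_append _ _ _ _ (by simpa using hj)]
  exact ro_getD_map w f j hj 0

theorem ro_cell_app_right (w : ℕ) (f : ℕ → ℕ) (l : List ℕ) (j : ℕ) :
    cell ((List.range w).map f ++ l) (w + j) = l.getD j 0 := by
  unfold cell
  rw [List.getD_append_right _ _ _ _ (by simp)]
  congr 1
  simp

theorem ro_cell_beyond (w : ℕ) (f : ℕ → ℕ) (j : ℕ) :
    cell ((List.range w).map f) (w + j) = 0 := by
  unfold cell
  rw [List.getD_eq_default _ _ (by simp)]

theorem gauss_rowsP {e : ℕ} [Fact (e + 1).Prime] (N : ℕ) (Ls : List (List ℕ × List ℕ))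
    (x : List ℕ) (i j k : ℕ) : gauss e (N + 4) (rowsP e N Ls x i j k) =
      (Pmat (vb (e + 1) N Ls) (vc (e + 1) N Ls) (vx (e + 1) Ls.length x) (oi Ls.length i)
        (oi Ls.length j) (oi Ls.length k)).rank := by
  rw [gauss_eq]
  have hlen : (rowsP e N Ls x i j k).length = N + 2 := by
    simp [rowsP]
  have hr1 : ∀ r : Fin N, (rowsP e N Ls x i j k).getD r [] =
      ((List.range N).map fun s => aent e Ls x r s) ++
      [cell (f1 Ls j) r, cell (f2 Ls j) r, cell (f1 Ls k) r, cell (f2 Ls k) r] := by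
    intro r
    unfold rowsP
    rw [List.getD_append _ _ _ _ (by simp)]
    exact ro_getD_map N (fun r : ℕ => ((List.range N).map fun s => aent e Ls x r s) ++
      [cell (f1 Ls j) r, cell (f2 Ls j) r, cell (f1 Ls k) r, cell (f2 Ls k) r]) r r.2 []
  have hr2 : ∀ t : ℕ, (rowsP e N Ls x i j k).getD (N + t) [] =
      [(List.range N).map fun s => cell (f1 Ls i) s,
        (List.range N).map fun s => cell (f2 Ls i) s].getD t [] := by
    intro t
    unfold rowsP
    rw [List.getD_append_right _ _ _ _ (by simp)]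
    congr 1
    simp
  rw [← Matrix.rank_submatrix _ (finSumFinEquiv.trans (finCongr hlen.symm) :
    Fin N ⊕ Fin 2 ≃ Fin (rowsP e N Ls x i j k).length) (finSumFinEquiv : Fin N ⊕ Fin 4 ≃ Fin (N + 4))]
  congr 1
  ext r s
  rcases r with r | r
  · rcases s with s | s
    · show ((cell ((rowsP e N Ls x i j k).getD (r : ℕ) []) (s : ℕ) : ℕ) : ZMod (e + 1)) =
        Amat (vb (e + 1) N Ls) (vc (e + 1) N Ls) (vx (e + 1) Ls.length x) r s
      rw [hr1, ro_cell_app_left N _ _ s s.2, cast_aent]
    · show ((cell ((rowsP e N Ls x i j k).getD (r : ℕ) []) (N + (s : ℕ)) : ℕ) : ZMod (e + 1)) =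
        ![oc (vb (e + 1) N Ls) (oi Ls.length j) r, oc (vc (e + 1) N Ls) (oi Ls.length j) r,
          oc (vb (e + 1) N Ls) (oi Ls.length k) r, oc (vc (e + 1) N Ls) (oi Ls.length k) r] s
      rw [hr1, ro_cell_app_right]
      fin_cases s
      · exact ro_oc1 N Ls j r
      · exact ro_oc2 N Ls j r
      · exact ro_oc1 N Ls k r
      · exact ro_oc2 N Ls k r
  · rcases s with s | s
    · show ((cell ((rowsP e N Ls x i j k).getD (N + (r : ℕ)) []) (s : ℕ) : ℕ) : ZMod (e + 1)) =
        (![oc (vb (e + 1) N Ls) (oi Ls.length i), oc (vc (e + 1) N Ls) (oi Ls.length i)] :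
          Fin 2 → Fin N → ZMod (e + 1)) r s
      rw [hr2]
      fin_cases r
      · show ((cell ((List.range N).map fun s => cell (f1 Ls i) s) (s : ℕ) : ℕ) :
          ZMod (e + 1)) = oc (vb (e + 1) N Ls) (oi Ls.length i) s
        rw [ga_cell_map N _ s s.2]
        exact ro_oc1 N Ls i s
      · show ((cell ((List.range N).map fun s => cell (f2 Ls i) s) (s : ℕ) : ℕ) :
          ZMod (e + 1)) = oc (vc (e + 1) N Ls) (oi Ls.length i) s
        rw [ga_cell_map N _ s s.2]
        exact ro_oc2 N Ls i s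
    · show ((cell ((rowsP e N Ls x i j k).getD (N + (r : ℕ)) []) (N + (s : ℕ)) : ℕ) :
          ZMod (e + 1)) = 0
      rw [hr2]
      fin_cases r
      · show ((cell ((List.range N).map fun s => cell (f1 Ls i) s) (N + (s : ℕ)) : ℕ) :
          ZMod (e + 1)) = 0
        rw [ro_cell_beyond, Nat.cast_zero]
      · show ((cell ((List.range N).map fun s => cell (f2 Ls i) s) (N + (s : ℕ)) : ℕ) :
          ZMod (e + 1)) = 0
        rw [ro_cell_beyond, Nat.cast_zero]

theorem gauss_A {e : ℕ} [Fact (e + 1).Prime] (N : ℕ) (Ls : List (List ℕ × List ℕ))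
    (x : List ℕ) : gauss e N ((List.range N).map fun r => (List.range N).map fun s =>
      aent e Ls x r s) =
      (Amat (vb (e + 1) N Ls) (vc (e + 1) N Ls) (vx (e + 1) Ls.length x)).rank := by
  rw [gauss_eq]
  have hlen : ((List.range N).map fun r => (List.range N).map fun s =>
      aent e Ls x r s).length = N := by
    simp
  rw [← Matrix.rank_submatrix _ (finCongr hlen.symm) (Equiv.refl (Fin N))]
  congr 1
  ext r s
  show ((cell (((List.range N).map fun r => (List.range N).map fun s =>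
      aent e Ls x r s).getD (r : ℕ) []) (s : ℕ) : ℕ) : ZMod (e + 1)) =
      Amat (vb (e + 1) N Ls) (vc (e + 1) N Ls) (vx (e + 1) Ls.length x) r s
  rw [ro_getD_map N _ r r.2 [], ga_cell_map N _ s s.2, cast_aent]

end Pool.Agent.Lib.Parity
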