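import Pool.Agent.Lib.Parity.POTL
import Pool.Agent.Lib.Parity.ROWS

/-!
# Parity library: the potential is the sum of the ranks
-/

set_option autoImplicit false
set_option linter.unusedSectionVars false

namespace Pool.Agent.Lib.Parity

open Finset

theorem sum_oi (m : ℕ) (f : Option (Fin m) → ℕ) :
    ∑ i ∈ range (m + 1), f (oi m i) = ∑ i, f i := by
  have h1 : oi m m = none := by simp [oi]
  have h2 : ∑ i ∈ range m, f (oi m i) = ∑ i : Fin m, f (some i) := by
    rw [Finset.sum_range]
    refine Finset.sum_congr rfl fun i _ => ?_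
    have : oi m (i : ℕ) = some i := by
      unfold oi
      rw [dif_pos i.2]
    rw [this]
  rw [Finset.sum_range_succ, h1, h2, Fintype.sum_option, add_comm]

theorem potL_eq {e : ℕ} [Fact (e + 1).Prime] (N : ℕ) (Ls : List (List ℕ × List ℕ))
    (x : List ℕ) : potL e N Ls x = ∑ i, ∑ j, ∑ k,
      (Pmat (vb (e + 1) N Ls) (vc (e + 1) N Ls) (vx (e + 1) Ls.length x) i j k).rank := by
  rw [potL_sum]
  simp only [gauss_rowsP]
  rw [← sum_oi]
  refine Finset.sum_congr rfl fun i _ => ?_
  rw [← sum_oi]
  refine Finset.sum_congr rfl fun j _ => ?_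
  rw [← sum_oi]

end Pool.Agent.Lib.Parity
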