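import Pool.Agent.Lib.Parity.AlgDefs

/-!
# Parity library: the potential as a triple sum, upper bound
-/

set_option autoImplicit false
set_option linter.unusedSectionVars false

namespace Pool.Agent.Lib.Parity

open Finset

theorem list_sum_range (n : ℕ) (f : ℕ → ℕ) :
    ((List.range n).map f).sum = ∑ i ∈ range n, f i := by
  induction n with
  | zero => simp
  | succ n ih => rw [List.range_succ, List.map_append, List.sum_append, ih,
      Finset.sum_range_succ]; simp

theorem list_sum_flatMap {α : Type*} (l : List α) (f : α → List ℕ) :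
    (l.flatMap f).sum = (l.map fun a => (f a).sum).sum := by
  induction l with
  | nil => simp
  | cons a l ih => simp [List.flatMap_cons, List.sum_append, ih]

theorem potL_sum (e N : ℕ) (Ls : List (List ℕ × List ℕ)) (x : List ℕ) :
    potL e N Ls x = ∑ i ∈ range (Ls.length + 1), ∑ j ∈ range (Ls.length + 1),
      ∑ k ∈ range (Ls.length + 1), gauss e (N + 4) (rowsP e N Ls x i j k) := by
  unfold potL
  rw [list_sum_flatMap, list_sum_range]
  refine Finset.sum_congr rfl fun i _ => ?_
  rw [list_sum_flatMap, list_sum_range]
  exact Finset.sum_congr rfl fun j _ => list_sum_range _ _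

theorem gstep_snd_le (e w : ℕ) (st : List (List ℕ) × ℕ) (q : ℕ) :
    (gstep e w st q).2 ≤ st.2 + 1 := by
  unfold gstep
  split
  · exact Nat.le_succ _
  · exact le_rfl

theorem foldl_gstep_le (e w : ℕ) (l : List ℕ) (st : List (List ℕ) × ℕ) :
    (l.foldl (gstep e w) st).2 ≤ st.2 + l.length := by
  induction l generalizing st with
  | nil => simp
  | cons q l ih =>
    rw [List.foldl_cons, List.length_cons]
    have h1 := ih (gstep e w st q)
    have h2 := gstep_snd_le e w st q
    omega

theorem gauss_le (e w : ℕ) (rows : List (List ℕ)) : gauss e w rows ≤ w := by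
  have := foldl_gstep_le e w (List.range w) (rows, 0)
  simpa [gauss] using this

theorem potL_le (e N : ℕ) (Ls : List (List ℕ × List ℕ)) (x : List ℕ) :
    potL e N Ls x ≤ (Ls.length + 1) * (Ls.length + 1) * (Ls.length + 1) * (N + 4) := by
  rw [potL_sum]
  set m := Ls.length + 1
  calc ∑ i ∈ range m, ∑ j ∈ range m, ∑ k ∈ range m, gauss e (N + 4) (rowsP e N Ls x i j k)
      ≤ ∑ i ∈ range m, ∑ j ∈ range m, ∑ k ∈ range m, (N + 4) :=
        Finset.sum_le_sum fun i _ => Finset.sum_le_sum fun j _ => Finset.sum_le_sum fun k _ =>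
          gauss_le _ _ _
    _ = m * m * m * (N + 4) := by simp; ring

end Pool.Agent.Lib.Parity
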