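import Pool.Agent.Lib.Parity.AlgDefs

/-!
# Parity library, module PTB: basic polynomial time functions
-/

set_option autoImplicit false
set_option linter.unusedSectionVars false

namespace Pool.Agent.Lib.Parity

open Module Pool.Agent.Lib.PolyTime

section
variable {α β : Type} [Enc α] [Enc β]

theorem ptb_mod_iter (m : ℕ) : ∀ i : ℕ, (fun r => if r + 1 = m then 0 else r + 1)^[i] 0 = i % m := by
  intro i
  induction i with
  | zero => simp
  | succ i ih =>
    rw [Function.iterate_succ_apply', ih]
    rcases Nat.eq_zero_or_pos m with rfl | hm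
    · simp
    · have h1 : (i + 1) % m = (i % m + 1) % m := (Nat.mod_add_mod i m 1).symm
      have h2 : i % m < m := Nat.mod_lt _ hm
      by_cases h : i % m + 1 = m
      · rw [if_pos h, h1, h, Nat.mod_self]
      · rw [if_neg h, h1, Nat.mod_eq_of_lt (by omega : i % m + 1 < m)]

theorem PT.mod {f g : α → ℕ} (hf : PT f) (hg : PT g) : PT (fun a => f a % g a) := by
  obtain ⟨p, hp⟩ := hf.size_le
  have h := PT.iterate (f := f) (init := fun _ => 0)
    (step := fun a r => if r + 1 = g a then 0 else r + 1) hf (PT.const 0)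
    (PT.ite (c := fun x : α × ℕ => x.2 + 1 = g x.1) (PT.eq PT.snd.succ (hg.comp PT.fst))
      (PT.const 0) PT.snd.succ) (B := fun n => p.eval n) (PB.poly p) (by
      intro a i hi
      rw [ptb_mod_iter]
      have h1 := hp a
      rw [size_nat] at h1 ⊢
      have h2 := Nat.mod_le i (g a)
      omega)
  exact h.congr (fun a => ptb_mod_iter _ _)

theorem ptb_sum_le_size (l : List ℕ) : 2 * l.sum + 1 ≤ size l := by
  induction l with
  | nil => simp
  | cons a l ih =>
    rw [size_cons, List.sum_cons, size_nat]
    omega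

theorem PT.sum {f : α → List ℕ} (hf : PT f) : PT (fun a => (f a).sum) := by
  obtain ⟨p, hp⟩ := hf.size_le
  have h := PT.foldl_add (f := f) (init := fun _ => 0) (step := fun _ s b => s + b) hf
    (PT.const 0) (PT.add PT.snd.fst' PT.snd.snd') (C := fun n => p.eval n) (PB.poly p) (by
      intro a s b hb
      have h1 := size_mem_lt hb
      have h2 := hp a
      rw [size_nat] at h1
      rw [size_nat, size_nat]
      omega)
  refine h.congr (fun a => ?_)
  rw [← List.sum_eq_foldl]

theorem ptb_getD {f : α → List β} {g : α → ℕ} (b : β) (hf : PT f) (hg : PT g) :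
    PT (fun a => (f a).getD (g a) b) := by
  refine (PT.optCases (f := fun a => (f a)[g a]?) (g := fun _ => b) (h := fun _ c => c)
    (PT.getElem? hg hf) (PT.const b) PT.snd).congr (fun a => ?_)
  rw [List.getD_eq_getElem?_getD]
  cases (f a)[g a]? <;> rfl

theorem PT.cell {f : α → List ℕ} {g : α → ℕ} (hf : PT f) (hg : PT g) :
    PT (fun a => cell (f a) (g a)) := ptb_getD 0 hf hg

theorem PT.f1 {f : α → List (List ℕ × List ℕ)} {g : α → ℕ} (hf : PT f) (hg : PT g) :
    PT (fun a => f1 (f a) (g a)) := (ptb_getD ([], []) hf hg).fst'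

theorem PT.f2 {f : α → List (List ℕ × List ℕ)} {g : α → ℕ} (hf : PT f) (hg : PT g) :
    PT (fun a => f2 (f a) (g a)) := (ptb_getD ([], []) hf hg).snd'

end

end Pool.Agent.Lib.Parity
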