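import Pool.Agent.Lib.Parity.PTB

/-!
# Parity library, module PTG: Gaussian elimination in polynomial time
-/

set_option autoImplicit false
set_option linter.unusedSectionVars false

namespace Pool.Agent.Lib.Parity

open Module Pool.Agent.Lib.PolyTime

theorem ptg_gstep : PT (fun x : (ℕ × ℕ × List (List ℕ)) × ((List (List ℕ) × ℕ) × ℕ) =>
    gstep x.1.1 x.1.2.1 x.2.1 x.2.2) := by
  have he : PT (fun x : (ℕ × ℕ × List (List ℕ)) × ((List (List ℕ) × ℕ) × ℕ) => x.1.1) :=
    PT.fst.fst'
  have hw : PT (fun x : (ℕ × ℕ × List (List ℕ)) × ((List (List ℕ) × ℕ) × ℕ) => x.1.2.1) :=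
    PT.fst.snd'.fst'
  have hst : PT (fun x : (ℕ × ℕ × List (List ℕ)) × ((List (List ℕ) × ℕ) × ℕ) => x.2.1) :=
    PT.snd.fst'
  have hq : PT (fun x : (ℕ × ℕ × List (List ℕ)) × ((List (List ℕ) × ℕ) × ℕ) => x.2.2) :=
    PT.snd.snd'
  have hfil : PT (fun x : (ℕ × ℕ × List (List ℕ)) × ((List (List ℕ) × ℕ) × ℕ) =>
      x.2.1.1.filter fun s => decide (cell s x.2.2 % (x.1.1 + 1) ≠ 0)) := by
    refine PT.filter (f := fun x : (ℕ × ℕ × List (List ℕ)) × ((List (List ℕ) × ℕ) × ℕ) => x.2.1.1)
      (p := fun x s => decide (cell s x.2.2 % (x.1.1 + 1) ≠ 0)) hst.fst' ?_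
    refine (PT.not (PT.eq (PT.mod (PT.cell (PT.snd (α := (ℕ × ℕ × List (List ℕ)) ×
      ((List (List ℕ) × ℕ) × ℕ)) (β := List ℕ)) (hq.comp PT.fst)) ((he.comp PT.fst).succ))
      (PT.const 0))).congr (fun x => ?_)
    simp
  refine (PT.optCases (f := fun x : (ℕ × ℕ × List (List ℕ)) × ((List (List ℕ) × ℕ) × ℕ) =>
      (x.2.1.1.filter fun s => decide (cell s x.2.2 % (x.1.1 + 1) ≠ 0)).head?)
    (g := fun x => x.2.1)
    (h := fun x r => (x.2.1.1.map fun s => (List.range x.1.2.1).map fun j =>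
      (cell r x.2.2 * cell s j + x.1.1 * (cell s x.2.2 * cell r j)) % (x.1.1 + 1), x.2.1.2 + 1))
    hfil.head? hst ?_).congr (fun x => ?_)
  · refine PT.pair ?_ (hst.snd'.comp PT.fst).succ
    refine PT.map (f := fun y : ((ℕ × ℕ × List (List ℕ)) × ((List (List ℕ) × ℕ) × ℕ)) × List ℕ =>
        y.1.2.1.1)
      (g := fun y s => (List.range y.1.1.2.1).map fun j =>
      (cell y.2 y.1.2.2 * cell s j + y.1.1.1 * (cell s y.1.2.2 * cell y.2 j)) % (y.1.1.1 + 1))
      (hst.fst'.comp PT.fst) ?_
    refine PT.map (f := fun z : (((ℕ × ℕ × List (List ℕ)) × ((List (List ℕ) × ℕ) × ℕ)) × List ℕ) ×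
        List ℕ => List.range z.1.1.1.2.1)
      (g := fun z j => (cell z.1.2 z.1.1.2.2 * cell z.2 j +
        z.1.1.1.1 * (cell z.2 z.1.1.2.2 * cell z.1.2 j)) % (z.1.1.1.1 + 1))
      (PT.range (hw.comp PT.fst.fst')) ?_
    have h1 : PT (fun v : ((((ℕ × ℕ × List (List ℕ)) × ((List (List ℕ) × ℕ) × ℕ)) × List ℕ) ×
        List ℕ) × ℕ => v.1.1.1.1.1) := he.comp PT.fst.fst'.fst'
    have h2 : PT (fun v : ((((ℕ × ℕ × List (List ℕ)) × ((List (List ℕ) × ℕ) × ℕ)) × List ℕ) ×
        List ℕ) × ℕ => v.1.1.1.2.2) := hq.comp PT.fst.fst'.fst'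
    have h3 : PT (fun v : ((((ℕ × ℕ × List (List ℕ)) × ((List (List ℕ) × ℕ) × ℕ)) × List ℕ) ×
        List ℕ) × ℕ => v.1.1.2) := PT.fst.fst'.snd'
    have h4 : PT (fun v : ((((ℕ × ℕ × List (List ℕ)) × ((List (List ℕ) × ℕ) × ℕ)) × List ℕ) ×
        List ℕ) × ℕ => v.1.2) := PT.fst.snd'
    have h5 : PT (fun v : ((((ℕ × ℕ × List (List ℕ)) × ((List (List ℕ) × ℕ) × ℕ)) × List ℕ) ×
        List ℕ) × ℕ => v.2) := PT.snd
    exact PT.mod (PT.add (PT.mul (PT.cell h3 h2) (PT.cell h4 h5))
      (PT.mul h1 (PT.mul (PT.cell h4 h2) (PT.cell h3 h5)))) h1.succ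
  · rw [gstep]
    cases (x.2.1.1.filter fun s => decide (cell s x.2.2 % (x.1.1 + 1) ≠ 0)).head? <;> rfl

/-- size bounds for the states of the elimination -/
theorem ptg_inv (e w : ℕ) (rows : List (List ℕ)) : ∀ (l : List ℕ) (st : List (List ℕ) × ℕ),
    st.1.length = rows.length → (st.1 = rows ∨ ∀ s ∈ st.1, size s ≤ w * (2 * e + 2) + 1) →
    (l.foldl (gstep e w) st).1.length = rows.length ∧
    ((l.foldl (gstep e w) st).1 = rows ∨
      ∀ s ∈ (l.foldl (gstep e w) st).1, size s ≤ w * (2 * e + 2) + 1) ∧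
    (l.foldl (gstep e w) st).2 ≤ st.2 + l.length := by
  intro l
  induction l with
  | nil => intro st h1 h2; exact ⟨h1, h2, by simp⟩
  | cons q l ih =>
    intro st h1 h2
    rw [List.foldl_cons, List.length_cons]
    have h3 : (gstep e w st q).1.length = rows.length ∧
        ((gstep e w st q).1 = rows ∨ ∀ s ∈ (gstep e w st q).1, size s ≤ w * (2 * e + 2) + 1) ∧
        (gstep e w st q).2 ≤ st.2 + 1 := by
      rw [gstep]
      cases (st.1.filter fun s => decide (cell s q % (e + 1) ≠ 0)).head? with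
      | none => exact ⟨h1, h2, by simp⟩
      | some r =>
        refine ⟨by simpa using h1, Or.inr ?_, le_refl _⟩
        intro s hs
        simp only [List.mem_map] at hs
        obtain ⟨s', _, rfl⟩ := hs
        have h4 := size_list_le (S := 2 * e + 1) ((List.range w).map fun j =>
          (cell r q * cell s' j + e * (cell s' q * cell r j)) % (e + 1)) (by
            intro b hb
            simp only [List.mem_map] at hb
            obtain ⟨j, _, rfl⟩ := hb
            rw [size_nat]
            have := Nat.mod_lt (cell r q * cell s' j + e * (cell s' q * cell r j))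
              (Nat.succ_pos e)
            simp only [Nat.succ_eq_add_one] at this
            omega)
        rw [List.length_map, List.length_range] at h4
        exact h4
    obtain ⟨h4, h5, h6⟩ := ih (gstep e w st q) h3.1 h3.2.1
    exact ⟨h4, h5, by omega⟩

theorem pt_gauss : PT (fun a : ℕ × ℕ × List (List ℕ) => gauss a.1 a.2.1 a.2.2) := by
  have h := PT.foldl (f := fun a : ℕ × ℕ × List (List ℕ) => List.range a.2.1)
    (init := fun a => (a.2.2, 0)) (step := fun a => gstep a.1 a.2.1)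
    (PT.range PT.snd.fst') (PT.pair PT.snd.snd' (PT.const 0)) ptg_gstep
    (B := fun n => (n + (n * (n * (2 * n + 2) + 2) + 1)) + (2 * n + 1) + 1)
    (((PB.id.add ((PB.id.mul ((PB.id.mul (((PB.const 2).mul PB.id).add (PB.const 2))).add
      (PB.const 2))).add (PB.const 1))).add (((PB.const 2).mul PB.id).add (PB.const 1))).add
      (PB.const 1)) (by
      rintro ⟨e, w, rows⟩ l' hl'
      simp only at hl' ⊢
      obtain ⟨h1, h2, h3⟩ := ptg_inv e w rows l' (rows, 0) rfl (Or.inl rfl)
      have hs : size (e, (w, rows)) = size e + (size w + size rows + 1) + 1 := by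
        rw [size_prod, size_prod]
      rw [size_nat, size_nat] at hs
      have hlen := length_le_size rows
      have hl := hl'.length_le
      rw [List.length_range] at hl
      rw [size_prod, size_nat]
      generalize size (e, (w, rows)) = n at *
      have h4 : size (l'.foldl (gstep e w) (rows, 0)).1 ≤ n + (n * (n * (2 * n + 2) + 2) + 1) := by
        rcases h2 with h2 | h2
        · rw [h2]; omega
        · have h5 := size_list_le _ h2
          rw [h1] at h5
          have h6 : rows.length * (w * (2 * e + 2) + 1 + 1) ≤ n * (n * (2 * n + 2) + 2) := by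
            refine Nat.mul_le_mul (by omega) ?_
            have : w * (2 * e + 2) ≤ n * (2 * n + 2) := Nat.mul_le_mul (by omega) (by omega)
            omega
          omega
      simp only at h3
      omega)
  exact h.snd'

end Pool.Agent.Lib.Parity
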