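import Pool.Agent.Lib.Parity.PTB
import Pool.Agent.Lib.Parity.PTG

/-!
# The rows of the bordered matrix and the potential are polynomial time functions
-/

set_option autoImplicit false
set_option linter.unusedSectionVars false

namespace Pool.Agent.Lib.Parity

open Module Pool.Agent.Lib.PolyTime

section
variable {α : Type} [Enc α]

theorem ptp_aent {e : α → ℕ} {L : α → List (List ℕ × List ℕ)} {x : α → List ℕ} {r s : α → ℕ}
    (he : PT e) (hL : PT L) (hx : PT x) (hr : PT r) (hs : PT s) :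
    PT (fun a => aent (e a) (L a) (x a) (r a) (s a)) := by
  have h1 : PT (fun a : α × ℕ => L a.1) := hL.comp PT.fst
  have hr1 : PT (fun a : α × ℕ => r a.1) := hr.comp PT.fst
  have hs1 : PT (fun a : α × ℕ => s a.1) := hs.comp PT.fst
  have he1 : PT (fun a : α × ℕ => e a.1) := he.comp PT.fst
  have hx1 : PT (fun a : α × ℕ => x a.1) := hx.comp PT.fst
  have hl : PT (fun a : α × ℕ => a.2) := PT.snd
  have h2 : PT (fun a : α × ℕ => cell (x a.1) a.2 * (cell (f1 (L a.1) a.2) (r a.1) *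
      cell (f2 (L a.1) a.2) (s a.1) + e a.1 * (cell (f2 (L a.1) a.2) (r a.1) *
      cell (f1 (L a.1) a.2) (s a.1)))) := by
    refine PT.mul (PT.cell hx1 hl) (PT.add (PT.mul (PT.cell (PT.f1 h1 hl) hr1)
      (PT.cell (PT.f2 h1 hl) hs1)) (PT.mul he1 (PT.mul (PT.cell (PT.f2 h1 hl) hr1)
      (PT.cell (PT.f1 h1 hl) hs1))))
  exact PT.mod (PT.sum (PT.map (f := fun a => List.range (L a).length)
    (g := fun a l => cell (x a) l * (cell (f1 (L a) l) (r a) *
      cell (f2 (L a) l) (s a) + e a * (cell (f2 (L a) l) (r a) *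
      cell (f1 (L a) l) (s a)))) (PT.range (PT.length hL)) h2)) (PT.succ he)

theorem ptp_rows {e N : α → ℕ} {L : α → List (List ℕ × List ℕ)} {x : α → List ℕ}
    {i j k : α → ℕ} (he : PT e) (hN : PT N) (hL : PT L) (hx : PT x) (hi : PT i) (hj : PT j)
    (hk : PT k) : PT (fun a => rowsP (e a) (N a) (L a) (x a) (i a) (j a) (k a)) := by
  have hr : PT (fun a : α × ℕ => a.2) := PT.snd
  have he1 : PT (fun a : α × ℕ => e a.1) := he.comp PT.fst
  have hN1 : PT (fun a : α × ℕ => N a.1) := hN.comp PT.fst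
  have hL1 : PT (fun a : α × ℕ => L a.1) := hL.comp PT.fst
  have hx1 : PT (fun a : α × ℕ => x a.1) := hx.comp PT.fst
  have hi1 : PT (fun a : α × ℕ => i a.1) := hi.comp PT.fst
  have hj1 : PT (fun a : α × ℕ => j a.1) := hj.comp PT.fst
  have hk1 : PT (fun a : α × ℕ => k a.1) := hk.comp PT.fst
  have h1 : PT (fun a : α × ℕ => (List.range (N a.1)).map fun s =>
      aent (e a.1) (L a.1) (x a.1) a.2 s) := by
    refine PT.map (f := fun a : α × ℕ => List.range (N a.1))
      (g := fun a s => aent (e a.1) (L a.1) (x a.1) a.2 s) (PT.range hN1) ?_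
    exact ptp_aent (he1.comp PT.fst) (hL1.comp PT.fst) (hx1.comp PT.fst) (hr.comp PT.fst) PT.snd
  have h2 : PT (fun a : α × ℕ => [cell (f1 (L a.1) (j a.1)) a.2, cell (f2 (L a.1) (j a.1)) a.2,
      cell (f1 (L a.1) (k a.1)) a.2, cell (f2 (L a.1) (k a.1)) a.2]) :=
    PT.cons (PT.cell (PT.f1 hL1 hj1) hr) (PT.cons (PT.cell (PT.f2 hL1 hj1) hr)
      (PT.cons (PT.cell (PT.f1 hL1 hk1) hr) (PT.cons (PT.cell (PT.f2 hL1 hk1) hr) (PT.const []))))
  have h3 : PT (fun a => (List.range (N a)).map fun r => ((List.range (N a)).map fun s =>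
      aent (e a) (L a) (x a) r s) ++ [cell (f1 (L a) (j a)) r, cell (f2 (L a) (j a)) r,
      cell (f1 (L a) (k a)) r, cell (f2 (L a) (k a)) r]) :=
    PT.map (f := fun a => List.range (N a)) (g := fun a r => ((List.range (N a)).map fun s =>
      aent (e a) (L a) (x a) r s) ++ [cell (f1 (L a) (j a)) r, cell (f2 (L a) (j a)) r,
      cell (f1 (L a) (k a)) r, cell (f2 (L a) (k a)) r]) (PT.range hN) (PT.append h1 h2)
  have h4 : PT (fun a => (List.range (N a)).map fun s => cell (f1 (L a) (i a)) s) :=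
    PT.map (f := fun a => List.range (N a)) (g := fun a s => cell (f1 (L a) (i a)) s)
      (PT.range hN) (PT.cell (PT.f1 hL1 hi1) hr)
  have h5 : PT (fun a => (List.range (N a)).map fun s => cell (f2 (L a) (i a)) s) :=
    PT.map (f := fun a => List.range (N a)) (g := fun a s => cell (f2 (L a) (i a)) s)
      (PT.range hN) (PT.cell (PT.f2 hL1 hi1) hr)
  exact PT.append h3 (PT.cons h4 (PT.cons h5 (PT.const [])))

theorem ptp_gauss {e w : α → ℕ} {R : α → List (List ℕ)} (he : PT e) (hw : PT w) (hR : PT R) :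
    PT (fun a => gauss (e a) (w a) (R a)) :=
  PT.comp (g := fun a : ℕ × ℕ × List (List ℕ) => gauss a.1 a.2.1 a.2.2) pt_gauss
    (PT.pair he (PT.pair hw hR))

theorem ptp_pot {e N : α → ℕ} {L : α → List (List ℕ × List ℕ)} {x : α → List ℕ}
    (he : PT e) (hN : PT N) (hL : PT L) (hx : PT x) :
    PT (fun a => potL (e a) (N a) (L a) (x a)) := by
  have hm : PT (fun a => List.range ((L a).length + 1)) := PT.range (PT.succ (PT.length hL))
  have h1 : PT (fun q : ((α × ℕ) × ℕ) × ℕ => gauss (e q.1.1.1) (N q.1.1.1 + 4)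
      (rowsP (e q.1.1.1) (N q.1.1.1) (L q.1.1.1) (x q.1.1.1) q.1.1.2 q.1.2 q.2)) := by
    have hp : PT (fun q : ((α × ℕ) × ℕ) × ℕ => q.1.1.1) := PT.fst.fst'.fst'
    refine ptp_gauss (he.comp hp) (PT.addConst (hN.comp hp) 4) (ptp_rows (he.comp hp)
      (hN.comp hp) (hL.comp hp) (hx.comp hp) PT.fst.fst'.snd' PT.fst.snd' PT.snd)
  have h2 : PT (fun q : (α × ℕ) × ℕ => (List.range ((L q.1.1).length + 1)).map fun k =>
      gauss (e q.1.1) (N q.1.1 + 4) (rowsP (e q.1.1) (N q.1.1) (L q.1.1) (x q.1.1) q.1.2 q.2 k)) :=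
    PT.map (f := fun q : (α × ℕ) × ℕ => List.range ((L q.1.1).length + 1)) (g := fun q k =>
      gauss (e q.1.1) (N q.1.1 + 4) (rowsP (e q.1.1) (N q.1.1) (L q.1.1) (x q.1.1) q.1.2 q.2 k))
      (hm.comp PT.fst.fst') h1
  have h3 : PT (fun q : α × ℕ => (List.range ((L q.1).length + 1)).flatMap fun j =>
      (List.range ((L q.1).length + 1)).map fun k =>
      gauss (e q.1) (N q.1 + 4) (rowsP (e q.1) (N q.1) (L q.1) (x q.1) q.2 j k)) :=
    PT.flatMap (f := fun q : α × ℕ => List.range ((L q.1).length + 1)) (g := fun q j =>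
      (List.range ((L q.1).length + 1)).map fun k =>
      gauss (e q.1) (N q.1 + 4) (rowsP (e q.1) (N q.1) (L q.1) (x q.1) q.2 j k))
      (hm.comp PT.fst) h2
  exact PT.sum (PT.flatMap (f := fun a => List.range ((L a).length + 1)) (g := fun a i =>
    (List.range ((L a).length + 1)).flatMap fun j => (List.range ((L a).length + 1)).map fun k =>
      gauss (e a) (N a + 4) (rowsP (e a) (N a) (L a) (x a) i j k)) hm h3)

end

theorem pt_rowsP : PT (fun a : (ℕ × ℕ × List (List ℕ × List ℕ)) × List ℕ × ℕ × ℕ × ℕ =>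
    rowsP a.1.1 a.1.2.1 a.1.2.2 a.2.1 a.2.2.1 a.2.2.2.1 a.2.2.2.2) :=
  ptp_rows PT.fst.fst' PT.fst.snd'.fst' PT.fst.snd'.snd' PT.snd.fst' PT.snd.snd'.fst'
    PT.snd.snd'.snd'.fst' PT.snd.snd'.snd'.snd'

theorem pt_potL : PT (fun a : (ℕ × ℕ × List (List ℕ × List ℕ)) × List ℕ =>
    potL a.1.1 a.1.2.1 a.1.2.2 a.2) :=
  ptp_pot PT.fst.fst' PT.fst.snd'.fst' PT.fst.snd'.snd' PT.snd

end Pool.Agent.Lib.Parity
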