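import Pool.Agent.Lib.Parity.PTP

/-!
# The local search is a polynomial time function
-/

set_option autoImplicit false
set_option linter.unusedSectionVars false

namespace Pool.Agent.Lib.Parity

open Module Pool.Agent.Lib.PolyTime

section
variable {α : Type} [Enc α]

theorem pts_upd {m l t : α → ℕ} {x : α → List ℕ} (hm : PT m) (hx : PT x) (hl : PT l)
    (ht : PT t) : PT (fun a => updL (m a) (x a) (l a) (t a)) := by
  have h : PT (fun q : α × ℕ => if q.2 = l q.1 then t q.1 else cell (x q.1) q.2) :=
    PT.ite (PT.eq PT.snd (hl.comp PT.fst)) (ht.comp PT.fst) (PT.cell (hx.comp PT.fst) PT.snd)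
  exact PT.map (f := fun a => List.range (m a)) (g := fun a q => if q = l a then t a
    else cell (x a) q) (PT.range hm) h

theorem pts_better {e N : α → ℕ} {L : α → List (List ℕ × List ℕ)} {x : α → List ℕ}
    (he : PT e) (hN : PT N) (hL : PT L) (hx : PT x) :
    PT (fun a => better (e a) (N a) (L a) (x a)) := by
  have h1 : PT (fun q : (α × ℕ) × ℕ => updL (L q.1.1).length (x q.1.1) q.1.2 q.2) :=
    pts_upd (PT.length (hL.comp PT.fst.fst')) (hx.comp PT.fst.fst') PT.fst.snd' PT.snd
  have h2 : PT (fun q : α × ℕ => (List.range (e q.1 + 1)).map fun t =>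
      updL (L q.1).length (x q.1) q.2 t) :=
    PT.map (f := fun q : α × ℕ => List.range (e q.1 + 1)) (g := fun q t =>
      updL (L q.1).length (x q.1) q.2 t) (PT.range (PT.succ (he.comp PT.fst))) h1
  have h3 : PT (fun a => (List.range (L a).length).flatMap fun l => (List.range (e a + 1)).map
      fun t => updL (L a).length (x a) l t) :=
    PT.flatMap (f := fun a => List.range (L a).length) (g := fun a l => (List.range (e a + 1)).map
      fun t => updL (L a).length (x a) l t) (PT.range (PT.length hL)) h2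
  have h4 : PT (fun q : α × List ℕ => decide (potL (e q.1) (N q.1) (L q.1) (x q.1) <
      potL (e q.1) (N q.1) (L q.1) q.2)) :=
    PT.lt (ptp_pot (he.comp PT.fst) (hN.comp PT.fst) (hL.comp PT.fst) (hx.comp PT.fst))
      (ptp_pot (he.comp PT.fst) (hN.comp PT.fst) (hL.comp PT.fst) PT.snd)
  exact PT.head? (PT.filter h3 h4)

theorem pts_step {e N : α → ℕ} {L : α → List (List ℕ × List ℕ)} {x : α → List ℕ}
    (he : PT e) (hN : PT N) (hL : PT L) (hx : PT x) :
    PT (fun a => lstep (e a) (N a) (L a) (x a)) :=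
  PT.congr (PT.optCases (h := fun _ y => y) (pts_better he hN hL hx) hx PT.snd) fun a => by
    unfold lstep
    cases better (e a) (N a) (L a) (x a) <;> rfl

theorem pts_inv (e N : ℕ) (L : List (List ℕ × List ℕ)) (i : ℕ) :
    ((lstep e N L)^[i] (List.replicate L.length 0)).length = L.length ∧
    ∀ y ∈ (lstep e N L)^[i] (List.replicate L.length 0), y ≤ e := by
  induction i with
  | zero =>
    refine ⟨List.length_replicate, fun y hy => ?_⟩
    rw [List.eq_of_mem_replicate hy]
    exact Nat.zero_le e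
  | succ i ih =>
    rw [Function.iterate_succ_apply']
    set x := (lstep e N L)^[i] (List.replicate L.length 0) with hx
    unfold lstep
    cases h : better e N L x with
    | none => exact ih
    | some x' =>
      unfold better at h
      have h1 := List.mem_of_mem_head? h
      have h2 := (List.mem_filter.mp h1).1
      obtain ⟨l, hl, h3⟩ := List.mem_flatMap.mp h2
      obtain ⟨t, ht, h4⟩ := List.mem_map.mp h3
      have ht' : t < e + 1 := List.mem_range.mp ht
      subst h4
      refine ⟨by simp [updL], fun y hy => ?_⟩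
      unfold updL at hy
      obtain ⟨q, hq, h5⟩ := List.mem_map.mp hy
      rw [← h5]
      split_ifs with h6
      · omega
      · unfold cell
        rw [List.getD_eq_getElem?_getD]
        cases h7 : x[q]? with
        | none => exact Nat.zero_le e
        | some z => exact ih.2 z (List.mem_of_getElem? h7)

theorem pts_search : PT (fun a : ℕ × ℕ × List (List ℕ × List ℕ) => search a.1 a.2.1 a.2.2) := by
  have he : PT (fun a : ℕ × ℕ × List (List ℕ × List ℕ) => a.1) := PT.fst
  have hN : PT (fun a : ℕ × ℕ × List (List ℕ × List ℕ) => a.2.1) := PT.snd.fst'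
  have hL : PT (fun a : ℕ × ℕ × List (List ℕ × List ℕ) => a.2.2) := PT.snd.snd'
  have h1 : PT (fun a : ℕ × ℕ × List (List ℕ × List ℕ) => a.2.2.length + 1) :=
    PT.succ (PT.length hL)
  have h2 : PT (fun a : ℕ × ℕ × List (List ℕ × List ℕ) => (a.2.2.length + 1) *
      (a.2.2.length + 1) * (a.2.2.length + 1) * (a.2.1 + 4) + 1) :=
    PT.succ (PT.mul (PT.mul (PT.mul h1 h1) h1) (PT.addConst hN 4))
  have h3 : PT (fun a : ℕ × ℕ × List (List ℕ × List ℕ) => List.replicate a.2.2.length 0) := by
    refine PT.congr (PT.map (f := fun a : ℕ × ℕ × List (List ℕ × List ℕ) =>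
      List.range a.2.2.length) (g := fun _ _ => 0) (PT.range (PT.length hL)) (PT.const 0)) ?_
    intro a
    simp
  have h4 : PT (fun q : (ℕ × ℕ × List (List ℕ × List ℕ)) × List ℕ =>
      lstep q.1.1 q.1.2.1 q.1.2.2 q.2) :=
    pts_step (he.comp PT.fst) (hN.comp PT.fst) (hL.comp PT.fst) PT.snd
  refine PT.congr (PT.iterate (step := fun a : ℕ × ℕ × List (List ℕ × List ℕ) =>
    lstep a.1 a.2.1 a.2.2) h2 h3 h4 (B := fun n => n * (n + 1) + 1)
    ((PB.id.mul (PB.id.add (PB.const 1))).add (PB.const 1)) ?_) fun _ => rfl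
  intro a i _
  have h5 := pts_inv a.1 a.2.1 a.2.2 i
  have h6 := size_list_le (S := size a) ((lstep a.1 a.2.1 a.2.2)^[i]
    (List.replicate a.2.2.length 0)) (by
      intro y hy
      have h7 := h5.2 y hy
      rw [size_nat]
      have h8 : size a = size a.1 + size a.2 + 1 := size_prod a
      rw [size_nat] at h8
      omega)
  rw [h5.1] at h6
  have h9 : a.2.2.length ≤ size a := by
    have h8 : size a = size a.1 + size a.2 + 1 := size_prod a
    have h10 : size a.2 = size a.2.1 + size a.2.2 + 1 := size_prod a.2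
    have h11 := length_le_size a.2.2
    omega
  exact h6.trans (Nat.succ_le_succ (Nat.mul_le_mul_right _ h9))

end

theorem pt_rankL : PT (fun a : ℕ × ℕ × List (List ℕ × List ℕ) => rankL a.1 a.2.1 a.2.2) := by
  have he : PT (fun a : ℕ × ℕ × List (List ℕ × List ℕ) => a.1) := PT.fst
  have hN : PT (fun a : ℕ × ℕ × List (List ℕ × List ℕ) => a.2.1) := PT.snd.fst'
  have hL : PT (fun a : ℕ × ℕ × List (List ℕ × List ℕ) => a.2.2) := PT.snd.snd'
  have h1 : PT (fun q : ((ℕ × ℕ × List (List ℕ × List ℕ)) × ℕ) × ℕ => aent q.1.1.1 q.1.1.2.2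
      (search q.1.1.1 q.1.1.2.1 q.1.1.2.2) q.1.2 q.2) :=
    ptp_aent (he.comp PT.fst.fst') (hL.comp PT.fst.fst') (pts_search.comp PT.fst.fst')
      PT.fst.snd' PT.snd
  have h2 : PT (fun q : (ℕ × ℕ × List (List ℕ × List ℕ)) × ℕ => (List.range q.1.2.1).map fun s =>
      aent q.1.1 q.1.2.2 (search q.1.1 q.1.2.1 q.1.2.2) q.2 s) :=
    PT.map (f := fun q : (ℕ × ℕ × List (List ℕ × List ℕ)) × ℕ => List.range q.1.2.1)
      (g := fun q s => aent q.1.1 q.1.2.2 (search q.1.1 q.1.2.1 q.1.2.2) q.2 s)
      (PT.range (hN.comp PT.fst)) h1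
  have h3 : PT (fun a : ℕ × ℕ × List (List ℕ × List ℕ) => (List.range a.2.1).map fun r =>
      (List.range a.2.1).map fun s => aent a.1 a.2.2 (search a.1 a.2.1 a.2.2) r s) :=
    PT.map (f := fun a : ℕ × ℕ × List (List ℕ × List ℕ) => List.range a.2.1)
      (g := fun a r => (List.range a.2.1).map fun s =>
        aent a.1 a.2.2 (search a.1 a.2.1 a.2.2) r s) (PT.range hN) h2
  exact ptp_gauss he hN h3

end Pool.Agent.Lib.Parity
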