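import Pool.Agent.Lib.Parity.POTL

/-!
# Parity library: the local search ends in a local optimum
-/

set_option autoImplicit false
set_option linter.unusedSectionVars false

namespace Pool.Agent.Lib.Parity

theorem better_some {e N : ℕ} {Ls : List (List ℕ × List ℕ)} {x x' : List ℕ}
    (h : better e N Ls x = some x') : potL e N Ls x < potL e N Ls x' := by
  unfold better at h
  have := List.mem_of_head? h
  rw [List.mem_filter, decide_eq_true_eq] at this
  exact this.2

theorem better_none {e N : ℕ} {Ls : List (List ℕ × List ℕ)} {x : List ℕ}
    (h : better e N Ls x = none) (l t : ℕ) (hl : l < Ls.length) (ht : t < e + 1) :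
    potL e N Ls (updL Ls.length x l t) ≤ potL e N Ls x := by
  unfold better at h
  rw [List.head?_eq_none_iff, List.filter_eq_nil_iff] at h
  have := h (updL Ls.length x l t) (List.mem_flatMap.2 ⟨l, List.mem_range.2 hl,
    List.mem_map.2 ⟨t, List.mem_range.2 ht, rfl⟩⟩)
  rw [decide_eq_true_eq] at this
  exact not_lt.1 this

theorem lstep_some {e N : ℕ} {Ls : List (List ℕ × List ℕ)} {x x' : List ℕ}
    (h : better e N Ls x = some x') : lstep e N Ls x = x' := by
  unfold lstep
  rw [h]

theorem lstep_none {e N : ℕ} {Ls : List (List ℕ × List ℕ)} {x : List ℕ}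
    (h : better e N Ls x = none) : lstep e N Ls x = x := by
  unfold lstep
  rw [h]

theorem search_opt (e N : ℕ) (Ls : List (List ℕ × List ℕ)) (l t : ℕ) (hl : l < Ls.length)
    (ht : t < e + 1) :
    potL e N Ls (updL Ls.length (search e N Ls) l t) ≤ potL e N Ls (search e N Ls) := by
  set x0 := List.replicate Ls.length 0
  set B := (Ls.length + 1) * (Ls.length + 1) * (Ls.length + 1) * (N + 4) with hB
  -- after some step nothing is better
  have hex : ∃ k ≤ B, better e N Ls ((lstep e N Ls)^[k] x0) = none := by
    by_contra hcon
    push Not at hcon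
    have hk : ∀ k ≤ B + 1, k ≤ potL e N Ls ((lstep e N Ls)^[k] x0) := by
      intro k
      induction k with
      | zero => intro _; exact Nat.zero_le _
      | succ k ih =>
        intro hk
        have h1 := ih (by omega)
        have h2 := hcon k (by omega)
        rw [Function.iterate_succ_apply']
        obtain ⟨x', hx'⟩ := Option.ne_none_iff_exists'.1 h2
        rw [lstep_some hx']
        have := better_some hx'
        omega
    have h1 := hk (B + 1) le_rfl
    have h2 := potL_le e N Ls ((lstep e N Ls)^[B + 1] x0)
    omega
  obtain ⟨k, hkB, hk⟩ := hex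
  have hfix : lstep e N Ls ((lstep e N Ls)^[k] x0) = (lstep e N Ls)^[k] x0 := lstep_none hk
  have hs : search e N Ls = (lstep e N Ls)^[k] x0 := by
    unfold search
    rw [show (Ls.length + 1) * (Ls.length + 1) * (Ls.length + 1) * (N + 4) + 1 =
      (B + 1 - k) + k by omega, Function.iterate_add_apply]
    exact Function.iterate_fixed hfix _
  rw [hs]
  exact better_none hk l t hl ht

end Pool.Agent.Lib.Parity
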