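import Pool.Agent.Lib.Parity.POT
import Pool.Agent.Lib.Parity.SRCH
import Pool.Agent.Lib.Parity.LOPT

/-!
# Parity library: the algorithm computes twice the matching number
-/

set_option autoImplicit false
set_option linter.unusedSectionVars false

namespace Pool.Agent.Lib.Parity

open Module

theorem cell_map_range (m : ℕ) (f : ℕ → ℕ) (q : ℕ) (hq : q < m) :
    cell ((List.range m).map f) q = f q := by
  unfold cell
  simp [List.getD_eq_getElem?_getD, hq]

theorem vx_updL (p m : ℕ) [NeZero p] (x : List ℕ) (l : Fin m) (t : ZMod p) :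
    vx p m (updL m x l t.val) = Function.update (vx p m x) l t := by
  funext q
  unfold vx updL
  rw [cell_map_range m _ q q.2, Function.update_apply]
  by_cases h : q = l
  · subst h
    simp
  · have h' : (q : ℕ) ≠ (l : ℕ) := fun h' => h (Fin.ext h')
    rw [if_neg h', if_neg h]

theorem rankL_spec {e : ℕ} [Fact (e + 1).Prime] (N : ℕ) (Ls : List (List ℕ × List ℕ))
    (hp : bnd N Ls.length < e + 1)
    (hL : ∀ l, LinearIndependent (ZMod (e + 1)) ![vb (e + 1) N Ls l, vc (e + 1) N Ls l]) :
    (∃ M : Finset (Fin Ls.length), Matching (ZMod (e + 1)) (vb (e + 1) N Ls) (vc (e + 1) N Ls) M ∧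
      2 * M.card = rankL e N Ls) ∧
      ∀ M : Finset (Fin Ls.length), Matching (ZMod (e + 1)) (vb (e + 1) N Ls) (vc (e + 1) N Ls) M →
        2 * M.card ≤ rankL e N Ls := by
  have hR : rankL e N Ls = (Amat (vb (e + 1) N Ls) (vc (e + 1) N Ls)
      (vx (e + 1) Ls.length (search e N Ls))).rank := gauss_A N Ls (search e N Ls)
  rw [hR]
  unfold bnd at hp
  have hcube : (Ls.length + 1) ^ 3 = (Ls.length + 1) * (Ls.length + 1) * (Ls.length + 1) := by ring
  refine local_opt _ _ _ hL ?_ ?_ ?_
  · intro m hm0 hm h0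
    rw [ZMod.natCast_eq_zero_iff] at h0
    have h1 := Nat.le_of_dvd hm0 h0
    rw [Fintype.card_fin] at hm
    omega
  · rw [Fintype.card_fin, ZMod.card, hcube]
    have : (Ls.length + 1) * (Ls.length + 1) * (Ls.length + 1) * (N + 2) ≤
      (Ls.length + 1) * (Ls.length + 1) * (Ls.length + 1) * (N + 4) :=
      Nat.mul_le_mul_left _ (by omega)
    omega
  · intro l t
    have h1 := search_opt e N Ls l t.val l.2 (ZMod.val_lt t)
    rw [potL_eq, potL_eq, vx_updL] at h1
    exact h1

end Pool.Agent.Lib.Parity
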