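import Pool.Agent.Lib.Parity.Defs

/-!
# Parity library: the shear
-/

set_option autoImplicit false
set_option linter.unusedSectionVars false

namespace Pool.Agent.Lib.Parity

open Module

variable {K : Type*} [Field K] {X : Type*} [AddCommGroup X] [Module K X] [FiniteDimensional K X]
variable {L : Type*}

theorem shear_swap {ω : X →ₗ[K] Dual K X} (hω : Alt ω) (ξ η : X) : ω ξ η = - ω η ξ := by
  have h := hω (ξ + η)
  simp only [map_add, LinearMap.add_apply] at h
  rw [hω ξ, hω η, zero_add, add_zero] at h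
  exact eq_neg_of_add_eq_zero_right h

theorem shear_apply (y : X) (v : Dual K X) (s : K) (f : Dual K X) (x : X) :
    shear y v s f x = f x - s * f y * v x := rfl

theorem mem_Ksp {ω : X →ₗ[K] Dual K X} {F G : Submodule K (Dual K X)} {ξ : X} :
    ξ ∈ Ksp ω F G ↔ (∀ f ∈ F, f ξ = 0) ∧ ω ξ ∈ G := by
  unfold Ksp
  rw [Submodule.mem_inf, Submodule.mem_dualCoannihilator, Submodule.mem_comap]

theorem shear_stuck {ω : X →ₗ[K] Dual K X} {u v : L → Dual K X} {y : L → X}
    (h : Norm ω u v y) (l : L) (s : K) (hs : 1 - s * v l (y l) ≠ 0) (i j k : Option L) :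
    dimK u v ω i j k ≤ finrank K (Ksp ω ((ln u v i).map (shear (y l) (v l) s))
      ((ln u v j ⊔ ln u v k).map (shear (y l) (v l) s))) := by
  set s' : K := s / (1 - s * v l (y l)) with hs'
  have hss : s' * (1 - s * v l (y l)) = s := div_mul_cancel₀ s hs
  refine (h.stuck l (-s') i j k).trans ?_
  unfold dimK
  set ω' : X →ₗ[K] Dual K X := ω + (-s') • wedge (u l) (v l) with hω'
  let θ : X →ₗ[K] X := LinearMap.id + (s' • v l).smulRight (y l)
  have hθ : ∀ ξ, θ ξ = ξ + (s' * v l ξ) • y l := fun ξ => rfl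
  have hsh : ∀ (f : Dual K X) (ξ : X), shear (y l) (v l) s f (θ ξ) = f ξ := by
    intro f ξ
    rw [shear_apply, hθ]
    simp only [map_add, map_smul, smul_eq_mul]
    linear_combination (f (y l) * v l ξ) * hss
  have hinj : Function.Injective θ := by
    rw [← LinearMap.ker_eq_bot, LinearMap.ker_eq_bot']
    intro ξ hξ
    have h1 : v l ξ = 0 := by
      have := hsh (v l) ξ
      rw [hξ, map_zero] at this
      exact this.symm
    rw [hθ, h1, mul_zero, zero_smul, add_zero] at hξ
    exact hξ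
  have hωθ : ∀ ξ, ω (θ ξ) = shear (y l) (v l) s (ω' ξ) := by
    intro ξ
    have hsurj : Function.Surjective θ := LinearMap.surjective_of_injective hinj
    refine LinearMap.ext fun η' => ?_
    obtain ⟨η, rfl⟩ := hsurj η'
    rw [hsh, hω', hθ ξ, hθ η]
    have h1 : ω (y l) = u l := h.hy l
    have h2 : ω ξ (y l) = - u l ξ := by rw [shear_swap h.alt, h1]
    have h3 : u l (y l) = 0 := by rw [← h1]; exact h.alt _
    simp only [map_add, map_smul, LinearMap.add_apply, LinearMap.smul_apply, smul_eq_mul, wedge,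
      LinearMap.sub_apply, LinearMap.smulRight_apply, h1, h2, h3]
    ring
  have hle : (Ksp ω' (ln u v i) (ln u v j ⊔ ln u v k)).map θ ≤
      Ksp ω ((ln u v i).map (shear (y l) (v l) s))
        ((ln u v j ⊔ ln u v k).map (shear (y l) (v l) s)) := by
    rintro _ ⟨ξ, hξ, rfl⟩
    have hξ' := mem_Ksp.mp hξ
    refine mem_Ksp.mpr ⟨?_, ?_⟩
    · rintro _ ⟨f, hf, rfl⟩
      rw [hsh]
      exact hξ'.1 f hf
    · rw [hωθ]
      exact Submodule.mem_map_of_mem hξ'.2
  refine le_trans (le_of_eq ?_) (Submodule.finrank_mono hle)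
  exact (Submodule.equivMapOfInjective θ hinj _).finrank_eq

end Pool.Agent.Lib.Parity
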